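import Pool.Agent.StL.Defs

open Complex Set Filter MeasureTheory Topology Metric
open scoped Real

namespace Pool.Agent.StL

open Pool.Agent.Stj

/-- if `n + 1` is not exceptional, the Stieltjes constant is large -/
theorem large_of_re_sqrt (δ : ℝ) (hδ : 0 < δ) : ∃ n0 : ℕ, ∀ n : ℕ, n0 ≤ n → n + 1 ∉ ExS →
    Real.exp (n * (Real.log (Real.log n) - δ)) ≤ |-(π / (n + 1)) * (J (n + 1)).re| := by
  obtain ⟨m0, hm02, hm0⟩ := exists_good
  have hsm : Tendsto (fun x : ℝ => 2 / √(Real.log x) + (Real.log x / x + 1 / √x)) atTop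
      (𝓝 0) := by
    have h1 : Tendsto (fun x : ℝ => Real.log x / x) atTop (𝓝 0) := by
      have := Real.isLittleO_log_id_atTop
      exact this.tendsto_div_nhds_zero
    have h2 : Tendsto (fun x : ℝ => √(Real.log x)) atTop atTop :=
      Real.tendsto_sqrt_atTop.comp Real.tendsto_log_atTop
    have h3 : Tendsto (fun x : ℝ => 2 / √(Real.log x)) atTop (𝓝 0) := h2.const_div_atTop 2
    have h4 : Tendsto (fun x : ℝ => 1 / √x) atTop (𝓝 0) :=
      Real.tendsto_sqrt_atTop.const_div_atTop 1
    have := h3.add (h1.add h4)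
    simpa using this
  have h1 := hsm.eventually (ge_mem_nhds hδ)
  have h2 : Tendsto (fun x : ℝ => Real.log (Real.log x)) atTop atTop :=
    Real.tendsto_log_atTop.comp Real.tendsto_log_atTop
  have h3 := h2.eventually (eventually_ge_atTop δ)
  obtain ⟨X, hX⟩ := eventually_atTop.1 (h1.and (h3.and (eventually_ge_atTop (Real.exp 1))))
  obtain ⟨X', hX'⟩ := exists_nat_ge X
  refine ⟨max m0 (max X' 3), fun n hn hre => ?_⟩
  have hnm0 : m0 ≤ n + 1 := by
    have := (le_max_left _ _).trans hn
    omega
  have hnX : X' ≤ n := ((le_max_left _ _).trans (le_max_right _ _)).trans hn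
  have hn3 : 3 ≤ n := ((le_max_right _ _).trans (le_max_right _ _)).trans hn
  have hn3r : (3 : ℝ) ≤ n := by exact_mod_cast hn3
  obtain ⟨S, hS, _⟩ := hm0 (n + 1) hnm0
  have hJ := S.J_lower hS
  set m : ℝ := ((n + 1 : ℕ) : ℝ) with hm
  have hmn : m = n + 1 := by rw [hm]; push_cast; ring
  have hre' : ‖J (n + 1)‖ * Real.exp (-√m) ≤ |(J (n + 1)).re| := by
    have : ¬ (|(J (n + 1)).re| ≤ ‖J (n + 1)‖ * Real.exp (-√m)) := hre
    linarith [not_le.1 this]
  obtain ⟨g1, g2, g3⟩ := hX m (by
    rw [hmn]
    have : (X' : ℝ) ≤ n := by exact_mod_cast hnX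
    linarith)
  have hm0' : 0 < m := by linarith
  have hlogm : 1 ≤ Real.log m := (Real.le_log_iff_exp_le hm0').2 g3
  have hlogn : 1 ≤ Real.log n := by
    rw [Real.le_log_iff_exp_le (by linarith)]
    have := Real.exp_one_lt_d9
    linarith
  rw [← hmn, abs_mul, abs_neg, abs_of_pos (by positivity)]
  -- lower bound chain
  have h5 : Real.exp (m * (Real.log (Real.log m) - 2 / √(Real.log m))) * Real.exp (-√m) ≤
      |(J (n + 1)).re| := by
    refine le_trans ?_ hre'
    gcongr
  have h6 : Real.exp (m * (Real.log (Real.log m) - δ)) ≤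
      π / m * (Real.exp (m * (Real.log (Real.log m) - 2 / √(Real.log m))) * Real.exp (-√m)) := by
    have e1 : π / m * (Real.exp (m * (Real.log (Real.log m) - 2 / √(Real.log m))) *
        Real.exp (-√m)) =
        π * Real.exp (m * (Real.log (Real.log m) - 2 / √(Real.log m)) - √m - Real.log m) := by
      rw [Real.exp_sub, Real.exp_log (by positivity)]
      rw [sub_eq_add_neg (m * (Real.log (Real.log m) - 2 / √(Real.log m))) (√m), Real.exp_add]
      field_simp
    rw [e1]
    have h7 : m * (Real.log (Real.log m) - δ) ≤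
        m * (Real.log (Real.log m) - 2 / √(Real.log m)) - √m - Real.log m := by
      have h8 : m * (2 / √(Real.log m) + (Real.log m / m + 1 / √m)) ≤ m * δ := by gcongr
      have h9 : m * (2 / √(Real.log m) + (Real.log m / m + 1 / √m)) =
          m * (2 / √(Real.log m)) + Real.log m + √m := by
        have h10 : m * (1 / √m) = √m := by
          rw [mul_one_div, Real.div_sqrt]
        have h11 : m * (Real.log m / m) = Real.log m := by field_simp
        rw [mul_add, mul_add, h10, h11]
        ring
      linarith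
    have h10 := Real.exp_le_exp.2 h7
    have hpi := Real.pi_gt_three
    have h11 := Real.exp_pos (m * (Real.log (Real.log m) - 2 / √(Real.log m)) - √m - Real.log m)
    nlinarith
  have h12 : Real.exp (n * (Real.log (Real.log n) - δ)) ≤
      Real.exp (m * (Real.log (Real.log m) - δ)) := by
    rw [Real.exp_le_exp]
    have h13 : Real.log (Real.log n) ≤ Real.log (Real.log m) := by
      apply Real.log_le_log (by linarith)
      apply Real.log_le_log (by linarith)
      linarith
    calc (n : ℝ) * (Real.log (Real.log n) - δ) ≤ n * (Real.log (Real.log m) - δ) := by gcongr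
      _ ≤ m * (Real.log (Real.log m) - δ) := by
          apply mul_le_mul_of_nonneg_right _ (by linarith)
          linarith
  calc _ ≤ _ := h12
    _ ≤ _ := h6
    _ ≤ _ := by gcongr

end Pool.Agent.StL
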