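import Pool.Agent.StL.QE

open Complex Set Filter MeasureTheory Topology Metric
open scoped Real

namespace Pool.Agent.StL

open Pool.Agent.Stj

lemma NNb_param {U : Set ℂ} (hU : IsOpen U) {a b : ℝ} (hab : a ≤ b) {F : ℂ → ℝ → ℂ}
    (h1 : ContinuousOn (fun p : ℂ × ℝ => F p.1 p.2) (U ×ˢ Icc a b))
    (h2 : ∀ t ∈ Icc a b, DifferentiableOn ℂ (fun z => F z t) U) :
    DifferentiableOn ℂ (fun z => ∫ t in a..b, F z t) U := by
  intro z₀ hz₀
  obtain ⟨r, hr, hball⟩ : ∃ r > 0, closedBall z₀ (2 * r) ⊆ U := by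
    obtain ⟨ε, hε, h⟩ := Metric.isOpen_iff.1 hU z₀ hz₀
    exact ⟨ε / 4, by positivity, fun z hz => h (by
      rw [mem_closedBall] at hz
      rw [mem_ball]
      linarith)⟩
  have hc : ∀ z ∈ U, ContinuousOn (F z) (Icc a b) := by
    intro z hz
    have : ContinuousOn (fun t : ℝ => ((z, t) : ℂ × ℝ)) (Icc a b) := by fun_prop
    exact h1.comp this (fun t ht => ⟨hz, ht⟩)
  obtain ⟨C, hC⟩ := ((isCompact_closedBall z₀ (2 * r)).prod (isCompact_Icc (a := a) (b := b))
    ).exists_bound_of_continuousOn (h1.mono (Set.prod_mono hball subset_rfl))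
  have hmeas : ∀ z ∈ U, AEStronglyMeasurable (F z) (volume.restrict (uIoc a b)) := by
    intro z hz
    rw [uIoc_of_le hab]
    exact ((hc z hz).mono Ioc_subset_Icc_self).aestronglyMeasurable measurableSet_Ioc
  have hz₀b : z₀ ∈ closedBall z₀ (2 * r) := mem_closedBall_self (by positivity)
  have hd : ∀ t ∈ Icc a b, ∀ z ∈ U, HasDerivAt (fun z => F z t) (deriv (fun z => F z t) z) z := by
    intro t ht z hz
    exact ((h2 t ht).differentiableAt (hU.mem_nhds hz)).hasDerivAt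
  have key := intervalIntegral.hasDerivAt_integral_of_dominated_loc_of_deriv_le
    (μ := volume) (a := a) (b := b) (bound := fun _ => C / r)
    (F := F) (F' := fun z t => deriv (fun z => F z t) z) (x₀ := z₀)
    (s := ball z₀ r) (ball_mem_nhds z₀ hr) ?_ ?_ ?_ ?_ ?_ ?_
  · exact key.2.differentiableAt.differentiableWithinAt
  · filter_upwards [hU.mem_nhds hz₀] with z hz using hmeas z hz
  · apply ContinuousOn.intervalIntegrable
    rw [uIcc_of_le hab]
    exact hc z₀ hz₀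
  · -- measurability of the derivative
    set s : ℕ → ℂ := fun n => (r : ℂ) / ((n : ℂ) + 1) with hs
    have hs0 : ∀ n, s n ≠ 0 := by
      intro n
      simp only [hs]
      have : ((n : ℂ) + 1) ≠ 0 := Nat.cast_add_one_ne_zero n
      have hr' : (r : ℂ) ≠ 0 := by exact_mod_cast hr.ne'
      exact div_ne_zero hr' this
    have hsn : ∀ n, ‖s n‖ ≤ r := by
      intro n
      simp only [hs]
      rw [norm_div]
      have h3 : ‖((n : ℂ) + 1)‖ = (n : ℝ) + 1 := by
        have : ((n : ℂ) + 1) = ((n + 1 : ℝ) : ℂ) := by push_cast; ring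
        rw [this, Complex.norm_real, Real.norm_of_nonneg (by positivity)]
      rw [h3, Complex.norm_real, Real.norm_of_nonneg hr.le]
      apply div_le_self hr.le
      have : (0 : ℝ) ≤ n := n.cast_nonneg
      linarith
    have hst : Tendsto s atTop (𝓝[≠] 0) := by
      rw [tendsto_nhdsWithin_iff]
      refine ⟨?_, Eventually.of_forall fun n => hs0 n⟩
      have h4 : Tendsto (fun n : ℕ => (r : ℂ) * (1 / ((n : ℂ) + 1))) atTop (𝓝 ((r : ℂ) * 0)) := by
        apply Tendsto.const_mul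
        exact tendsto_one_div_add_atTop_nhds_zero_nat
      rw [mul_zero] at h4
      refine h4.congr fun n => ?_
      simp only [hs]
      ring
    have hmem : ∀ n, z₀ + s n ∈ U := by
      intro n
      apply hball
      rw [mem_closedBall, dist_eq_norm, add_sub_cancel_left]
      linarith [hsn n]
    refine aestronglyMeasurable_of_tendsto_ae (atTop : Filter ℕ)
      (f := fun n t => (s n)⁻¹ • (F (z₀ + s n) t - F z₀ t)) ?_ ?_
    · intro n
      have h6 := (hmeas _ (hmem n)).sub (hmeas _ hz₀)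
      exact AEStronglyMeasurable.const_smul (c := ((s n)⁻¹ : ℂ)) h6
    · rw [uIoc_of_le hab]
      refine (ae_restrict_iff' measurableSet_Ioc).2 (ae_of_all _ fun t ht => ?_)
      have h5 := (hd t (Ioc_subset_Icc_self ht) z₀ hz₀).tendsto_slope_zero
      exact h5.comp hst
  · refine ae_of_all _ fun t ht z hz => ?_
    rw [uIoc_of_le hab] at ht
    have ht' := Ioc_subset_Icc_self ht
    have hsub : closedBall z r ⊆ closedBall z₀ (2 * r) := by
      intro w hw
      rw [mem_closedBall] at hw ⊢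
      rw [mem_ball] at hz
      have := dist_triangle w z z₀
      linarith
    apply Complex.norm_deriv_le_of_forall_mem_sphere_norm_le hr
    · refine DifferentiableOn.diffContOnCl ?_
      rw [closure_ball z hr.ne']
      exact (h2 t ht').mono (hsub.trans hball)
    · intro w hw
      exact hC (w, t) ⟨hsub (sphere_subset_closedBall hw), ht'⟩
  · exact intervalIntegrable_const
  · refine ae_of_all _ fun t ht z hz => ?_
    rw [uIoc_of_le hab] at ht
    apply hd t (Ioc_subset_Icc_self ht)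
    apply hball
    rw [mem_ball] at hz
    rw [mem_closedBall]
    linarith

theorem NN_diff : ∃ ℓ0 : ℝ, ∀ ℓ : ℝ, ℓ0 ≤ ℓ →
    DifferentiableOn ℂ (NN ℓ) (ball (ℓ : ℂ) (ℓ / 7)) := by
  obtain ⟨ℓ1, h1⟩ := qe_near
  refine ⟨max ℓ1 2, fun ℓ hℓ => ?_⟩
  have hℓ1 : ℓ1 ≤ ℓ := (le_max_left _ _).trans hℓ
  have hℓ2 : 2 ≤ ℓ := (le_max_right _ _).trans hℓ
  have hℓ0 : 0 < ℓ := by linarith
  have hT : -Real.exp (ℓ / 8) ≤ Real.exp (ℓ / 8) := by
    have := Real.exp_pos (ℓ / 8)
    linarith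
  have hre : ∀ u ∈ ball (ℓ : ℂ) (ℓ / 7), 1 < u.re := by
    intro u hu
    rw [mem_ball, dist_eq_norm] at hu
    have h3 := Complex.abs_re_le_norm (u - ℓ)
    rw [Complex.sub_re, Complex.ofReal_re] at h3
    have h4 := (abs_le.1 (h3.trans hu.le)).1
    linarith
  have hu0 : ∀ u ∈ ball (ℓ : ℂ) (ℓ / 7), u ≠ 0 := by
    intro u hu h
    have := hre u hu
    rw [h] at this
    norm_num at this
  have hun : ∀ u ∈ ball (ℓ : ℂ) (ℓ / 7), 1 < ‖u‖ := by
    intro u hu
    exact (hre u hu).trans_le (Complex.re_le_norm u)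
  have hs1 : ∀ u ∈ ball (ℓ : ℂ) (ℓ / 7), u / (ℓ : ℂ) ∈ slitPlane := by
    intro u hu
    left
    rw [Complex.div_ofReal_re]
    exact div_pos (by linarith [hre u hu]) hℓ0
  have hy : ∀ u ∈ ball (ℓ : ℂ) (ℓ / 7), ∀ τ ∈ Icc (-Real.exp (ℓ / 8)) (Real.exp (ℓ / 8)),
      ‖(τ : ℂ) * gg ℓ u‖ ≤ 1 / 4 := by
    intro u hu τ hτ
    rw [mem_ball, dist_eq_norm] at hu
    exact (h1 ℓ hℓ1 u hu.le τ (abs_le.2 hτ)).1
  have hs2 : ∀ u ∈ ball (ℓ : ℂ) (ℓ / 7), ∀ τ ∈ Icc (-Real.exp (ℓ / 8)) (Real.exp (ℓ / 8)),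
      1 + (τ : ℂ) * gg ℓ u ∈ slitPlane := by
    intro u hu τ hτ
    exact Complex.mem_slitPlane_of_norm_lt_one (by linarith [hy u hu τ hτ])
  have hs3 : ∀ u ∈ ball (ℓ : ℂ) (ℓ / 7), ∀ τ ∈ Icc (-Real.exp (ℓ / 8)) (Real.exp (ℓ / 8)),
      1 + Complex.log (1 + (τ : ℂ) * gg ℓ u) / u ∈ slitPlane := by
    intro u hu τ hτ
    have h3 := hy u hu τ hτ
    have h4 := Complex.norm_log_one_add_half_le_self (z := (τ : ℂ) * gg ℓ u) (by linarith)
    apply Complex.mem_slitPlane_of_norm_lt_one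
    rw [norm_div]
    have h5 := hun u hu
    rw [div_lt_one (by linarith)]
    linarith
  have hgd : DifferentiableOn ℂ (gg ℓ) (ball (ℓ : ℂ) (ℓ / 7)) := by
    unfold gg
    intro u hu
    apply DifferentiableAt.differentiableWithinAt
    have h6 : DifferentiableAt ℂ (fun u : ℂ => Complex.log (u / (ℓ : ℂ))) u :=
      DifferentiableAt.clog (f := fun u : ℂ => u / (ℓ : ℂ)) (by fun_prop) (hs1 u hu)
    apply DifferentiableAt.cexp
    apply DifferentiableAt.add
    · fun_prop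
    · exact h6.div_const 2
  unfold NN
  apply NNb_param isOpen_ball hT
  · have hg : ContinuousOn (fun p : ℂ × ℝ => gg ℓ p.1)
        (ball (ℓ : ℂ) (ℓ / 7) ×ˢ Icc (-Real.exp (ℓ / 8)) (Real.exp (ℓ / 8))) :=
      hgd.continuousOn.comp continuousOn_fst (fun p hp => hp.1)
    have hp2 : ContinuousOn (fun p : ℂ × ℝ => (p.2 : ℂ))
        (ball (ℓ : ℂ) (ℓ / 7) ×ˢ Icc (-Real.exp (ℓ / 8)) (Real.exp (ℓ / 8))) :=
      (Complex.continuous_ofReal.comp continuous_snd).continuousOn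
    have hp1 : ContinuousOn (fun p : ℂ × ℝ => p.1)
        (ball (ℓ : ℂ) (ℓ / 7) ×ˢ Icc (-Real.exp (ℓ / 8)) (Real.exp (ℓ / 8))) := continuousOn_fst
    have hyc := hp2.mul hg
    have hl1 : ContinuousOn (fun p : ℂ × ℝ => Complex.log (1 + (p.2 : ℂ) * gg ℓ p.1))
        (ball (ℓ : ℂ) (ℓ / 7) ×ˢ Icc (-Real.exp (ℓ / 8)) (Real.exp (ℓ / 8))) :=
      (continuousOn_const.add hyc).clog (fun p hp => hs2 p.1 hp.1 p.2 hp.2)
    have hl2 : ContinuousOn (fun p : ℂ × ℝ =>
        Complex.log (1 + Complex.log (1 + (p.2 : ℂ) * gg ℓ p.1) / p.1))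
        (ball (ℓ : ℂ) (ℓ / 7) ×ˢ Icc (-Real.exp (ℓ / 8)) (Real.exp (ℓ / 8))) :=
      (continuousOn_const.add (hl1.div hp1 (fun p hp => hu0 p.1 hp.1))).clog
        (fun p hp => hs3 p.1 hp.1 p.2 hp.2)
    unfold qe
    apply ContinuousOn.cexp
    apply ContinuousOn.mul
    · exact continuousOn_const.mul hp1.cexp
    · exact hyc.sub (hp1.mul hl2)
  · intro τ hτ u hu
    apply DifferentiableAt.differentiableWithinAt
    have hg : DifferentiableAt ℂ (gg ℓ) u := hgd.differentiableAt (isOpen_ball.mem_nhds hu)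
    have hyd : DifferentiableAt ℂ (fun u => (τ : ℂ) * gg ℓ u) u := hg.const_mul _
    have hl1 : DifferentiableAt ℂ (fun u => Complex.log (1 + (τ : ℂ) * gg ℓ u)) u :=
      (hyd.const_add 1).clog (hs2 u hu τ hτ)
    have hl2 : DifferentiableAt ℂ
        (fun u => Complex.log (1 + Complex.log (1 + (τ : ℂ) * gg ℓ u) / u)) u :=
      ((hl1.div differentiableAt_id (hu0 u hu)).const_add 1).clog (hs3 u hu τ hτ)
    unfold qe
    apply DifferentiableAt.cexp
    apply DifferentiableAt.mul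
    · fun_prop
    · exact hyd.sub (differentiableAt_id.mul hl2)

end Pool.Agent.StL
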