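import Pool.Agent.StL.Defs

open Complex Set Filter MeasureTheory Topology Metric
open scoped Real

namespace Pool.Agent.StL

open Pool.Agent.Stj

private lemma Vf_log_lip {u v : ℂ} (hu : 2 ≤ u.re) (hv : 2 ≤ v.re) :
    ‖Complex.log u - Complex.log v‖ ≤ 1 / 2 * ‖u - v‖ := by
  have hconv : Convex ℝ {z : ℂ | 2 ≤ z.re} := convex_halfSpace_re_ge 2
  refine hconv.norm_image_sub_le_of_norm_hasDerivWithin_le (f := Complex.log)
    (f' := fun z => z⁻¹) (C := 1 / 2) ?_ ?_ hv hu
  · intro x hx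
    have hx2 : 2 ≤ x.re := hx
    exact (Complex.hasDerivAt_log (Or.inl (by linarith))).hasDerivWithinAt
  · intro x hx
    have hx2 : 2 ≤ x.re := hx
    have h2 : 2 ≤ ‖x‖ := hx2.trans ((le_abs_self _).trans (Complex.abs_re_le_norm x))
    rw [norm_inv, one_div]
    exact inv_anti₀ (by norm_num) h2

private lemma Vf_inj {u v : ℂ} (hu : 2 ≤ u.re) (hv : 2 ≤ v.re) :
    ‖u - v‖ ≤ 2 * ‖(u + Complex.log u) - (v + Complex.log v)‖ := by
  have h1 := Vf_log_lip hu hv
  have h2 : u - v = ((u + Complex.log u) - (v + Complex.log v)) - (Complex.log u - Complex.log v) := by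
    ring
  have h3 := norm_sub_le ((u + Complex.log u) - (v + Complex.log v))
    (Complex.log u - Complex.log v)
  rw [← h2] at h3
  linarith

private lemma Vf_norm_log (u : ℂ) (hu : 1 ≤ ‖u‖) : ‖Complex.log u‖ ≤ Real.log ‖u‖ + π := by
  have h1 := Complex.norm_le_abs_re_add_abs_im (Complex.log u)
  rw [Complex.log_re, Complex.log_im] at h1
  have h2 := Complex.abs_arg_le_pi u
  have h3 : |Real.log ‖u‖| = Real.log ‖u‖ := abs_of_nonneg (Real.log_nonneg hu)
  linarith

theorem exists_V : ∃ ℓ0 : ℝ, ∀ ℓ : ℝ, ℓ0 ≤ ℓ → ∃ V : ℂ → ℂ, VOK ℓ V := by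
  have hlog : ∀ᶠ ℓ : ℝ in atTop, Real.log ℓ ≤ ℓ / 1000 := by
    have := Real.isLittleO_log_id_atTop.bound (show (0 : ℝ) < 1 / 1000 by norm_num)
    filter_upwards [this, eventually_ge_atTop 1] with ℓ h h1
    simp only [id, Real.norm_eq_abs] at h
    rw [abs_of_nonneg (Real.log_nonneg h1), abs_of_nonneg (by linarith : (0 : ℝ) ≤ ℓ)] at h
    linarith
  obtain ⟨ℓ0, hℓ0⟩ := (hlog.and (eventually_ge_atTop 1000)).exists_forall_of_atTop
  refine ⟨ℓ0, fun ℓ hℓ => ?_⟩
  obtain ⟨hl, hbig⟩ := hℓ0 ℓ hℓ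
  have hpi := Real.pi_gt_three
  have hpi' := Real.pi_lt_four
  have hI : ‖(I : ℂ) * π / 2‖ = π / 2 := by
    rw [norm_div, norm_mul, Complex.norm_I, one_mul, Complex.norm_real, Real.norm_eq_abs,
      abs_of_pos Real.pi_pos]
    norm_num
  have hre : ∀ ζ ∈ ball (ℓ : ℂ) (ℓ / 8), 7 * ℓ / 8 ≤ ζ.re := by
    intro ζ hζ
    rw [mem_ball, dist_eq_norm] at hζ
    have h1 := (Complex.abs_re_le_norm (ζ - ℓ))
    rw [Complex.sub_re, Complex.ofReal_re] at h1
    have h2 := neg_abs_le (ζ.re - ℓ)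
    linarith
  have him : ∀ ζ ∈ ball (ℓ : ℂ) (ℓ / 8), |ζ.im| ≤ ℓ / 8 := by
    intro ζ hζ
    rw [mem_ball, dist_eq_norm] at hζ
    have h1 := (Complex.abs_im_le_norm (ζ - ℓ))
    rw [Complex.sub_im, Complex.ofReal_im, sub_zero] at h1
    linarith
  have hnorm : ∀ ζ ∈ ball (ℓ : ℂ) (ℓ / 8), ‖ζ‖ ≤ 9 * ℓ / 8 := by
    intro ζ hζ
    rw [mem_ball, dist_eq_norm] at hζ
    have h1 : ‖ζ‖ ≤ ‖ζ - ℓ‖ + ‖(ℓ : ℂ)‖ := by
      simpa using norm_add_le (ζ - ℓ) (ℓ : ℂ)
    rw [Complex.norm_real, Real.norm_eq_abs, abs_of_pos (by linarith : (0 : ℝ) < ℓ)] at h1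
    linarith
  have hcb : ∀ ζ ∈ ball (ℓ : ℂ) (ℓ / 8), ∀ u ∈ closedBall ζ (ℓ / 100), 2 ≤ u.re ∧ ‖u‖ ≤ 2 * ℓ := by
    intro ζ hζ u hu
    rw [mem_closedBall, dist_eq_norm] at hu
    have h1 := (Complex.abs_re_le_norm (u - ζ))
    rw [Complex.sub_re] at h1
    have h2 := neg_abs_le (u.re - ζ.re)
    have h3 := hre ζ hζ
    have h4 := hnorm ζ hζ
    have h5 : ‖u‖ ≤ ‖u - ζ‖ + ‖ζ‖ := by simpa using norm_add_le (u - ζ) ζ
    constructor <;> linarith
  have ex : ∀ ζ ∈ ball (ℓ : ℂ) (ℓ / 8), ∃ u : ℂ, u ∈ closedBall ζ (ℓ / 100) ∧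
      u + Complex.log u = ζ + I * π / 2 := by
    intro ζ hζ
    set Φ : ℂ → ℂ := fun u => ζ + I * π / 2 - Complex.log u with hΦ
    have hmaps : MapsTo Φ (closedBall ζ (ℓ / 100)) (closedBall ζ (ℓ / 100)) := by
      intro u hu
      obtain ⟨h1, h2⟩ := hcb ζ hζ u hu
      have h3 : 1 ≤ ‖u‖ := by
        have := (le_abs_self _).trans (Complex.abs_re_le_norm u)
        linarith
      have h4 := Vf_norm_log u h3
      have h5 : Real.log ‖u‖ ≤ Real.log (2 * ℓ) := Real.log_le_log (by linarith) h2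
      have h6 : Real.log (2 * ℓ) = Real.log 2 + Real.log ℓ :=
        Real.log_mul (by norm_num) (by linarith)
      have h7 : Real.log 2 ≤ 1 := by
        have := Real.log_two_lt_d9
        linarith
      rw [mem_closedBall, dist_eq_norm]
      have h8 : Φ u - ζ = I * π / 2 - Complex.log u := by
        simp only [hΦ]; ring
      rw [h8]
      have h9 := norm_sub_le ((I : ℂ) * π / 2) (Complex.log u)
      rw [hI] at h9
      linarith
    have hcontr : ContractingWith (1 / 2) (hmaps.restrict Φ _ _) := by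
      refine ⟨by
        rw [← NNReal.coe_lt_coe]; push_cast; norm_num, LipschitzWith.of_dist_le_mul ?_⟩
      rintro ⟨u, hu⟩ ⟨v, hv⟩
      rw [Subtype.dist_eq, Subtype.dist_eq]
      simp only [MapsTo.val_restrict_apply, hΦ]
      rw [dist_eq_norm, dist_eq_norm]
      have h1 := Vf_log_lip (hcb ζ hζ v hv).1 (hcb ζ hζ u hu).1
      have h2 : (ζ + I * π / 2 - Complex.log u) - (ζ + I * π / 2 - Complex.log v) =
          Complex.log v - Complex.log u := by ring
      rw [h2, norm_sub_rev u v]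
      push_cast
      exact h1
    have hz : ζ ∈ closedBall ζ (ℓ / 100) := mem_closedBall_self (by linarith)
    obtain ⟨y, hy, hfix, -⟩ := hcontr.exists_fixedPoint' isClosed_closedBall.isComplete hmaps hz
      (edist_ne_top _ _)
    refine ⟨y, hy, ?_⟩
    have h1 : ζ + I * π / 2 - Complex.log y = y := hfix
    linear_combination -h1
  choose! V hV hVe using ex
  have hV2 : ∀ ζ ∈ ball (ℓ : ℂ) (ℓ / 8), 2 ≤ (V ζ).re := fun ζ hζ => (hcb ζ hζ _ (hV ζ hζ)).1
  refine ⟨V, ?_, hVe, ?_, ?_⟩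
  · intro ζ hζ
    have h1 := hV ζ hζ
    rw [mem_closedBall, dist_eq_norm] at h1
    rw [mem_ball, dist_eq_norm] at hζ
    have h2 : ‖V ζ - ℓ‖ ≤ ‖V ζ - ζ‖ + ‖ζ - ℓ‖ := by
      have := norm_add_le (V ζ - ζ) (ζ - ℓ)
      simpa using this
    linarith
  · intro ζ hζ
    have hnhds : ball (ℓ : ℂ) (ℓ / 8) ∈ 𝓝 ζ := isOpen_ball.mem_nhds hζ
    have hcont : ContinuousAt V ζ := by
      rw [Metric.continuousAt_iff]
      intro ε hε
      obtain ⟨δ, hδ, hδs⟩ := Metric.mem_nhds_iff.1 hnhds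
      refine ⟨min δ (ε / 2), lt_min hδ (by linarith), fun {w} hw => ?_⟩
      have hwb : w ∈ ball (ℓ : ℂ) (ℓ / 8) := hδs (lt_of_lt_of_le hw (min_le_left _ _))
      have h1 := Vf_inj (hV2 w hwb) (hV2 ζ hζ)
      rw [hVe w hwb, hVe ζ hζ] at h1
      have h2 : (w + I * π / 2) - (ζ + I * π / 2) = w - ζ := by ring
      rw [h2] at h1
      have h3 : dist w ζ < ε / 2 := lt_of_lt_of_le hw (min_le_right _ _)
      rw [dist_eq_norm] at h3 ⊢
      linarith
    have hne : V ζ ≠ 0 := by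
      intro h
      have := hV2 ζ hζ
      rw [h] at this
      norm_num at this
    have hne1 : V ζ + 1 ≠ 0 := by
      intro h
      have h1 := hV2 ζ hζ
      have h2 : (V ζ + 1).re = 0 := by rw [h]; simp
      rw [Complex.add_re, Complex.one_re] at h2
      linarith
    have hf : HasDerivAt (fun u : ℂ => u + Complex.log u - I * π / 2) (1 + (V ζ)⁻¹) (V ζ) :=
      ((hasDerivAt_id _).add (Complex.hasDerivAt_log
        (Or.inl (by linarith [hV2 ζ hζ])))).sub_const _
    have hf' : (1 + (V ζ)⁻¹) ≠ 0 := by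
      intro h
      apply hne1
      have : (1 + (V ζ)⁻¹) * V ζ = 0 := by rw [h, zero_mul]
      rw [add_mul, inv_mul_cancel₀ hne, one_mul] at this
      exact this
    have hloc : ∀ᶠ y in 𝓝 ζ, (fun u : ℂ => u + Complex.log u - I * π / 2) (V y) = y := by
      filter_upwards [hnhds] with y hy
      show V y + Complex.log (V y) - I * π / 2 = y
      rw [hVe y hy]
      ring
    have h := HasDerivAt.of_local_left_inverse hcont hf hf' hloc
    have h2 : (1 + (V ζ)⁻¹)⁻¹ = V ζ / (V ζ + 1) := by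
      field_simp
    rw [h2] at h
    exact h
  · intro ζ hζ u hu0 hu
    have hne : u ≠ 0 := by
      intro h
      rw [h] at hu0
      simp at hu0
    have hpos : 0 < ‖u‖ := norm_pos_iff.2 hne
    have h1 : u.re + Real.log ‖u‖ = ζ.re := by
      have := congrArg Complex.re hu
      rw [Complex.add_re, Complex.log_re, Complex.add_re] at this
      simpa using this
    have h2 : u.im + u.arg = ζ.im + π / 2 := by
      have := congrArg Complex.im hu
      rw [Complex.add_im, Complex.log_im, Complex.add_im] at this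
      simpa using this
    have h3 : u.re ≥ 2 := by
      by_contra hlt
      rw [ge_iff_le, not_le] at hlt
      have h4 : |u.im| ≤ ℓ / 8 + 6 := by
        have e1 : u.im = ζ.im + π / 2 - u.arg := by linarith
        have e2 := Complex.abs_arg_le_pi u
        have e3 := him ζ hζ
        rw [e1]
        rw [abs_le] at e2 e3 ⊢
        constructor <;> linarith
      have h5 := Complex.norm_le_abs_re_add_abs_im u
      rw [abs_of_pos hu0] at h5
      have h6 := Real.log_le_sub_one_of_pos hpos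
      have h7 := hre ζ hζ
      linarith
    have h4 := Vf_inj h3 (hV2 ζ hζ)
    rw [hu, hVe ζ hζ, sub_self, norm_zero, mul_zero] at h4
    have h5 : ‖u - V ζ‖ = 0 := le_antisymm h4 (norm_nonneg _)
    exact sub_eq_zero.1 (norm_eq_zero.1 h5)

end Pool.Agent.StL
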