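import Pool.Agent.StL.NNa
import Pool.Agent.StL.NNb
import Pool.Agent.StL.Vf

open Complex Set Filter MeasureTheory Topology Metric
open scoped Real

namespace Pool.Agent.StL

open Pool.Agent.Stj

section Pha

lemma Pha_conj_mem {ℓ r : ℝ} {ζ : ℂ} (h : ζ ∈ ball (ℓ : ℂ) r) :
    (starRingEnd ℂ) ζ ∈ ball (ℓ : ℂ) r := by
  rw [mem_ball, dist_eq_norm] at h ⊢
  have e : (starRingEnd ℂ) ζ - (ℓ : ℂ) = (starRingEnd ℂ) (ζ - ℓ) := by
    rw [map_sub, Complex.conj_ofReal]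
  rw [e, Complex.norm_conj]
  exact h

lemma Pha_re {ℓ : ℝ} {u : ℂ} (h : u ∈ ball (ℓ : ℂ) (ℓ / 7)) : 6 * ℓ / 7 < u.re := by
  rw [mem_ball, dist_eq_norm] at h
  have h1 := Complex.abs_re_le_norm (u - ℓ)
  rw [Complex.sub_re, Complex.ofReal_re] at h1
  have h2 := neg_abs_le (u.re - ℓ)
  linarith

lemma Pha_norm {ℓ : ℝ} {u : ℂ} (h : u ∈ ball (ℓ : ℂ) (ℓ / 7)) : 6 * ℓ / 7 < ‖u‖ :=
  (Pha_re h).trans_le ((le_abs_self _).trans (Complex.abs_re_le_norm u))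

lemma Pha_mem {ℓ : ℝ} {V : ℂ → ℂ} (hV : VOK ℓ V) {ζ : ℂ} (h : ζ ∈ ball (ℓ : ℂ) (ℓ / 8)) :
    V ζ ∈ ball (ℓ : ℂ) (ℓ / 7) := by
  rw [mem_ball, dist_eq_norm]
  exact hV.near ζ h

lemma Pha_NN_re {z : ℂ} (h : ‖z - 1‖ ≤ 1 / 2) : 0 < z.re := by
  have h1 := Complex.abs_re_le_norm (z - 1)
  rw [Complex.sub_re, Complex.one_re] at h1
  have h2 := neg_abs_le (z.re - 1)
  linarith

lemma Pha_log {z : ℂ} (h : ‖z - 1‖ ≤ 1 / 2) : ‖Complex.log z‖ ≤ 3 / 4 := by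
  have h1 := Complex.norm_log_one_add_half_le_self h
  rw [add_sub_cancel] at h1
  linarith

/-- `EE` is differentiable on the ball. -/
lemma Pha_EE {ℓ : ℝ} (hℓ : 0 < ℓ) {V : ℂ → ℂ} (hV : VOK ℓ V)
    (hN : ∀ u : ℂ, ‖u - ℓ‖ ≤ ℓ / 7 → ‖NN ℓ u - 1‖ ≤ 1 / 2)
    (hD : DifferentiableOn ℂ (NN ℓ) (ball (ℓ : ℂ) (ℓ / 7))) {ζ : ℂ}
    (h : ζ ∈ ball (ℓ : ℂ) (ℓ / 8)) : DifferentiableAt ℂ (EE ℓ V) ζ := by
  have hm := Pha_mem hV h
  have hre : 0 < (V ζ).re := lt_trans (by positivity) (Pha_re hm)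
  have hVd : DifferentiableAt ℂ V ζ := (hV.der ζ h).differentiableAt
  have h0 : V ζ ≠ 0 := by
    intro h0
    rw [h0, Complex.zero_re] at hre
    exact lt_irrefl _ hre
  have h1 : DifferentiableAt ℂ (fun ζ => Complex.log (V ζ)) ζ :=
    hVd.clog (Or.inl hre)
  have h2 : DifferentiableAt ℂ (fun ζ => 1 / V ζ) ζ :=
    (differentiableAt_const _).div hVd h0
  have h3 : DifferentiableAt ℂ (NN ℓ) (V ζ) := hD.differentiableAt (isOpen_ball.mem_nhds hm)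
  have h4 : DifferentiableAt ℂ (fun ζ => NN ℓ (V ζ)) ζ := h3.comp ζ hVd
  have h5 : DifferentiableAt ℂ (fun ζ => Complex.log (NN ℓ (V ζ))) ζ :=
    h4.clog (Or.inl (Pha_NN_re (hN _ (hV.near ζ h).le)))
  have h6 : DifferentiableAt ℂ (fun ζ : ℂ => 2 * π * Complex.exp ζ) ζ :=
    (Complex.differentiableAt_exp).const_mul _
  exact (h6.mul (h1.sub h2)).add h5

lemma Pha_lip {ℓ : ℝ} (hℓ : 0 < ℓ) {v w : ℂ} (hv : v ∈ ball (ℓ : ℂ) (ℓ / 7))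
    (hw : w ∈ ball (ℓ : ℂ) (ℓ / 7)) :
    ‖Complex.log v - Complex.log w‖ ≤ 7 / (6 * ℓ) * ‖v - w‖ := by
  have hb : ∀ x ∈ ball (ℓ : ℂ) (ℓ / 7), ‖x⁻¹‖ ≤ 7 / (6 * ℓ) := by
    intro x hx
    have := Pha_norm hx
    rw [norm_inv]
    have e : 7 / (6 * ℓ) = (6 * ℓ / 7)⁻¹ := by
      rw [inv_div]
    rw [e]
    exact inv_anti₀ (by positivity) this.le
  refine Convex.norm_image_sub_le_of_norm_hasDerivWithin_le (f := Complex.log)
    (f' := fun x => x⁻¹) ?_ hb (convex_ball _ _) hw hv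
  intro x hx
  exact (Complex.hasDerivAt_log (Or.inl (lt_trans (by positivity) (Pha_re hx)))).hasDerivWithinAt

lemma Pha_inv {ℓ : ℝ} (hℓ : 0 < ℓ) {v w : ℂ} (hv : v ∈ ball (ℓ : ℂ) (ℓ / 7))
    (hw : w ∈ ball (ℓ : ℂ) (ℓ / 7)) :
    ‖1 / v - 1 / w‖ ≤ (7 / (6 * ℓ)) ^ 2 * ‖v - w‖ := by
  have h1 := Pha_norm hv
  have h2 := Pha_norm hw
  have hp : 0 < 6 * ℓ / 7 := by positivity
  have hv0 : v ≠ 0 := norm_pos_iff.1 (hp.trans h1)
  have hw0 : w ≠ 0 := norm_pos_iff.1 (hp.trans h2)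
  have e : 1 / v - 1 / w = (w - v) * (v⁻¹ * w⁻¹) := by
    field_simp
  have e2 : 7 / (6 * ℓ) = (6 * ℓ / 7)⁻¹ := by rw [inv_div]
  rw [e, norm_mul, norm_sub_rev, mul_comm, norm_mul, norm_inv, norm_inv, e2, sq]
  gcongr

/-- the main estimate -/
lemma Pha_main {ℓ : ℝ} (hℓ : 100 ≤ ℓ) {v w ζ : ℂ} (hv : v ∈ ball (ℓ : ℂ) (ℓ / 7))
    (hw : w ∈ ball (ℓ : ℂ) (ℓ / 7)) (ev : v + Complex.log v = ζ + I * π / 2)
    (ew : w + Complex.log w = ζ - I * π / 2) :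
    ‖(Complex.log v - 1 / v) - (Complex.log w - 1 / w)‖ ≤ 4 / ℓ := by
  have hℓ0 : 0 < ℓ := by linarith
  have h1 := Pha_lip hℓ0 hv hw
  have h2 := Pha_inv hℓ0 hv hw
  have e1 : v - w = I * π - (Complex.log v - Complex.log w) := by
    linear_combination ev - ew
  have h3 : ‖v - w‖ ≤ π + 7 / (6 * ℓ) * ‖v - w‖ := by
    calc ‖v - w‖ = ‖I * π - (Complex.log v - Complex.log w)‖ := by rw [← e1]
      _ ≤ ‖I * (π : ℂ)‖ + ‖Complex.log v - Complex.log w‖ := norm_sub_le _ _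
      _ ≤ π + 7 / (6 * ℓ) * ‖v - w‖ := by
        rw [norm_mul, Complex.norm_I, one_mul, Complex.norm_real, Real.norm_of_nonneg Real.pi_pos.le]
        gcongr
  have h4 : 7 / (6 * ℓ) ≤ 7 / 600 := by
    rw [div_le_div_iff₀ (by positivity) (by norm_num)]
    linarith
  have hn : 0 ≤ ‖v - w‖ := norm_nonneg _
  have h5 : ‖v - w‖ ≤ 33 / 10 := by
    have := mul_le_mul_of_nonneg_right h4 hn
    have hpi := Real.pi_lt_d2
    nlinarith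
  have hq : 0 ≤ 7 / (6 * ℓ) := by positivity
  calc ‖(Complex.log v - 1 / v) - (Complex.log w - 1 / w)‖
      = ‖(Complex.log v - Complex.log w) - (1 / v - 1 / w)‖ := by ring_nf
    _ ≤ ‖Complex.log v - Complex.log w‖ + ‖1 / v - 1 / w‖ := norm_sub_le _ _
    _ ≤ 7 / (6 * ℓ) * ‖v - w‖ + (7 / (6 * ℓ)) ^ 2 * ‖v - w‖ := add_le_add h1 h2
    _ = 7 / (6 * ℓ) * ((1 + 7 / (6 * ℓ)) * ‖v - w‖) := by ring
    _ ≤ 7 / (6 * ℓ) * ((1 + 7 / 600) * (33 / 10)) := by gcongr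
    _ ≤ 4 / ℓ := by
      rw [div_mul_eq_mul_div, div_le_div_iff₀ (by positivity) (by positivity)]
      nlinarith

lemma Pha_conj_log {z : ℂ} (h : 0 < z.re) :
    Complex.log ((starRingEnd ℂ) z) = (starRingEnd ℂ) (Complex.log z) := by
  apply Complex.log_conj
  intro hh
  rw [Complex.arg_eq_pi_iff] at hh
  linarith [hh.1]

theorem ff_diff : ∃ ℓ0 : ℝ, ∀ ℓ : ℝ, ℓ0 ≤ ℓ → ∀ V : ℂ → ℂ, VOK ℓ V →
    DifferentiableOn ℂ (ff ℓ V) (ball (ℓ : ℂ) (ℓ / 8)) := by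
  obtain ⟨a, ha⟩ := NN_near
  obtain ⟨b, hb⟩ := NN_diff
  refine ⟨max 100 (max a b), fun ℓ hℓ V hV => ?_⟩
  have hℓ0 : 0 < ℓ := lt_of_lt_of_le (by norm_num) ((le_max_left _ _).trans hℓ)
  have hla : a ≤ ℓ := ((le_max_left _ _).trans (le_max_right _ _)).trans hℓ
  have hlb : b ≤ ℓ := ((le_max_right _ _).trans (le_max_right _ _)).trans hℓ
  intro ζ hζ
  have h1 := Pha_EE hℓ0 hV (ha ℓ hla) (hb ℓ hlb) hζ
  have h2 := (Pha_EE hℓ0 hV (ha ℓ hla) (hb ℓ hlb) (Pha_conj_mem hζ)).conj_conj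
  rw [Complex.conj_conj] at h2
  exact (((h1.sub h2).div_const _).sub_const _).differentiableWithinAt

theorem ff_bound : ∃ ℓ0 : ℝ, ∀ ℓ : ℝ, ℓ0 ≤ ℓ → ∀ V : ℂ → ℂ, VOK ℓ V →
    ∀ ζ ∈ ball (ℓ : ℂ) (ℓ / 8), ‖ff ℓ V ζ‖ ≤ Real.exp ζ.re / 2 := by
  obtain ⟨a, ha⟩ := NN_near
  refine ⟨max 100 a, fun ℓ hℓ V hV ζ hζ => ?_⟩
  have hℓ1 : 100 ≤ ℓ := (le_max_left _ _).trans hℓ
  have hℓ0 : 0 < ℓ := by linarith
  have hN := ha ℓ ((le_max_right _ _).trans hℓ)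
  have hζ' := Pha_conj_mem hζ
  set ξ : ℂ := (starRingEnd ℂ) ζ with hξ
  have hv := Pha_mem hV hζ
  have hv2 := Pha_mem hV hζ'
  have hre2 : 0 < (V ξ).re := lt_trans (by positivity) (Pha_re hv2)
  have hw : (starRingEnd ℂ) (V ξ) ∈ ball (ℓ : ℂ) (ℓ / 7) := Pha_conj_mem hv2
  have ev := hV.eq ζ hζ
  have ew : (starRingEnd ℂ) (V ξ) + Complex.log ((starRingEnd ℂ) (V ξ)) = ζ - I * π / 2 := by
    have := congrArg (starRingEnd ℂ) (hV.eq ξ hζ')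
    rw [map_add, ← Pha_conj_log hre2] at this
    rw [this, hξ]
    simp only [map_add, map_div₀, map_mul, Complex.conj_I, Complex.conj_ofReal, Complex.conj_conj,
      Complex.conj_ofNat]
    ring
  have hmain := Pha_main hℓ1 hv hw ev ew
  set D : ℂ := (Complex.log (V ζ) - 1 / V ζ) -
    (Complex.log ((starRingEnd ℂ) (V ξ)) - 1 / (starRingEnd ℂ) (V ξ)) with hD
  have hl1 := Pha_log (hN _ (hV.near ζ hζ).le)
  have hl2 := Pha_log (hN _ (hV.near ξ hζ').le)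
  set N1 := Complex.log (NN ℓ (V ζ)) with hN1
  set N2 := Complex.log (NN ℓ (V ξ)) with hN2
  have hpi : (π : ℂ) ≠ 0 := by exact_mod_cast Real.pi_ne_zero
  have hff : ff ℓ V ζ = Complex.exp ζ * D / I + (N1 - (starRingEnd ℂ) N2) / (2 * π * I) - 1 / 2 := by
    have e2 : (starRingEnd ℂ) (EE ℓ V ξ) = 2 * π * Complex.exp ζ *
        (Complex.log ((starRingEnd ℂ) (V ξ)) - 1 / (starRingEnd ℂ) (V ξ)) + (starRingEnd ℂ) N2 := by
      rw [EE, map_add, map_mul, map_sub, Pha_conj_log hre2, hN2]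
      simp only [map_div₀, map_mul, map_one, Complex.conj_ofReal, Complex.conj_ofNat]
      rw [← Complex.exp_conj, hξ, Complex.conj_conj]
    rw [ff, ← hξ, e2, EE, hD]
    field_simp
    ring
  have hI : ‖(I : ℂ)‖ = 1 := Complex.norm_I
  have hb1 : ‖Complex.exp ζ * D / I‖ ≤ Real.exp ζ.re * (4 / ℓ) := by
    rw [norm_div, hI, div_one, norm_mul, Complex.norm_exp]
    gcongr
  have hb2 : ‖(N1 - (starRingEnd ℂ) N2) / (2 * π * I)‖ ≤ 1 / 2 := by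
    rw [norm_div]
    have h3 : ‖(2 * π * I : ℂ)‖ = 2 * π := by
      rw [norm_mul, hI, mul_one, norm_mul, Complex.norm_real,
        Real.norm_of_nonneg Real.pi_pos.le]
      norm_num
    rw [h3, div_le_iff₀ (by positivity)]
    have h4 : ‖N1 - (starRingEnd ℂ) N2‖ ≤ 3 / 4 + 3 / 4 := by
      refine (norm_sub_le _ _).trans ?_
      rw [Complex.norm_conj]
      exact add_le_add hl1 hl2
    have := Real.pi_gt_three
    linarith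
  have hre : 7 * ℓ / 8 ≤ ζ.re := by
    rw [mem_ball, dist_eq_norm] at hζ
    have h1 := Complex.abs_re_le_norm (ζ - ℓ)
    rw [Complex.sub_re, Complex.ofReal_re] at h1
    have h2 := neg_abs_le (ζ.re - ℓ)
    linarith
  have hE : 80 ≤ Real.exp ζ.re := by
    have := Real.add_one_le_exp ζ.re
    linarith
  have h4 : 4 / ℓ ≤ 4 / 100 := by gcongr
  calc ‖ff ℓ V ζ‖ = ‖Complex.exp ζ * D / I + (N1 - (starRingEnd ℂ) N2) / (2 * π * I) - 1 / 2‖ := by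
        rw [hff]
    _ ≤ ‖Complex.exp ζ * D / I + (N1 - (starRingEnd ℂ) N2) / (2 * π * I)‖ + ‖(1 / 2 : ℂ)‖ :=
        norm_sub_le _ _
    _ ≤ ‖Complex.exp ζ * D / I‖ + ‖(N1 - (starRingEnd ℂ) N2) / (2 * π * I)‖ + ‖(1 / 2 : ℂ)‖ := by
        gcongr
        exact norm_add_le _ _
    _ ≤ Real.exp ζ.re * (4 / ℓ) + 1 / 2 + 1 / 2 := by
        gcongr
        norm_num
    _ ≤ Real.exp ζ.re / 2 := by
        have := mul_le_mul_of_nonneg_left h4 (Real.exp_pos ζ.re).le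
        linarith

end Pha

end Pool.Agent.StL
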