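import Pool.Agent.StL.NNa
import Pool.Agent.StL.NNb
import Pool.Agent.StL.Vf

open Complex Set Filter MeasureTheory Topology Metric
open scoped Real

namespace Pool.Agent.StL

open Pool.Agent.Stj

section Phb

private lemma Phb_conj_mem {ℓ r : ℝ} {ζ : ℂ} (h : ζ ∈ ball (ℓ : ℂ) r) :
    (starRingEnd ℂ) ζ ∈ ball (ℓ : ℂ) r := by
  rw [mem_ball, dist_eq_norm] at h ⊢
  have e : (starRingEnd ℂ) ζ - (ℓ : ℂ) = (starRingEnd ℂ) (ζ - ℓ) := by
    rw [map_sub, Complex.conj_ofReal]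
  rw [e, Complex.norm_conj]
  exact h

private lemma Phb_re {ℓ : ℝ} {u : ℂ} (h : u ∈ ball (ℓ : ℂ) (ℓ / 7)) : 6 * ℓ / 7 < u.re := by
  rw [mem_ball, dist_eq_norm] at h
  have h1 := Complex.abs_re_le_norm (u - ℓ)
  rw [Complex.sub_re, Complex.ofReal_re] at h1
  have h2 := neg_abs_le (u.re - ℓ)
  linarith

private lemma Phb_norm {ℓ : ℝ} {u : ℂ} (h : u ∈ ball (ℓ : ℂ) (ℓ / 7)) : 6 * ℓ / 7 < ‖u‖ :=
  (Phb_re h).trans_le ((le_abs_self _).trans (Complex.abs_re_le_norm u))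

private lemma Phb_mem {ℓ : ℝ} {V : ℂ → ℂ} (hV : VOK ℓ V) {ζ : ℂ} (h : ζ ∈ ball (ℓ : ℂ) (ℓ / 8)) :
    V ζ ∈ ball (ℓ : ℂ) (ℓ / 7) := by
  rw [mem_ball, dist_eq_norm]
  exact hV.near ζ h

private lemma Phb_log {z : ℂ} (h : ‖z - 1‖ ≤ 1 / 2) : ‖Complex.log z‖ ≤ 3 / 4 := by
  have h1 := Complex.norm_log_one_add_half_le_self h
  rw [add_sub_cancel] at h1
  linarith

private lemma Phb_lip {ℓ : ℝ} (hℓ : 0 < ℓ) {v w : ℂ} (hv : v ∈ ball (ℓ : ℂ) (ℓ / 7))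
    (hw : w ∈ ball (ℓ : ℂ) (ℓ / 7)) :
    ‖Complex.log v - Complex.log w‖ ≤ 7 / (6 * ℓ) * ‖v - w‖ := by
  have hb : ∀ x ∈ ball (ℓ : ℂ) (ℓ / 7), ‖x⁻¹‖ ≤ 7 / (6 * ℓ) := by
    intro x hx
    have := Phb_norm hx
    rw [norm_inv]
    have e : 7 / (6 * ℓ) = (6 * ℓ / 7)⁻¹ := by
      rw [inv_div]
    rw [e]
    exact inv_anti₀ (by positivity) this.le
  refine Convex.norm_image_sub_le_of_norm_hasDerivWithin_le (f := Complex.log)
    (f' := fun x => x⁻¹) ?_ hb (convex_ball _ _) hw hv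
  intro x hx
  exact (Complex.hasDerivAt_log (Or.inl (lt_trans (by positivity) (Phb_re hx)))).hasDerivWithinAt

private lemma Phb_conj_log {z : ℂ} (h : 0 < z.re) :
    Complex.log ((starRingEnd ℂ) z) = (starRingEnd ℂ) (Complex.log z) := by
  apply Complex.log_conj
  intro hh
  rw [Complex.arg_eq_pi_iff] at hh
  linarith [hh.1]

/-- the difference of the two branches, without the factor `2 π e^ζ` -/
private noncomputable def Phb_D (V : ℂ → ℂ) (ζ : ℂ) : ℂ :=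
  (Complex.log (V ζ) - 1 / V ζ) -
    (starRingEnd ℂ) (Complex.log (V ((starRingEnd ℂ) ζ)) - 1 / V ((starRingEnd ℂ) ζ))

private lemma Phb_lam {ℓ : ℝ} (hℓ : 0 < ℓ) {V : ℂ → ℂ} (hV : VOK ℓ V) {ζ : ℂ}
    (h : ζ ∈ ball (ℓ : ℂ) (ℓ / 8)) :
    HasDerivAt (fun ζ => Complex.log (V ζ) - 1 / V ζ) (1 / V ζ) ζ := by
  have hm := Phb_mem hV h
  have hre : 0 < (V ζ).re := lt_trans (by positivity) (Phb_re hm)
  have h0 : V ζ ≠ 0 := by
    intro h0
    rw [h0, Complex.zero_re] at hre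
    exact lt_irrefl _ hre
  have h01 : V ζ + 1 ≠ 0 := by
    intro h1
    have := congrArg Complex.re h1
    rw [Complex.add_re, Complex.one_re, Complex.zero_re] at this
    linarith
  have h1 := (hV.der ζ h).clog (Or.inl hre)
  have h2 := (hV.der ζ h).inv h0
  have h3 := h1.sub h2
  have e : (1 / V ζ) = V ζ / (V ζ + 1) / V ζ - -(V ζ / (V ζ + 1)) / V ζ ^ 2 := by
    field_simp
    ring
  rw [e]
  refine h3.congr_of_eventuallyEq (Eventually.of_forall fun x => ?_)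
  simp [one_div]

private lemma Phb_D_deriv {ℓ : ℝ} (hℓ : 0 < ℓ) {V : ℂ → ℂ} (hV : VOK ℓ V) {ζ : ℂ}
    (h : ζ ∈ ball (ℓ : ℂ) (ℓ / 8)) :
    HasDerivAt (Phb_D V) (1 / V ζ - 1 / (starRingEnd ℂ) (V ((starRingEnd ℂ) ζ))) ζ := by
  have h1 := Phb_lam hℓ hV h
  have h2 := (Phb_lam hℓ hV (Phb_conj_mem h)).conj_conj
  rw [Complex.conj_conj] at h2
  have h3 := h1.sub h2
  have e : (1 / V ζ - 1 / (starRingEnd ℂ) (V ((starRingEnd ℂ) ζ))) =
      1 / V ζ - (starRingEnd ℂ) (1 / V ((starRingEnd ℂ) ζ)) := by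
    rw [map_div₀, map_one]
  rw [e]
  exact h3

/-- `D' = (v' - v) / (v v')` is close to `-i π / ℓ ^ 2`. -/
private lemma Phb_close {ℓ : ℝ} (hℓ : 100 ≤ ℓ) {v w ζ : ℂ} (hv : v ∈ ball (ℓ : ℂ) (ℓ / 7))
    (hw : w ∈ ball (ℓ : ℂ) (ℓ / 7)) (ev : v + Complex.log v = ζ + I * π / 2)
    (ew : w + Complex.log w = ζ - I * π / 2) :
    ‖(1 / v - 1 / w) - (-(I * π)) / ℓ ^ 2‖ ≤ π / (2 * ℓ ^ 2) := by
  have hℓ0 : 0 < ℓ := by linarith
  have h1 := Phb_lip hℓ0 hv hw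
  have e1 : v - w = I * π - (Complex.log v - Complex.log w) := by
    linear_combination ev - ew
  have hpi := Real.pi_lt_d2
  have hpi3 := Real.pi_gt_three
  have h3 : ‖v - w‖ ≤ π + 7 / (6 * ℓ) * ‖v - w‖ := by
    calc ‖v - w‖ = ‖I * π - (Complex.log v - Complex.log w)‖ := by rw [← e1]
      _ ≤ ‖I * (π : ℂ)‖ + ‖Complex.log v - Complex.log w‖ := norm_sub_le _ _
      _ ≤ π + 7 / (6 * ℓ) * ‖v - w‖ := by
        rw [norm_mul, Complex.norm_I, one_mul, Complex.norm_real, Real.norm_of_nonneg Real.pi_pos.le]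
        gcongr
  have h4 : 7 / (6 * ℓ) ≤ 7 / 600 := by
    rw [div_le_div_iff₀ (by positivity) (by norm_num)]
    linarith
  have hn : 0 ≤ ‖v - w‖ := norm_nonneg _
  have h5 : ‖v - w‖ ≤ 33 / 10 := by
    have := mul_le_mul_of_nonneg_right h4 hn
    nlinarith
  have h6 : ‖Complex.log v - Complex.log w‖ ≤ 1 / 20 := by
    have hq : 0 ≤ 7 / (6 * ℓ) := by positivity
    calc ‖Complex.log v - Complex.log w‖ ≤ 7 / (6 * ℓ) * ‖v - w‖ := h1
      _ ≤ 7 / 600 * (33 / 10) := by gcongr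
      _ ≤ 1 / 20 := by norm_num
  have hnv := Phb_norm hv
  have hnw := Phb_norm hw
  have hv0 : v ≠ 0 := norm_pos_iff.1 (lt_trans (by positivity) hnv)
  have hw0 : w ≠ 0 := norm_pos_iff.1 (lt_trans (by positivity) hnw)
  have hℓc : (ℓ : ℂ) ≠ 0 := by exact_mod_cast hℓ0.ne'
  have hva : ‖v - ℓ‖ ≤ ℓ / 7 := by
    rw [mem_ball, dist_eq_norm] at hv
    exact hv.le
  have hwa : ‖w - ℓ‖ ≤ ℓ / 7 := by
    rw [mem_ball, dist_eq_norm] at hw
    exact hw.le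
  have hprod : ℓ ^ 2 * (36 / 49) ≤ ‖v * w‖ := by
    rw [norm_mul]
    calc ℓ ^ 2 * (36 / 49) = (6 * ℓ / 7) * (6 * ℓ / 7) := by ring
      _ ≤ ‖v‖ * ‖w‖ := by gcongr
  have hprod0 : 0 < ‖v * w‖ := lt_of_lt_of_le (by positivity) hprod
  have key : (1 / v - 1 / w) - (-(I * π)) / ℓ ^ 2 =
      ((Complex.log v - Complex.log w) +
        (I * π) * (((v - ℓ) * (w - ℓ) + ℓ * (v - ℓ) + ℓ * (w - ℓ)) / ℓ ^ 2)) / (v * w) := by
    have e2 : (1 / v - 1 / w) = -(v - w) / (v * w) := by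
      field_simp
      ring
    rw [e2, e1]
    field_simp
    ring
  have hnum : ‖(Complex.log v - Complex.log w) +
        (I * π) * (((v - ℓ) * (w - ℓ) + ℓ * (v - ℓ) + ℓ * (w - ℓ)) / ℓ ^ 2)‖ ≤
        1 / 20 + π * (15 / 49) := by
    refine (norm_add_le _ _).trans (add_le_add h6 ?_)
    rw [norm_mul, norm_mul, Complex.norm_I, one_mul, Complex.norm_real,
      Real.norm_of_nonneg Real.pi_pos.le]
    refine mul_le_mul_of_nonneg_left ?_ Real.pi_pos.le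
    rw [norm_div, norm_pow, Complex.norm_real, Real.norm_of_nonneg hℓ0.le, div_le_iff₀ (by positivity)]
    calc ‖(v - ℓ) * (w - ℓ) + ℓ * (v - ℓ) + ℓ * (w - ℓ)‖
        ≤ ‖(v - ℓ) * (w - ℓ)‖ + ‖(ℓ : ℂ) * (v - ℓ)‖ + ‖(ℓ : ℂ) * (w - ℓ)‖ := norm_add₃_le
      _ ≤ (ℓ / 7) * (ℓ / 7) + ℓ * (ℓ / 7) + ℓ * (ℓ / 7) := by
        rw [norm_mul, norm_mul, norm_mul, Complex.norm_real, Real.norm_of_nonneg hℓ0.le]
        gcongr
      _ = 15 / 49 * ℓ ^ 2 := by ring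
  rw [key, norm_div, div_le_iff₀ hprod0]
  calc _ ≤ 1 / 20 + π * (15 / 49) := hnum
    _ ≤ π / (2 * ℓ ^ 2) * (ℓ ^ 2 * (36 / 49)) := by
      have e3 : π / (2 * ℓ ^ 2) * (ℓ ^ 2 * (36 / 49)) = π * (18 / 49) := by
        field_simp
        ring
      rw [e3]
      linarith
    _ ≤ π / (2 * ℓ ^ 2) * ‖v * w‖ := by
      gcongr

private lemma Phb_D_sep {ℓ : ℝ} (hℓ : 100 ≤ ℓ) {V : ℂ → ℂ} (hV : VOK ℓ V) {z w : ℂ}
    (hz : z ∈ ball (ℓ : ℂ) (ℓ / 8)) (hw : w ∈ ball (ℓ : ℂ) (ℓ / 8)) :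
    π / (2 * ℓ ^ 2) * ‖w - z‖ ≤ ‖Phb_D V w - Phb_D V z‖ := by
  have hℓ0 : 0 < ℓ := by linarith
  set c : ℂ := (-(I * π)) / ℓ ^ 2 with hc
  have hcn : ‖c‖ = π / ℓ ^ 2 := by
    rw [hc, norm_div, norm_neg, norm_mul, Complex.norm_I, one_mul, Complex.norm_real,
      Real.norm_of_nonneg Real.pi_pos.le, norm_pow, Complex.norm_real, Real.norm_of_nonneg hℓ0.le]
  have hmv : ‖(Phb_D V w - c * w) - (Phb_D V z - c * z)‖ ≤ π / (2 * ℓ ^ 2) * ‖w - z‖ := by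
    refine Convex.norm_image_sub_le_of_norm_hasDerivWithin_le (f := fun ζ => Phb_D V ζ - c * ζ)
      (f' := fun ζ => (1 / V ζ - 1 / (starRingEnd ℂ) (V ((starRingEnd ℂ) ζ))) - c)
      ?_ ?_ (convex_ball _ _) hz hw
    · intro x hx
      have h1 := Phb_D_deriv hℓ0 hV hx
      have h2 : HasDerivAt (fun ζ : ℂ => c * ζ) c x := by
        simpa using (hasDerivAt_id x).const_mul c
      exact (h1.sub h2).hasDerivWithinAt
    · intro x hx
      have hx' := Phb_conj_mem hx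
      have hv := Phb_mem hV hx
      have hv2 := Phb_mem hV hx'
      have hre2 : 0 < (V ((starRingEnd ℂ) x)).re := lt_trans (by positivity) (Phb_re hv2)
      have hw' : (starRingEnd ℂ) (V ((starRingEnd ℂ) x)) ∈ ball (ℓ : ℂ) (ℓ / 7) :=
        Phb_conj_mem hv2
      have ev := hV.eq x hx
      have ew : (starRingEnd ℂ) (V ((starRingEnd ℂ) x)) +
          Complex.log ((starRingEnd ℂ) (V ((starRingEnd ℂ) x))) = x - I * π / 2 := by
        have := congrArg (starRingEnd ℂ) (hV.eq _ hx')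
        rw [map_add, ← Phb_conj_log hre2] at this
        rw [this]
        simp only [map_add, map_div₀, map_mul, Complex.conj_I, Complex.conj_ofReal,
          Complex.conj_conj, Complex.conj_ofNat]
        ring
      exact Phb_close hℓ hv hw' ev ew
  have e : (Phb_D V w - c * w) - (Phb_D V z - c * z) = (Phb_D V w - Phb_D V z) - c * (w - z) := by
    ring
  rw [e] at hmv
  have h1 : ‖c * (w - z)‖ ≤ ‖Phb_D V w - Phb_D V z‖ +
      ‖(Phb_D V w - Phb_D V z) - c * (w - z)‖ := by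
    have := norm_sub_le (Phb_D V w - Phb_D V z) ((Phb_D V w - Phb_D V z) - c * (w - z))
    rwa [sub_sub_cancel] at this
  rw [norm_mul, hcn] at h1
  have e2 : π / ℓ ^ 2 * ‖w - z‖ = 2 * (π / (2 * ℓ ^ 2) * ‖w - z‖) := by
    field_simp
  linarith

private lemma Phb_ff {ℓ : ℝ} {V : ℂ → ℂ} (ζ : ℂ) :
    ff ℓ V ζ = Complex.exp ζ * Phb_D V ζ / I + (Complex.log (NN ℓ (V ζ)) -
      (starRingEnd ℂ) (Complex.log (NN ℓ (V ((starRingEnd ℂ) ζ))))) / (2 * π * I) - 1 / 2 := by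
  have hpi : (π : ℂ) ≠ 0 := by exact_mod_cast Real.pi_ne_zero
  have e2 : (starRingEnd ℂ) (EE ℓ V ((starRingEnd ℂ) ζ)) = 2 * π * Complex.exp ζ *
      ((starRingEnd ℂ) (Complex.log (V ((starRingEnd ℂ) ζ)) - 1 / V ((starRingEnd ℂ) ζ))) +
        (starRingEnd ℂ) (Complex.log (NN ℓ (V ((starRingEnd ℂ) ζ)))) := by
    rw [EE, map_add, map_mul, map_mul, map_mul, Complex.conj_ofNat, Complex.conj_ofReal,
      ← Complex.exp_conj, Complex.conj_conj]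
  rw [ff, e2, EE, Phb_D]
  field_simp
  ring

theorem ff_sep : ∃ ℓ0 : ℝ, ∀ ℓ : ℝ, ℓ0 ≤ ℓ → ∀ V : ℂ → ℂ, VOK ℓ V →
    ∀ z ∈ ball (ℓ : ℂ) (ℓ / 8), ∀ w ∈ ball (ℓ : ℂ) (ℓ / 8), z.re = ℓ →
    ∀ k : ℤ, k ≠ 0 → w = z + 2 * π * I * k →
      Real.exp ℓ / ℓ ^ 2 ≤ ‖ff ℓ V w - ff ℓ V z‖ := by
  obtain ⟨a, ha⟩ := NN_near
  refine ⟨max 100 a, fun ℓ hℓ V hV z hz w hw hzre k hk hwz => ?_⟩
  have hℓ1 : 100 ≤ ℓ := (le_max_left _ _).trans hℓ
  have hℓ0 : 0 < ℓ := by linarith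
  have hN := ha ℓ ((le_max_right _ _).trans hℓ)
  have hpi3 := Real.pi_gt_three
  have hsep := Phb_D_sep hℓ1 hV hz hw
  have hk1 : (1 : ℝ) ≤ ‖(k : ℂ)‖ := by
    rw [Complex.norm_intCast]
    exact_mod_cast Int.one_le_abs hk
  have hdist : 2 * π ≤ ‖w - z‖ := by
    rw [hwz, add_sub_cancel_left, norm_mul, norm_mul, norm_mul, Complex.norm_I, Complex.norm_real,
      Real.norm_of_nonneg Real.pi_pos.le, mul_one]
    have : ‖(2 : ℂ)‖ = 2 := by norm_num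
    rw [this]
    nlinarith
  have hexp : Complex.exp w = Complex.exp z := by
    rw [hwz]
    have : z + 2 * π * I * k = z + k * (2 * π * I) := by ring
    rw [this]
    exact Complex.exp_periodic.int_mul k z
  have hnz : ‖Complex.exp z‖ = Real.exp ℓ := by rw [Complex.norm_exp, hzre]
  have l1 := Phb_log (hN _ (hV.near w hw).le)
  have l2 := Phb_log (hN _ (hV.near _ (Phb_conj_mem hw)).le)
  have l3 := Phb_log (hN _ (hV.near z hz).le)
  have l4 := Phb_log (hN _ (hV.near _ (Phb_conj_mem hz)).le)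
  set N1 := Complex.log (NN ℓ (V w)) with hN1
  set N2 := Complex.log (NN ℓ (V ((starRingEnd ℂ) w))) with hN2
  set N3 := Complex.log (NN ℓ (V z)) with hN3
  set N4 := Complex.log (NN ℓ (V ((starRingEnd ℂ) z))) with hN4
  have e : ff ℓ V w - ff ℓ V z = Complex.exp z * (Phb_D V w - Phb_D V z) / I +
      ((N1 - (starRingEnd ℂ) N2) - (N3 - (starRingEnd ℂ) N4)) / (2 * π * I) := by
    rw [Phb_ff, Phb_ff, hexp]
    ring
  have hb1 : Real.exp ℓ * (9 / ℓ ^ 2) ≤ ‖Complex.exp z * (Phb_D V w - Phb_D V z) / I‖ := by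
    rw [norm_div, Complex.norm_I, div_one, norm_mul, hnz]
    refine mul_le_mul_of_nonneg_left ?_ (Real.exp_pos _).le
    calc 9 / ℓ ^ 2 ≤ π / (2 * ℓ ^ 2) * (2 * π) := by
          have : π / (2 * ℓ ^ 2) * (2 * π) = π ^ 2 / ℓ ^ 2 := by
            field_simp
          rw [this]
          gcongr
          nlinarith
      _ ≤ π / (2 * ℓ ^ 2) * ‖w - z‖ := by gcongr
      _ ≤ _ := hsep
  have hb2 : ‖((N1 - (starRingEnd ℂ) N2) - (N3 - (starRingEnd ℂ) N4)) / (2 * π * I)‖ ≤ 1 / 2 := by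
    rw [norm_div]
    have h3 : ‖(2 * π * I : ℂ)‖ = 2 * π := by
      rw [norm_mul, Complex.norm_I, mul_one, norm_mul, Complex.norm_real,
        Real.norm_of_nonneg Real.pi_pos.le]
      norm_num
    rw [h3, div_le_iff₀ (by positivity)]
    have h4 : ‖(N1 - (starRingEnd ℂ) N2) - (N3 - (starRingEnd ℂ) N4)‖ ≤
        (3 / 4 + 3 / 4) + (3 / 4 + 3 / 4) := by
      refine (norm_sub_le _ _).trans (add_le_add ?_ ?_)
      · refine (norm_sub_le _ _).trans ?_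
        rw [Complex.norm_conj]
        exact add_le_add l1 l2
      · refine (norm_sub_le _ _).trans ?_
        rw [Complex.norm_conj]
        exact add_le_add l3 l4
    linarith
  have hq : ℓ ^ 2 / 2 ≤ Real.exp ℓ := by
    have := Real.quadratic_le_exp_of_nonneg hℓ0.le
    linarith
  have hb3 : 1 / 2 ≤ Real.exp ℓ * (8 / ℓ ^ 2) := by
    rw [mul_div_assoc', le_div_iff₀ (by positivity)]
    linarith [sq_nonneg ℓ]
  have h9 : ‖Complex.exp z * (Phb_D V w - Phb_D V z) / I‖ ≤ ‖ff ℓ V w - ff ℓ V z‖ +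
      ‖((N1 - (starRingEnd ℂ) N2) - (N3 - (starRingEnd ℂ) N4)) / (2 * π * I)‖ := by
    rw [e]
    have := norm_sub_le (Complex.exp z * (Phb_D V w - Phb_D V z) / I +
      ((N1 - (starRingEnd ℂ) N2) - (N3 - (starRingEnd ℂ) N4)) / (2 * π * I))
      (((N1 - (starRingEnd ℂ) N2) - (N3 - (starRingEnd ℂ) N4)) / (2 * π * I))
    rwa [add_sub_cancel_right] at this
  have e9 : Real.exp ℓ * (9 / ℓ ^ 2) = Real.exp ℓ / ℓ ^ 2 + Real.exp ℓ * (8 / ℓ ^ 2) := by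
    ring
  linarith

end Phb

end Pool.Agent.StL
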