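import Pool.Agent.StL.Defs

open Complex Set Filter MeasureTheory Topology Metric
open scoped Real

namespace Pool.Agent.StL

open Pool.Agent.Stj

private lemma JBase_log {x : ℝ} (hx : 0 < x) : Real.log x ≤ x / 100 + 4 := by
  have h1 : Real.log x = Real.log (x / 100) + Real.log 100 := by
    rw [← Real.log_mul (by positivity) (by norm_num)]
    congr 1
    field_simp
  have h2 := Real.log_le_sub_one_of_pos (x := x / 100) (by positivity)
  have h3 : Real.log 100 ≤ 5 := by
    have h4 : (100 : ℝ) ≤ Real.exp 5 := by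
      have h5 := Real.exp_one_gt_d9
      have h6 : Real.exp 5 = Real.exp 1 ^ 5 := by
        rw [← Real.exp_nat_mul]
        norm_num
      rw [h6]
      calc (100 : ℝ) ≤ 2.7 ^ 5 := by norm_num
        _ ≤ Real.exp 1 ^ 5 := by
          apply pow_le_pow_left₀ (by norm_num)
          linarith
    have h7 := Real.log_le_log (by norm_num) h4
    rwa [Real.log_exp] at h7
  rw [h1]
  linarith

private lemma JBase_e {u : ℂ} (S : CSad u) {n : ℕ} (hs : S.s = n) (hn0 : (0 : ℝ) < n) :
    S.e = u / ‖u‖ := by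
  have h1 : (S.L : ℂ) * (u / S.e) = n := hs
  have hE := S.e_ne
  have hL := S.L_pos
  have hLn := S.L_ne
  have h2 : u = ((n / S.L : ℝ) : ℂ) * S.e := by
    push_cast
    rw [← h1]
    field_simp
  have h3 : ‖u‖ = n / S.L := by
    conv_lhs => rw [h2]
    rw [norm_mul, S.he, mul_one, Complex.norm_real, Real.norm_of_nonneg (by positivity)]
  rw [eq_div_iff (by rw [Complex.ofReal_ne_zero]; exact S.U_pos.ne'), h3, mul_comm]
  exact h2.symm

private lemma JBase_near {u : ℂ} (S : CSad u) {n : ℕ} (hs : S.s = n) :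
    (n : ℝ) = 2 * π * ‖u‖ * Real.exp u.re := by
  have h1 := congrArg norm (S.s_eq.symm.trans hs)
  rw [Complex.norm_natCast, norm_mul, norm_mul, norm_neg, norm_mul, norm_mul, Complex.norm_I,
    Complex.norm_exp, Complex.norm_real, Real.norm_of_nonneg Real.pi_pos.le] at h1
  rw [← h1]
  simp

/-- the real saddle points -/
theorem J_base : ∃ ℓ0 : ℝ, ∀ ℓ : ℝ, ℓ0 ≤ ℓ → ∀ n : ℕ, ℓ ≤ Real.log n →
    Real.log n ≤ (1 + 1 / 20) * ℓ →
      ∃ (u : ℂ) (S : CSad u), S.s = n ∧ ‖u - ℓ‖ ≤ ℓ / 7 ∧ S.e = u / ‖u‖ := by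
  obtain ⟨m0, hm0⟩ := exists_loc
  refine ⟨max (Real.log (m0 + 1)) 1000, fun ℓ hℓ n hn1 hn2 => ?_⟩
  have hℓ1 : 1000 ≤ ℓ := (le_max_right _ _).trans hℓ
  have hℓ2 : Real.log (m0 + 1) ≤ ℓ := (le_max_left _ _).trans hℓ
  have hn0 : (0 : ℝ) < n := by
    rcases Nat.eq_zero_or_pos n with h | h
    · subst h
      simp at hn1
      linarith
    · exact_mod_cast h
  have hmn : m0 ≤ n := by
    have h1 : ((m0 : ℝ) + 1) ≤ n := by
      have h2 := hℓ2.trans hn1
      exact (Real.log_le_log_iff (by positivity) hn0).1 h2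
    have h3 : (m0 : ℝ) ≤ n := by linarith
    exact_mod_cast h3
  obtain ⟨T⟩ := hm0 n hmn
  have hη : ‖(0 : ℂ)‖ < T.ρ := by
    rw [norm_zero]
    exact T.ρ_pos
  obtain ⟨S⟩ := T.csad hη
  have hs : S.s = n := by
    rw [S.s_eq, T.s_eq (T.lt4 hη), Complex.exp_zero, mul_one]
  refine ⟨T.u 0, S, hs, ?_, JBase_e S hs hn0⟩
  have hN := JBase_near S hs
  have hU := S.hU
  have hU0 := S.U_pos
  have hre := S.hure
  have him := S.huim
  have him2 := S.huim2
  have hpi := Real.pi_gt_three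
  have hpi4 := Real.pi_lt_four
  generalize T.u 0 = u at *
  have h1 : Real.log n = Real.log (2 * π) + Real.log ‖u‖ + u.re := by
    rw [hN, Real.log_mul (by positivity) (Real.exp_pos _).ne', Real.log_exp,
      Real.log_mul (by positivity) hU0.ne']
  have h2 : 0 ≤ Real.log (2 * π) := Real.log_nonneg (by linarith)
  have h3 : 0 ≤ Real.log ‖u‖ := Real.log_nonneg (by linarith)
  have h4 : Real.log (2 * π) ≤ 5 := by
    have := JBase_log (x := 2 * π) (by positivity)
    linarith
  have h5 : ‖u‖ ≤ Real.log n + 2 := by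
    have h6 := Complex.norm_le_abs_re_add_abs_im u
    rw [abs_of_pos hre, abs_of_pos him] at h6
    linarith
  have h6 : Real.log ‖u‖ ≤ (Real.log n + 2) / 100 + 4 := by
    have := JBase_log hU0
    linarith
  have h7 : ‖u - ℓ‖ ≤ |u.re - ℓ| + |u.im| := by
    have h8 := Complex.norm_le_abs_re_add_abs_im (u - ℓ)
    simpa using h8
  have h8 : |u.re - ℓ| ≤ ℓ / 8 := by
    rw [abs_le]
    constructor <;> linarith
  have h9 : |u.im| ≤ 2 := by
    rw [abs_of_pos him]
    linarith
  linarith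

end Pool.Agent.StL
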