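import Pool.Agent.StL.Defs

open Complex Set Filter MeasureTheory Topology Metric
open scoped Real

namespace Pool.Agent.StL

open Pool.Agent.Stj

theorem garbage' {u : ℂ} (S : CSad u) : ∃ g : ℂ,
    Jc S.s = g + S.C * ∫ x, S.F x ∧ ‖g / S.C‖ ≤ Real.exp (-S.L) := by
  have hU := S.U_pos
  have hU4 := S.hU
  have hR := S.R_pos
  have hR100 := S.hR
  have hL := S.L_pos
  have hL6 := S.L_ge
  have hlU := S.logU
  have hRU := S.R_ge_U
  have hsre := S.s_re
  have hsim := S.s_im
  have hs0 : 0 ≤ S.s.re := le_trans (by nlinarith) hsre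
  set X := S.R * S.e.im with hX
  have hX1 : S.R / ‖u‖ ≤ X := by
    rw [hX, div_eq_mul_one_div]
    have := S.him
    gcongr
  have hX2 : X ≤ 2 * (S.R / ‖u‖) := by
    rw [hX]
    have := S.him2
    calc S.R * S.e.im ≤ S.R * (2 / ‖u‖) := by gcongr
      _ = _ := by ring
  have hRdU : 1 ≤ S.R / ‖u‖ := by rw [le_div_iff₀ hU]; linarith
  have hXh : 1 / 2 ≤ X := by linarith
  set B := ‖u‖ + 4 - Real.log ‖u‖ with hB
  have hlogle : Real.log ‖u‖ ≤ ‖u‖ / 4 := by
    have h2 := S.hU2
    have h4 : (Real.log ‖u‖ + 2) ^ 2 ≤ (1 / 4 * ‖u‖) ^ 2 := by nlinarith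
    have h5 : Real.log ‖u‖ + 2 ≤ 1 / 4 * ‖u‖ := le_of_sq_le_sq h4 (by positivity)
    linarith
  have hBpos : 0 < B := by rw [hB]; linarith
  have hB1 : Real.log (X + 1) + 2 ≤ B := by
    have h1 : X + 1 ≤ 3 * (S.R / ‖u‖) := by linarith
    have h2 := Real.log_le_log (by linarith) h1
    rw [Real.log_mul (by norm_num) (by positivity), Real.log_div hR.ne' hU.ne', S.R_eq,
      Real.log_exp] at h2
    have h3 : Real.log 3 ≤ 2 := by
      have := Real.log_le_sub_one_of_pos (x := 3) (by norm_num)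
      linarith
    have h4 := Complex.re_le_norm u
    rw [hB]
    linarith
  have hB3 : 3 ≤ B := by rw [hB]; linarith
  have hg := cgarbage_bound S.s hs0 X B hXh hB1 hB3
  refine ⟨(∫ t in Ioc (0 : ℝ) 1, fc S.s (1 / 2 + t * I)) -
      I * (∫ x : ℝ in (1 / 2 : ℝ)..X, fc S.s (x + I)), ?_, ?_⟩
  · rw [Jc_eq S.s hs0 X hXh, S.line_integral]
  · rw [norm_div]
    have hCn : Real.exp (S.s.re * Real.log ‖u‖ - π / 2 * |S.s.im| - S.L) * (4 * S.R) ≤ ‖S.C‖ := by
      unfold CSad.C
      rw [norm_mul, norm_mul, norm_mul, Complex.norm_exp, Complex.norm_exp, Complex.norm_real,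
        Real.norm_of_nonneg hR.le, norm_neg, Complex.norm_ofNat]
      have h1 : (S.s * Complex.log u).re = S.s.re * Real.log ‖u‖ - S.s.im * Complex.arg u := by
        rw [Complex.mul_re, Complex.log_re, Complex.log_im]
      have h2 : (2 * π * I * Complex.exp u).re = -(2 * π * S.R * S.e.re) := by
        rw [S.hexp]
        simp
        ring
      have h3 : S.e.re ≤ 1 := by
        have := re_sq_add_im_sq S.he
        nlinarith
      have h4 : -S.L ≤ (2 * π * I * Complex.exp u).re := by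
        rw [h2]
        unfold CSad.L
        have : 0 < 2 * π * S.R := by positivity
        nlinarith
      have h5 : S.s.re * Real.log ‖u‖ - π / 2 * |S.s.im| ≤ (S.s * Complex.log u).re := by
        rw [h1]
        have h6 := S.arg_u
        have h7 : S.s.im * Complex.arg u ≤ |S.s.im| * (π / 2) := by
          calc S.s.im * Complex.arg u ≤ |S.s.im| * Complex.arg u := by
                gcongr
                · exact h6.1.le
                · exact le_abs_self _
            _ ≤ |S.s.im| * (π / 2) := by gcongr; exact h6.2.le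
        linarith
      calc Real.exp (S.s.re * Real.log ‖u‖ - π / 2 * |S.s.im| - S.L) * (4 * S.R)
          = Real.exp (S.s.re * Real.log ‖u‖ - π / 2 * |S.s.im|) * Real.exp (-S.L) * (4 * S.R) := by
            rw [← Real.exp_add]; rfl
        _ ≤ Real.exp (S.s * Complex.log u).re * Real.exp (2 * π * I * Complex.exp u).re *
            (4 * S.R) := by gcongr
        _ = _ := by ring
    have hCpos : 0 < ‖S.C‖ := norm_pos_iff.2 S.C_ne
    have hexp : S.s.re * Real.log B + π * |S.s.im| ≤
        (S.s.re * Real.log ‖u‖ - π / 2 * |S.s.im| - S.L) + -S.L := by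
      have h1 : Real.log B - Real.log ‖u‖ ≤ -(Real.log ‖u‖ - 4) / ‖u‖ := by
        rw [← Real.log_div hBpos.ne' hU.ne']
        have h2 := Real.log_le_sub_one_of_pos (x := B / ‖u‖) (by positivity)
        refine h2.trans (le_of_eq ?_)
        rw [hB]
        field_simp
        ring
      have h3 : S.s.re * (Real.log B - Real.log ‖u‖) ≤ -(4 * S.L) := by
        have h4 : S.s.re * (Real.log B - Real.log ‖u‖) ≤
            S.s.re * (-(Real.log ‖u‖ - 4) / ‖u‖) := by gcongr
        refine h4.trans ?_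
        rw [neg_div, mul_neg, neg_le_neg_iff]
        have h5 : 5 / ‖u‖ ≤ (Real.log ‖u‖ - 4) / ‖u‖ := by gcongr; linarith
        have h6 : S.L * (‖u‖ - 1 / 100) * (5 / ‖u‖) ≤
            S.s.re * ((Real.log ‖u‖ - 4) / ‖u‖) := by gcongr
        refine le_trans ?_ h6
        rw [mul_div_assoc', le_div_iff₀ hU]
        nlinarith
      have hpi := Real.pi_lt_d2
      have hpi0 := Real.pi_pos
      have h7 : π * |S.s.im| ≤ 1 / 2 * S.L := by
        calc π * |S.s.im| ≤ π * (S.L / 100) := by gcongr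
          _ ≤ _ := by nlinarith
      nlinarith
    have hX1R : X + 1 ≤ 4 * S.R := by
      have : S.R / ‖u‖ ≤ S.R := div_le_self hR.le (by linarith)
      linarith
    calc _ ≤ (X + 1) * Real.exp (S.s.re * Real.log B + π * |S.s.im|) / ‖S.C‖ := by gcongr
      _ ≤ (4 * S.R) * Real.exp ((S.s.re * Real.log ‖u‖ - π / 2 * |S.s.im| - S.L) + -S.L) /
          ‖S.C‖ := by gcongr
      _ = (Real.exp (S.s.re * Real.log ‖u‖ - π / 2 * |S.s.im| - S.L) * (4 * S.R)) *
          Real.exp (-S.L) / ‖S.C‖ := by rw [Real.exp_add]; ring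
      _ ≤ ‖S.C‖ * Real.exp (-S.L) / ‖S.C‖ := by gcongr
      _ = Real.exp (-S.L) := by field_simp

theorem kappa_near' {u : ℂ} (S : CSad u) {x : ℝ} (hx : |x| ≤ 1 / 4) :
    ‖S.κ x - 1‖ ≤ 4 * Real.exp (-(S.L / 2)) := by
  have h1 := S.t_near hx
  have hR := S.hR
  refine (Sad.norm_κ_aux (S.norm_p_le (by linarith))).2.trans ?_
  rw [S.norm_p]
  have h3 : S.L / 2 ≤ 2 * π * S.t x := by
    unfold CSad.L
    have := Real.pi_pos
    nlinarith
  have h4 : Real.exp (-(2 * π * S.t x)) ≤ Real.exp (-(S.L / 2)) := by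
    rw [Real.exp_le_exp]
    linarith
  linarith

end Pool.Agent.StL
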