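import Pool.Agent.StL.QE

open Complex Set Filter MeasureTheory Topology Metric
open scoped Real

namespace Pool.Agent.StL

open Pool.Agent.Stj

/-- continuity of the local integrand -/
lemma NNa_cont {u g : ℂ} {T : ℝ} (hu : 1 ≤ ‖u‖) (hg : ∀ τ : ℝ, |τ| ≤ T → ‖(τ : ℂ) * g‖ ≤ 1 / 4) :
    ContinuousOn (fun τ : ℝ => Complex.exp (qe u (τ * g))) (Icc (-T) T) := by
  have hm : ∀ τ ∈ Icc (-T) T, ‖(τ : ℂ) * g‖ ≤ 1 / 4 := fun τ hτ => hg τ (abs_le.2 hτ)
  have hu0 : u ≠ 0 := norm_pos_iff.1 (by linarith)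
  have c0 : ContinuousOn (fun τ : ℝ => (τ : ℂ) * g) (Icc (-T) T) := by fun_prop
  have s1 : ∀ τ ∈ Icc (-T) T, 1 + (τ : ℂ) * g ∈ slitPlane := by
    intro τ hτ
    refine Complex.mem_slitPlane_of_norm_lt_one ?_
    linarith [hm τ hτ]
  have c1 : ContinuousOn (fun τ : ℝ => Complex.log (1 + (τ : ℂ) * g)) (Icc (-T) T) :=
    (continuousOn_const.add c0).clog s1
  have s2 : ∀ τ ∈ Icc (-T) T, 1 + Complex.log (1 + (τ : ℂ) * g) / u ∈ slitPlane := by
    intro τ hτ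
    refine Complex.mem_slitPlane_of_norm_lt_one ?_
    have h1 : ‖Complex.log (1 + (τ : ℂ) * g)‖ ≤ 3 / 2 * ‖(τ : ℂ) * g‖ :=
      Complex.norm_log_one_add_half_le_self (by linarith [hm τ hτ])
    have h2 := hm τ hτ
    rw [norm_div, div_lt_one (by linarith)]
    linarith
  have c2 : ContinuousOn (fun τ : ℝ => Complex.log (1 + Complex.log (1 + (τ : ℂ) * g) / u))
      (Icc (-T) T) :=
    (continuousOn_const.add (c1.div_const u)).clog s2
  unfold qe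
  exact Complex.continuous_exp.comp_continuousOn
    (continuousOn_const.mul (c0.sub (continuousOn_const.mul c2)))

/-- pointwise comparison with the Gaussian -/
lemma NNa_point {q : ℂ} {τ : ℝ} (h : ‖q + π * τ ^ 2‖ ≤ 4 / 25 * (π * τ ^ 2)) :
    ‖Complex.exp q - Complex.exp (-(π * τ ^ 2 : ℝ))‖ ≤ 1 / 8 * Real.exp (-(π / 4) * τ ^ 2) := by
  set y : ℝ := π * τ ^ 2 with hy
  have hy0 : 0 ≤ y := by positivity
  have hcast : (q + π * τ ^ 2 : ℂ) = q - (-(y : ℝ) : ℂ) := by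
    rw [hy]; push_cast; ring
  rw [hcast] at h
  have hre : q.re ≤ -(21 / 25) * y := by
    have h1 := (Complex.re_le_norm (q - (-(y : ℝ) : ℂ))).trans h
    simp only [sub_re, neg_re, ofReal_re] at h1
    linarith
  have hp : Real.exp q.re ≤ Real.exp (-(21 / 25) * y) := Real.exp_le_exp.2 hre
  have hq : Real.exp ((-(y : ℝ) : ℂ)).re ≤ Real.exp (-(21 / 25) * y) := by
    apply Real.exp_le_exp.2
    simp only [neg_re, ofReal_re]
    linarith
  have h2 := norm_exp_sub_exp_le hp hq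
  refine h2.trans ?_
  have h3 : Real.exp (-(π / 4) * τ ^ 2) = Real.exp (-(21 / 25) * y) * Real.exp (59 / 100 * y) := by
    rw [← Real.exp_add, hy]
    congr 1
    ring
  rw [h3]
  have h4 : 59 / 100 * y * 2.7 ≤ Real.exp (59 / 100 * y) := by
    have h5 : 59 / 100 * y ≤ Real.exp (59 / 100 * y - 1) := by
      have := Real.add_one_le_exp (59 / 100 * y - 1)
      linarith
    have h6 : Real.exp (59 / 100 * y) = Real.exp (59 / 100 * y - 1) * Real.exp 1 := by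
      rw [← Real.exp_add]; congr 1; ring
    rw [h6]
    have h7 : (2.7 : ℝ) ≤ Real.exp 1 := by linarith [Real.exp_one_gt_d9]
    have h8 := Real.exp_pos (59 / 100 * y - 1)
    nlinarith
  have h9 := Real.exp_pos (-(21 / 25) * y)
  calc Real.exp (-(21 / 25) * y) * ‖q - (-(y : ℝ) : ℂ)‖
      ≤ Real.exp (-(21 / 25) * y) * (4 / 25 * y) := by gcongr
    _ ≤ 1 / 8 * (Real.exp (-(21 / 25) * y) * Real.exp (59 / 100 * y)) := by
        have h10 : 4 / 25 * y ≤ 1 / 8 * Real.exp (59 / 100 * y) := by linarith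
        nlinarith

/-- the exponent is close to the Gaussian one -/
lemma NNa_kap {ℓ τ : ℝ} {u q : ℂ} (hℓ : 1000 ≤ ℓ) (hu : ‖u - ℓ‖ ≤ ℓ / 7)
    (hτ : |τ| ≤ Real.exp (ℓ / 8))
    (h : ‖q + π * τ ^ 2 * (u + 1) / ℓ‖ ≤ 8 * |τ| ^ 3 * Real.exp (-(3 / 7) * ℓ)) :
    ‖q + π * τ ^ 2‖ ≤ 4 / 25 * (π * τ ^ 2) := by
  have hℓ0 : (0 : ℝ) < ℓ := by linarith
  have hℓ1 : (ℓ : ℂ) ≠ 0 := by exact_mod_cast hℓ0.ne'
  have e1 : q + π * τ ^ 2 = (q + π * τ ^ 2 * (u + 1) / ℓ) - π * τ ^ 2 * ((u - ℓ) + 1) / ℓ := by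
    field_simp
    ring
  have h1 : ‖(π * τ ^ 2 * ((u - ℓ) + 1) / ℓ : ℂ)‖ ≤ π * τ ^ 2 * (ℓ / 7 + 1) / ℓ := by
    rw [norm_div, norm_mul, norm_mul, norm_pow, Complex.norm_real, Complex.norm_real,
      Complex.norm_real, Real.norm_of_nonneg hℓ0.le, Real.norm_of_nonneg Real.pi_pos.le,
      Real.norm_eq_abs, sq_abs]
    gcongr
    refine (norm_add_le _ _).trans ?_
    rw [norm_one]
    linarith
  have h2 : 8 * |τ| ^ 3 * Real.exp (-(3 / 7) * ℓ) ≤ 1 / 1000 * (π * τ ^ 2) := by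
    have h3 : |τ| ^ 3 ≤ τ ^ 2 * Real.exp (ℓ / 8) := by
      have : |τ| ^ 3 = τ ^ 2 * |τ| := by rw [← sq_abs τ]; ring
      rw [this]
      gcongr
    have h4 : Real.exp (ℓ / 8) * Real.exp (-(3 / 7) * ℓ) ≤ 1 / 8000 := by
      rw [← Real.exp_add]
      have h5 : ℓ / 8 + -(3 / 7) * ℓ ≤ -(ℓ / 4) := by linarith
      refine (Real.exp_le_exp.2 h5).trans ?_
      rw [Real.exp_neg]
      have h6 : (8000 : ℝ) ≤ Real.exp (ℓ / 4) := by
        have h7 : (250 : ℝ) ≤ ℓ / 4 := by linarith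
        have h8 := Real.quadratic_le_exp_of_nonneg (x := ℓ / 4) (by linarith)
        nlinarith
      rw [inv_le_comm₀ (Real.exp_pos _) (by norm_num)]
      linarith
    calc 8 * |τ| ^ 3 * Real.exp (-(3 / 7) * ℓ)
        ≤ 8 * (τ ^ 2 * Real.exp (ℓ / 8)) * Real.exp (-(3 / 7) * ℓ) := by gcongr
      _ = 8 * τ ^ 2 * (Real.exp (ℓ / 8) * Real.exp (-(3 / 7) * ℓ)) := by ring
      _ ≤ 8 * τ ^ 2 * (1 / 8000) := by gcongr
      _ ≤ 1 / 1000 * (π * τ ^ 2) := by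
          have := Real.pi_gt_three
          nlinarith [sq_nonneg τ]
  have h3 : π * τ ^ 2 * (ℓ / 7 + 1) / ℓ ≤ (1 / 7 + 1 / 1000) * (π * τ ^ 2) := by
    rw [div_le_iff₀ hℓ0]
    have : 0 ≤ π * τ ^ 2 := by positivity
    nlinarith
  rw [e1]
  refine (norm_sub_le _ _).trans ?_
  have : 0 ≤ π * τ ^ 2 := by positivity
  linarith

theorem NN_near : ∃ ℓ0 : ℝ, ∀ ℓ : ℝ, ℓ0 ≤ ℓ → ∀ u : ℂ, ‖u - ℓ‖ ≤ ℓ / 7 →
    ‖NN ℓ u - 1‖ ≤ 1 / 2 := by
  obtain ⟨l1, hl1⟩ := qe_near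
  -- the Gaussian
  have hG : Integrable (fun τ : ℝ => Real.exp (-π * τ ^ 2)) :=
    integrable_exp_neg_mul_sq Real.pi_pos
  have hGv : ∫ τ : ℝ, Real.exp (-π * τ ^ 2) = 1 := by
    rw [integral_gaussian, div_self Real.pi_pos.ne', Real.sqrt_one]
  have hH : Integrable (fun τ : ℝ => Real.exp (-(π / 4) * τ ^ 2)) :=
    integrable_exp_neg_mul_sq (by positivity)
  have hHv : ∫ τ : ℝ, Real.exp (-(π / 4) * τ ^ 2) = 2 := by
    rw [integral_gaussian]
    have : π / (π / 4) = 2 ^ 2 := by field_simp; norm_num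
    rw [this, Real.sqrt_sq (by norm_num)]
  have htend : Tendsto (fun ℓ : ℝ => ∫ τ in (-Real.exp (ℓ / 8))..Real.exp (ℓ / 8),
      Real.exp (-π * τ ^ 2)) atTop (𝓝 1) := by
    rw [← hGv]
    have ht : Tendsto (fun ℓ : ℝ => Real.exp (ℓ / 8)) atTop atTop :=
      Real.tendsto_exp_atTop.comp (tendsto_id.atTop_div_const (by norm_num))
    exact intervalIntegral_tendsto_integral hG (tendsto_neg_atTop_atBot.comp ht) ht
  have hev : ∀ᶠ ℓ : ℝ in atTop, |(∫ τ in (-Real.exp (ℓ / 8))..Real.exp (ℓ / 8),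
      Real.exp (-π * τ ^ 2)) - 1| < 1 / 8 := by
    have := (Metric.tendsto_nhds.1 htend) (1 / 8) (by norm_num)
    simpa [Real.dist_eq] using this
  obtain ⟨l2, hl2⟩ := Filter.eventually_atTop.1 hev
  refine ⟨max (max l1 l2) 1000, fun ℓ hℓ u hu => ?_⟩
  have hℓ1 : l1 ≤ ℓ := ((le_max_left _ _).trans (le_max_left _ _)).trans hℓ
  have hℓ2 : l2 ≤ ℓ := ((le_max_right _ _).trans (le_max_left _ _)).trans hℓ
  have hℓ3 : (1000 : ℝ) ≤ ℓ := (le_max_right _ _).trans hℓ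
  have hq := hl1 ℓ hℓ1 u hu
  set T := Real.exp (ℓ / 8) with hT
  have hT0 : 0 < T := Real.exp_pos _
  have hTT : -T ≤ T := by linarith
  have hnu : 1 ≤ ‖u‖ := by
    have h1 : ‖(ℓ : ℂ)‖ = ℓ := by
      rw [Complex.norm_real, Real.norm_of_nonneg (by linarith)]
    have h2 : ‖(ℓ : ℂ)‖ ≤ ‖u‖ + ‖u - ℓ‖ := by
      have := norm_sub_le u (u - ℓ)
      simpa using this
    linarith
  have hc := NNa_cont hnu (fun τ hτ => (hq τ hτ).1)
  have hi : IntervalIntegrable (fun τ : ℝ => Complex.exp (qe u (τ * gg ℓ u))) volume (-T) T :=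
    (hc.mono (by rw [Set.uIcc_of_le hTT])).intervalIntegrable
  have hgi : IntervalIntegrable (fun τ : ℝ => Complex.exp (-(π * τ ^ 2 : ℝ))) volume (-T) T :=
    Continuous.intervalIntegrable (by fun_prop) _ _
  have hcast : ∫ τ in (-T)..T, Complex.exp (-(π * τ ^ 2 : ℝ)) =
      ((∫ τ in (-T)..T, Real.exp (-π * τ ^ 2) : ℝ) : ℂ) := by
    rw [← intervalIntegral.integral_ofReal]
    refine intervalIntegral.integral_congr (fun τ _ => ?_)
    rw [Complex.ofReal_exp]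
    congr 1
    push_cast
    ring
  have hsplit : NN ℓ u - 1 =
      (∫ τ in (-T)..T, (Complex.exp (qe u (τ * gg ℓ u)) - Complex.exp (-(π * τ ^ 2 : ℝ)))) +
      (((∫ τ in (-T)..T, Real.exp (-π * τ ^ 2)) - 1 : ℝ) : ℂ) := by
    rw [intervalIntegral.integral_sub hi hgi, hcast]
    unfold NN
    rw [← hT]
    push_cast
    ring
  have hb1 : ‖∫ τ in (-T)..T,
      (Complex.exp (qe u (τ * gg ℓ u)) - Complex.exp (-(π * τ ^ 2 : ℝ)))‖ ≤ 1 / 4 := by
    have hHi : IntervalIntegrable (fun τ : ℝ => 1 / 8 * Real.exp (-(π / 4) * τ ^ 2))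
        volume (-T) T := Continuous.intervalIntegrable (by fun_prop) _ _
    have h1 : ‖∫ τ in (-T)..T,
        (Complex.exp (qe u (τ * gg ℓ u)) - Complex.exp (-(π * τ ^ 2 : ℝ)))‖ ≤
        ∫ τ in (-T)..T, 1 / 8 * Real.exp (-(π / 4) * τ ^ 2) := by
      refine intervalIntegral.norm_integral_le_of_norm_le hTT ?_ hHi
      refine Filter.Eventually.of_forall (fun τ hτ => ?_)
      have hτ' : |τ| ≤ T := abs_le.2 ⟨hτ.1.le, hτ.2⟩
      exact NNa_point (NNa_kap hℓ3 hu hτ' (hq τ hτ').2)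
    have h2 : ∫ τ in (-T)..T, 1 / 8 * Real.exp (-(π / 4) * τ ^ 2) ≤
        ∫ τ : ℝ, 1 / 8 * Real.exp (-(π / 4) * τ ^ 2) := by
      rw [intervalIntegral.integral_of_le hTT]
      refine setIntegral_le_integral (hH.const_mul _) ?_
      exact Filter.Eventually.of_forall (fun τ => by positivity)
    have h3 : ∫ τ : ℝ, 1 / 8 * Real.exp (-(π / 4) * τ ^ 2) = 1 / 4 := by
      rw [integral_const_mul, hHv]
      norm_num
    linarith
  have hb2 : ‖(((∫ τ in (-T)..T, Real.exp (-π * τ ^ 2)) - 1 : ℝ) : ℂ)‖ ≤ 1 / 8 := by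
    rw [Complex.norm_real, Real.norm_eq_abs]
    exact (hl2 ℓ hℓ2).le
  rw [hsplit]
  refine (norm_add_le _ _).trans ?_
  linarith

end Pool.Agent.StL
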