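import Pool.Agent.StL.QE
import Pool.Agent.StL.Garb
import Pool.Agent.StL.NNa

open Complex Set Filter MeasureTheory Topology Metric
open scoped Real

namespace Pool.Agent.StL

open Pool.Agent.Stj

lemma JInt_W {u : ℂ} (S : CSad u) (x : ℝ) :
    S.W x = Complex.exp (qe u (x * S.e)) := by
  unfold CSad.W qe CSad.r ell
  rw [← Complex.exp_add]
  congr 1
  rw [S.s_eq]
  have h1 : ((S.L * x : ℝ) : ℂ) = -(2 * π * I * Complex.exp u * (x * S.e)) := by
    rw [S.hexp, S.conj_e]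
    unfold CSad.L
    have := S.e_ne
    have hI : I * I = -1 := Complex.I_mul_I
    push_cast
    field_simp
    rw [Complex.I_sq]
    ring
  rw [h1]
  ring

lemma JInt_norm_gg {ℓ : ℝ} (hℓ : 0 < ℓ) {u : ℂ} (S : CSad u) :
    ‖gg ℓ u‖ ^ 2 = ‖u‖ / (S.R * ℓ) := by
  rw [← norm_pow, QE_gg_sq hℓ.ne' S.u_ne, norm_div, norm_mul, norm_mul, Complex.norm_I,
    Complex.norm_exp, Complex.norm_real, Real.norm_of_nonneg hℓ.le, S.R_eq, Complex.neg_re,
    Real.exp_neg]
  have := Real.exp_pos u.re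
  field_simp

lemma JInt_gg {ℓ : ℝ} (hℓ : 0 < ℓ) {u : ℂ} (S : CSad u) (he : S.e = u / ‖u‖) :
    gg ℓ u = ‖gg ℓ u‖ * S.e ∨ gg ℓ u = -(‖gg ℓ u‖ * S.e) := by
  rw [← sq_eq_sq_iff_eq_or_eq_neg, mul_pow, ← Complex.ofReal_pow, JInt_norm_gg hℓ S,
    QE_gg_sq hℓ.ne' S.u_ne, Complex.exp_neg, S.hexp, S.conj_e]
  have h1 := S.e_ne
  have h2 := S.R_ne
  have h3 : (ℓ : ℂ) ≠ 0 := by exact_mod_cast hℓ.ne'
  have h4 := S.U_ne
  have h5 : u = ‖u‖ * S.e := by rw [he]; field_simp
  push_cast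
  have h6 : I * S.e⁻¹ ≠ 0 := mul_ne_zero Complex.I_ne_zero (inv_ne_zero h1)
  have h7 : I * (↑S.R * (I * S.e⁻¹))⁻¹ * u / (ℓ : ℂ) = S.e * u / (S.R * ℓ) := by
    field_simp
  rw [h7]
  have h8 : S.e * u = ‖u‖ * S.e ^ 2 := by
    calc S.e * u = S.e * (‖u‖ * S.e) := by rw [← h5]
      _ = _ := by ring
  rw [h8]
  ring

lemma JInt_sub {ℓ : ℝ} (hℓ : 0 < ℓ) {u : ℂ} (S : CSad u) (he : S.e = u / ‖u‖) :
    ∫ x in (-(Real.exp (ℓ / 8) * ‖gg ℓ u‖))..(Real.exp (ℓ / 8) * ‖gg ℓ u‖), S.W x =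
      ‖gg ℓ u‖ * NN ℓ u := by
  have hg : gg ℓ u ≠ 0 := Complex.exp_ne_zero _
  have ha : 0 < ‖gg ℓ u‖ := norm_pos_iff.2 hg
  set a := ‖gg ℓ u‖ with hadef
  set T := Real.exp (ℓ / 8) with hT
  have h1 : ∫ τ in (-T)..T, S.W (τ * a) = NN ℓ u := by
    unfold NN
    rcases JInt_gg hℓ S he with h | h
    · apply intervalIntegral.integral_congr
      intro τ _
      simp only
      rw [JInt_W, h]
      push_cast
      congr 2
      rw [← hadef]
      ring
    · have h2 := intervalIntegral.integral_comp_neg (a := -T) (b := T)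
        (fun τ : ℝ => Complex.exp (qe u (τ * gg ℓ u)))
      rw [neg_neg] at h2
      rw [← hT, ← h2]
      apply intervalIntegral.integral_congr
      intro τ _
      simp only
      rw [JInt_W, h]
      push_cast
      congr 2
      rw [← hadef]
      ring
  have h3 := intervalIntegral.smul_integral_comp_mul_right (a := -T) (b := T)
    (fun x : ℝ => S.W x) a
  rw [h1] at h3
  rw [neg_mul] at h3
  rw [← h3, Complex.real_smul]

lemma JInt_tail {b x0 : ℝ} (hb : 0 < b) (hx0 : 0 ≤ x0) {F : ℝ → ℂ} (hF : Integrable F)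
    (hF2 : ∀ x, ‖F x‖ ≤ 4 * Real.exp (-(2 * b * |x|))) :
    ‖(∫ x, F x) - ∫ x in (-x0)..x0, F x‖ ≤ 8 / b * Real.exp (-(b * x0)) := by
  rw [intervalIntegral.integral_of_le (by linarith), ← integral_indicator measurableSet_Ioc,
    ← integral_sub hF (hF.indicator measurableSet_Ioc)]
  refine (norm_integral_le_integral_norm _).trans ?_
  have h1 : ∫ x : ℝ, 4 * Real.exp (-(b * x0)) * Real.exp (-(b * |x|)) =
      8 / b * Real.exp (-(b * x0)) := by
    rw [integral_const_mul, integral_exp_abs hb]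
    ring
  rw [← h1]
  apply integral_mono_of_nonneg
  · exact ae_of_all _ fun x => norm_nonneg _
  · exact (integrable_exp_abs hb).const_mul _
  · refine ae_of_all _ fun x => ?_
    simp only
    by_cases hx : x ∈ Ioc (-x0) x0
    · rw [indicator_of_mem hx, sub_self, norm_zero]
      positivity
    · rw [indicator_of_notMem hx, sub_zero]
      refine (hF2 x).trans ?_
      have h2 : x0 ≤ |x| := by
        by_contra h3
        push Not at h3
        rw [abs_lt] at h3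
        exact hx ⟨h3.1, h3.2.le⟩
      have h4 : Real.exp (-(2 * b * |x|)) ≤ Real.exp (-(b * x0)) * Real.exp (-(b * |x|)) := by
        rw [← Real.exp_add, Real.exp_le_exp]
        nlinarith
      linarith

lemma JInt_mid {u : ℂ} (S : CSad u) {x0 : ℝ} (hx0 : 0 ≤ x0) (hx1 : x0 ≤ 1 / 4) :
    ‖(∫ x in (-x0)..x0, S.F x) - ∫ x in (-x0)..x0, S.W x‖ ≤ 4 * Real.exp (-(S.L / 2)) := by
  have hle : ∀ x ∈ Icc (-x0) x0, |x| ≤ 1 / 4 := fun x hx => (abs_le.2 hx).trans hx1
  have hmem : ∀ x ∈ Icc (-x0) x0, -S.e.re ≤ x ∧ 1 < S.t x := by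
    intro x hx
    have h1 := hle x hx
    constructor
    · have := S.hre
      rw [abs_le] at h1
      linarith [h1.1]
    · have := S.t_near h1
      linarith [S.hR]
  have hFi : IntervalIntegrable S.F volume (-x0) x0 := S.integrable_F.intervalIntegrable
  have hWc : IntervalIntegrable (fun x : ℝ => S.W x) volume (-x0) x0 := by
    have h1 : ContinuousOn (fun x : ℝ => S.W x) (Icc (-x0) x0) := by
      have h2 := NNa_cont (u := u) (g := S.e) (T := x0) (by linarith [S.hU]) (by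
        intro τ hτ
        rw [norm_mul, S.he, mul_one, Complex.norm_real, Real.norm_eq_abs]
        linarith)
      exact h2.congr fun x _ => JInt_W S x
    apply ContinuousOn.intervalIntegrable
    rwa [uIcc_of_le (by linarith)]
  rw [← intervalIntegral.integral_sub hFi hWc]
  have h1 : ∀ x ∈ Set.uIoc (-x0) x0, ‖S.F x - S.W x‖ ≤ 8 * Real.exp (-(S.L / 2)) := by
    intro x hx
    rw [uIoc_of_le (by linarith)] at hx
    have hx' := Ioc_subset_Icc_self hx
    have h2 := hmem x hx'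
    have h3 : S.F x - S.W x = S.W x * (S.κ x - 1) := by
      unfold CSad.F
      rw [indicator_of_mem ((S.mem_iff x).2 h2.2)]
      ring
    rw [h3, norm_mul]
    have h4 : ‖S.W x‖ ≤ 2 := by
      refine (S.norm_W_le' h2.1).trans ?_
      have : Real.exp (-(S.l * |x| / 100)) ≤ 1 := by
        rw [Real.exp_le_one_iff]
        have := S.l_pos
        have : 0 ≤ S.l * |x| / 100 := by positivity
        linarith
      linarith
    have h5 := kappa_near' S (hle x hx')
    calc _ ≤ 2 * (4 * Real.exp (-(S.L / 2))) := by gcongr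
      _ = _ := by ring
  refine (intervalIntegral.norm_integral_le_of_norm_le_const h1).trans ?_
  rw [sub_neg_eq_add, abs_of_nonneg (by linarith)]
  have h6 := Real.exp_pos (-(S.L / 2))
  nlinarith

lemma JInt_final {ℓ : ℝ} (hℓ : 40000 ≤ ℓ) :
    3210 * Real.exp (8 / 7 * ℓ) * Real.exp (-(Real.exp (ℓ / 8) / 100)) ≤
      Real.exp (-Real.exp (ℓ / 16)) := by
  set y := Real.exp (ℓ / 16) with hy
  have h1 : Real.exp (ℓ / 8) = y ^ 2 := by
    rw [hy, ← Real.exp_nat_mul]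
    congr 1
    push_cast
    ring
  have h2 : ℓ / 16 + 1 ≤ y := Real.add_one_le_exp _
  have h3 : (3210 : ℝ) ≤ Real.exp 9 := by
    have h4 : Real.exp 9 = Real.exp 1 ^ 9 := by rw [← Real.exp_nat_mul]; norm_num
    rw [h4]
    have := Real.exp_one_gt_d9
    calc (3210 : ℝ) ≤ 2.7 ^ 9 := by norm_num
      _ ≤ _ := by gcongr; linarith
  rw [h1]
  calc 3210 * Real.exp (8 / 7 * ℓ) * Real.exp (-(y ^ 2 / 100))
      ≤ Real.exp 9 * Real.exp (8 / 7 * ℓ) * Real.exp (-(y ^ 2 / 100)) := by gcongr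
    _ = Real.exp (9 + 8 / 7 * ℓ + -(y ^ 2 / 100)) := by rw [← Real.exp_add, ← Real.exp_add]
    _ ≤ Real.exp (-y) := by
      rw [Real.exp_le_exp]
      nlinarith

theorem J_int : ∃ ℓ0 : ℝ, ∀ ℓ : ℝ, ℓ0 ≤ ℓ → ∀ (u : ℂ) (S : CSad u) (n : ℕ), S.s = n →
    ‖u - ℓ‖ ≤ ℓ / 7 → S.e = u / ‖u‖ →
      ∃ (c : ℝ) (w : ℂ), 0 < c ∧ ‖w‖ ≤ Real.exp (-Real.exp (ℓ / 16)) ∧
        J n = -c * Complex.exp (n * Complex.log u + 2 * π * I * Complex.exp u) *
          (NN ℓ u + w) := by
  obtain ⟨ℓ1, h1⟩ := qe_near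
  refine ⟨max ℓ1 40000, fun ℓ hℓ u S n hn hu he => ?_⟩
  have hℓ1 : ℓ1 ≤ ℓ := le_trans (le_max_left _ _) hℓ
  have hℓ2 : 40000 ≤ ℓ := le_trans (le_max_right _ _) hℓ
  have hℓ0 : 0 < ℓ := by linarith
  have hR := S.R_pos
  have hR100 := S.hR
  have hU := S.U_pos
  set T := Real.exp (ℓ / 8) with hT
  have hT0 : 0 < T := Real.exp_pos _
  set a := ‖gg ℓ u‖ with hadef
  have ha : 0 < a := norm_pos_iff.2 (Complex.exp_ne_zero _)
  have ha2 : a ^ 2 = ‖u‖ / (S.R * ℓ) := JInt_norm_gg hℓ0 S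
  have hx1 : T * a ≤ 1 / 4 := by
    have h2 := (h1 ℓ hℓ1 u hu T (by rw [abs_of_pos hT0])).1
    rwa [norm_mul, Complex.norm_real, Real.norm_of_nonneg hT0.le] at h2
  have hx0 : 0 ≤ T * a := by positivity
  have hu2 : 6 / 7 * ℓ ≤ ‖u‖ := by
    have := norm_sub_norm_le (ℓ : ℂ) u
    rw [norm_sub_rev, Complex.norm_real, Real.norm_eq_abs, abs_of_pos hℓ0] at this
    linarith
  have hre := Complex.abs_re_le_norm (u - ℓ)
  rw [Complex.sub_re, Complex.ofReal_re] at hre
  have hre2 := abs_le.1 (hre.trans hu)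
  obtain ⟨g, hg1, hg2⟩ := garbage' S
  have hsub := JInt_sub hℓ0 S he
  rw [← hT, ← hadef] at hsub
  have hmid := JInt_mid S hx0 hx1
  have hl := S.l_pos
  have hl1 := S.l_ge
  have htail := JInt_tail (b := S.l / 200) (x0 := T * a) (by positivity) hx0 S.integrable_F (by
    intro x
    refine (S.norm_F_le x).trans (le_of_eq ?_)
    have e1 : 2 * (S.l / 200) * |x| = S.l * |x| / 100 := by ring
    rw [e1]
    ring)
  set I1 := ∫ x in (-(T * a))..(T * a), S.F x with hI1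
  set I2 := ∫ x in (-(T * a))..(T * a), S.W x with hI2
  set I0 := ∫ x, S.F x with hI0
  have ha0 : (a : ℂ) ≠ 0 := by exact_mod_cast ha.ne'
  refine ⟨4 * S.R * a, (g / S.C + (I1 - I2) + (I0 - I1)) / a, by positivity, ?_, ?_⟩
  · rw [norm_div, Complex.norm_real, Real.norm_of_nonneg ha.le, div_le_iff₀ ha]
    have hla : 2 ≤ S.l * a := by
      have h3 : (2 : ℝ) ^ 2 ≤ (S.l * a) ^ 2 := by
        rw [mul_pow, ha2, S.l_sq]
        unfold CSad.L
        have h4 : 2 * π * S.R * (‖u‖ / (S.R * ℓ)) = 2 * π * (‖u‖ / ℓ) := by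
          field_simp
        rw [h4]
        have h5 : 6 / 7 ≤ ‖u‖ / ℓ := by rw [le_div_iff₀ hℓ0]; exact hu2
        have := Real.pi_gt_three
        nlinarith
      exact (sq_le_sq₀ (by norm_num) (by positivity)).1 h3
    have hRa : 1 ≤ 2 * S.R * a := by
      have h3 : (1 : ℝ) ^ 2 ≤ (2 * S.R * a) ^ 2 := by
        rw [mul_pow, ha2]
        have h4 : (2 * S.R) ^ 2 * (‖u‖ / (S.R * ℓ)) = 4 * S.R * (‖u‖ / ℓ) := by
          field_simp
          ring
        rw [h4]
        have h5 : 6 / 7 ≤ ‖u‖ / ℓ := by rw [le_div_iff₀ hℓ0]; exact hu2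
        nlinarith
      exact (sq_le_sq₀ (by norm_num) (by positivity)).1 h3
    have hTR : T ≤ S.R := by
      rw [S.R_eq, hT, Real.exp_le_exp]
      linarith
    have hL2 : T / 100 ≤ S.L / 2 := by
      unfold CSad.L
      have := Real.pi_gt_three
      nlinarith
    have b1 : ‖g / S.C‖ ≤ Real.exp (-(T / 100)) := by
      refine hg2.trans ?_
      rw [Real.exp_le_exp]
      have := S.L_pos
      linarith
    have b2 : ‖I1 - I2‖ ≤ 4 * Real.exp (-(T / 100)) := by
      refine hmid.trans ?_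
      have : Real.exp (-(S.L / 2)) ≤ Real.exp (-(T / 100)) := by
        rw [Real.exp_le_exp]
        linarith
      linarith
    have b3 : ‖I0 - I1‖ ≤ 1600 * Real.exp (-(T / 100)) := by
      refine htail.trans ?_
      have h3 : 8 / (S.l / 200) ≤ 1600 := by
        rw [div_le_iff₀ (by positivity)]
        linarith
      have h4 : T / 100 ≤ S.l / 200 * (T * a) := by nlinarith
      have h5 : Real.exp (-(S.l / 200 * (T * a))) ≤ Real.exp (-(T / 100)) := by
        rw [Real.exp_le_exp]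
        linarith
      gcongr
    have hRle : S.R ≤ Real.exp (8 / 7 * ℓ) := by
      rw [S.R_eq, Real.exp_le_exp]
      linarith
    have hfin := JInt_final hℓ2
    rw [← hT] at hfin
    set E := Real.exp (-(T / 100)) with hE
    have hE0 : 0 < E := Real.exp_pos _
    calc ‖g / S.C + (I1 - I2) + (I0 - I1)‖ ≤ ‖g / S.C‖ + ‖I1 - I2‖ + ‖I0 - I1‖ :=
          norm_add₃_le
      _ ≤ E + 4 * E + 1600 * E := by gcongr
      _ = 1605 * E * 1 := by ring
      _ ≤ 1605 * E * (2 * S.R * a) := by gcongr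
      _ = 3210 * S.R * E * a := by ring
      _ ≤ 3210 * Real.exp (8 / 7 * ℓ) * E * a := by gcongr
      _ ≤ _ := by gcongr
  · rw [← Jc_nat, ← hn, hg1]
    have hC := S.C_ne
    have h3 : I0 = a * NN ℓ u + (I1 - I2) + (I0 - I1) := by
      rw [← hsub]; ring
    have h4 : g + S.C * I0 = S.C * a * (NN ℓ u + (g / S.C + (I1 - I2) + (I0 - I1)) / a) := by
      nth_rewrite 1 [h3]
      field_simp
      ring
    rw [h4]
    congr 1
    unfold CSad.C
    rw [Complex.exp_add]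
    push_cast
    ring

end Pool.Agent.StL
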