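import Pool.Agent.StL.NNa
import Pool.Agent.StL.Vf
import Pool.Agent.StL.JBase
import Pool.Agent.StL.JInt

open Complex Set Filter MeasureTheory Topology Metric
open scoped Real

namespace Pool.Agent.StL

open Pool.Agent.Stj

private lemma Phc_log2pi : 0 ≤ Real.log (2 * π) ∧ Real.log (2 * π) ≤ 2 := by
  have h3 := Real.pi_gt_three
  have h4 := Real.pi_lt_d2
  refine ⟨Real.log_nonneg (by linarith), ?_⟩
  rw [Real.log_le_iff_le_exp (by positivity)]
  have h5 : Real.exp 2 = Real.exp 1 * Real.exp 1 := by rw [← Real.exp_add]; norm_num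
  have h6 := Real.exp_one_gt_d9
  rw [h5]
  nlinarith

/-- the saddle equation in logarithmic form -/
private lemma Phc_saddle {u : ℂ} (S : CSad u) {n : ℕ} (hn : 0 < n) (hs : S.s = n) :
    u + Complex.log u = ((Real.log (n / (2 * π)) : ℝ) : ℂ) + I * π / 2 := by
  have hn' : (0 : ℝ) < n := by exact_mod_cast hn
  have hpi := Real.pi_pos
  have hpiC : (π : ℂ) ≠ 0 := by exact_mod_cast hpi.ne'
  have hu0 : u ≠ 0 := S.u_ne
  have h1 := S.s_eq
  rw [hs] at h1
  -- exp of both sides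
  have h2 : Complex.exp (u + Complex.log u) =
      Complex.exp (((Real.log (n / (2 * π)) : ℝ) : ℂ) + I * π / 2) := by
    rw [Complex.exp_add, Complex.exp_add, Complex.exp_log hu0, ← Complex.ofReal_exp,
      Real.exp_log (by positivity)]
    have h3 : Complex.exp (I * π / 2) = I := by
      rw [show I * π / 2 = π / 2 * I by ring, Complex.exp_pi_div_two_mul_I]
    rw [h3]
    push_cast
    rw [h1]
    have h4 : -(2 * (π : ℂ) * I) * u * Complex.exp u / (2 * π) * I =
        -(I * I) * (u * Complex.exp u) := by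
      field_simp
    rw [h4, Complex.I_mul_I]
    ring
  obtain ⟨k, hk⟩ := Complex.exp_eq_exp_iff_exists_int.1 h2
  have him := congrArg Complex.im hk
  have e1 : (((Real.log (n / (2 * π)) : ℝ) : ℂ) + I * π / 2 + k * (2 * π * I)).im =
      π / 2 + k * (2 * π) := by
    rw [show ((Real.log (n / (2 * π)) : ℝ) : ℂ) + I * π / 2 + k * (2 * π * I) =
      ((Real.log (n / (2 * π)) : ℝ) : ℂ) + ((π / 2 + k * (2 * π) : ℝ) : ℂ) * I by
        push_cast; ring]
    rw [Complex.add_im, Complex.ofReal_im, Complex.im_ofReal_mul, Complex.I_im]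
    ring
  rw [e1, Complex.add_im, Complex.log_im] at him
  have ha1 : 0 ≤ Complex.arg u := Complex.arg_nonneg_iff.2 S.huim.le
  have ha2 : |Complex.arg u| < π / 2 := Complex.abs_arg_lt_pi_div_two_iff.2 (Or.inl S.hure)
  rw [abs_lt] at ha2
  have hi1 := S.huim
  have hi2 := S.huim2
  have hk0 : k = 0 := by
    have h5 : -1 < (k : ℝ) := by
      by_contra hcon
      push Not at hcon
      nlinarith
    have h6 : (k : ℝ) < 1 := by
      by_contra hcon
      push Not at hcon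
      nlinarith
    have h5' : -1 < k := by exact_mod_cast h5
    have h6' : k < 1 := by exact_mod_cast h6
    omega
  rw [hk, hk0]
  push_cast
  ring

/-- trigonometric consequence of a tiny real part -/
private lemma Phc_cos {c δ : ℝ} (hc : 0 < c) {E η z : ℂ} {ρ : ℝ} (hρ0 : 0 ≤ ρ)
    (hδ0 : 0 ≤ δ) (hη : ‖η‖ ≤ ρ) (hρ1 : ρ ≤ 1)
    (hz : z = -c * Complex.exp E * (1 + η)) (hre : |z.re| ≤ ‖z‖ * δ) :
    |Real.cos E.im| ≤ ρ + 2 * δ := by
  have hE : ‖Complex.exp E‖ = Real.exp E.re := Complex.norm_exp E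
  have hEp := Real.exp_pos E.re
  have hn : ‖z‖ ≤ c * Real.exp E.re * 2 := by
    rw [hz, norm_mul, norm_mul, norm_neg, Complex.norm_real, Real.norm_of_nonneg hc.le, hE]
    gcongr
    refine (norm_add_le _ _).trans ?_
    rw [norm_one]
    linarith
  have hr : c * Real.exp E.re * (|Real.cos E.im| - ρ) ≤ |z.re| := by
    have h1 : z = ((-(c * Real.exp E.re) : ℝ) : ℂ) * (Complex.exp ((E.im : ℂ) * I) * (1 + η)) := by
      rw [hz]
      have h2 : Complex.exp E = (Real.exp E.re : ℂ) * Complex.exp ((E.im : ℂ) * I) := by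
        rw [Complex.ofReal_exp, ← Complex.exp_add, Complex.re_add_im]
      rw [h2]
      push_cast
      ring
    have h3 : z.re = -(c * Real.exp E.re) * (Complex.exp ((E.im : ℂ) * I) * (1 + η)).re := by
      conv_lhs => rw [h1]
      rw [Complex.re_ofReal_mul]
    have h4 : |(Complex.exp ((E.im : ℂ) * I) * η).re| ≤ ρ := by
      refine (Complex.abs_re_le_norm _).trans ?_
      rw [norm_mul, Complex.norm_exp_ofReal_mul_I, one_mul]
      exact hη
    have h5 : (Complex.exp ((E.im : ℂ) * I) * (1 + η)).re =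
        Real.cos E.im + (Complex.exp ((E.im : ℂ) * I) * η).re := by
      rw [mul_add, mul_one, Complex.add_re, Complex.exp_ofReal_mul_I_re]
    have h6 : |Real.cos E.im| - ρ ≤ |(Complex.exp ((E.im : ℂ) * I) * (1 + η)).re| := by
      rw [h5]
      have h7 := abs_sub_abs_le_abs_sub (Real.cos E.im) (-(Complex.exp ((E.im : ℂ) * I) * η).re)
      rw [abs_neg, sub_neg_eq_add] at h7
      linarith
    rw [h3, abs_mul, abs_neg, abs_of_pos (by positivity : 0 < c * Real.exp E.re)]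
    gcongr
  have h8 : c * Real.exp E.re * (|Real.cos E.im| - ρ) ≤ c * Real.exp E.re * (2 * δ) := by
    calc _ ≤ |z.re| := hr
      _ ≤ ‖z‖ * δ := hre
      _ ≤ c * Real.exp E.re * 2 * δ := by gcongr
      _ = _ := by ring
  have h9 := le_of_mul_le_mul_left h8 (by positivity)
  linarith

theorem near_int : ∃ ℓ0 : ℝ, ∀ ℓ : ℝ, ℓ0 ≤ ℓ → ∀ V : ℂ → ℂ, VOK ℓ V → ∀ n : ℕ,
    ℓ ≤ Real.log n → Real.log n ≤ (1 + 1 / 20) * ℓ → n ∈ ExS →
      ∃ m : ℤ, ‖ff ℓ V ((Real.log (n / (2 * π)) : ℝ) : ℂ) - m‖ ≤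
        Real.exp (-Real.exp (ℓ / 20)) := by
  obtain ⟨L1, hL1⟩ := NN_near
  obtain ⟨L2, hL2⟩ := J_base
  obtain ⟨L3, hL3⟩ := J_int
  refine ⟨max (max L1 L2) (max L3 1000), fun ℓ hℓ V hV n hn1 hn2 hnE => ?_⟩
  have hℓ1 : L1 ≤ ℓ := ((le_max_left _ _).trans (le_max_left _ _)).trans hℓ
  have hℓ2 : L2 ≤ ℓ := ((le_max_right _ _).trans (le_max_left _ _)).trans hℓ
  have hℓ3 : L3 ≤ ℓ := ((le_max_left _ _).trans (le_max_right _ _)).trans hℓ
  have hℓ4 : 1000 ≤ ℓ := ((le_max_right _ _).trans (le_max_right _ _)).trans hℓ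
  obtain ⟨hp0, hp2⟩ := Phc_log2pi
  have hpi := Real.pi_pos
  have hpiC : (π : ℂ) ≠ 0 := by exact_mod_cast hpi.ne'
  have hn0 : 0 < n := by
    rcases Nat.eq_zero_or_pos n with h | h
    · exfalso
      rw [h, Nat.cast_zero, Real.log_zero] at hn1
      linarith
    · exact h
  have hn0' : (0 : ℝ) < n := by exact_mod_cast hn0
  obtain ⟨u, S, hs, hu, he⟩ := hL2 ℓ hℓ2 n hn1 hn2
  obtain ⟨c, w, hc, hw, hJ⟩ := hL3 ℓ hℓ3 u S n hs hu he
  have hNN := hL1 ℓ hℓ1 u hu
  set ζ : ℝ := Real.log (n / (2 * π)) with hζ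
  have hζ' : ζ = Real.log n - Real.log (2 * π) := by
    rw [hζ, Real.log_div hn0'.ne' (by positivity)]
  have hu0 : u ≠ 0 := S.u_ne
  have hsad := Phc_saddle S hn0 hs
  rw [← hζ] at hsad
  have hball : (ζ : ℂ) ∈ ball (ℓ : ℂ) (ℓ / 8) := by
    rw [Metric.mem_ball, dist_eq_norm, ← Complex.ofReal_sub, Complex.norm_real,
      Real.norm_eq_abs, hζ', abs_lt]
    constructor <;> linarith
  have huV : u = V ζ := hV.uniq ζ hball u S.hure hsad
  -- the exponential of `EE`
  have hNN0 : NN ℓ u ≠ 0 := by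
    intro h
    rw [h, zero_sub, norm_neg, norm_one] at hNN
    norm_num at hNN
  have hNNn : 1 / 2 ≤ ‖NN ℓ u‖ := by
    have h1 := norm_sub_norm_le (1 : ℂ) (1 - NN ℓ u)
    rw [norm_one, sub_sub_cancel, norm_sub_rev] at h1
    linarith
  set E : ℂ := EE ℓ V ζ with hE
  have hexpE : Complex.exp E =
      Complex.exp (n * Complex.log u + 2 * π * I * Complex.exp u) * NN ℓ u := by
    rw [hE]
    unfold EE
    rw [← huV, Complex.exp_add, Complex.exp_log hNN0]
    congr 2
    have h1 : 2 * (π : ℂ) * Complex.exp ζ = n := by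
      rw [← Complex.ofReal_exp, hζ, Real.exp_log (by positivity)]
      push_cast
      field_simp
    have h2 := S.s_eq
    rw [hs] at h2
    rw [h1]
    have h3 : 2 * π * I * Complex.exp u = -(n / u) := by
      rw [h2]
      field_simp
    rw [h3]
    field_simp
    ring
  set η : ℂ := w / NN ℓ u with hη
  have hηn : ‖η‖ ≤ 2 * Real.exp (-Real.exp (ℓ / 16)) := by
    rw [hη, norm_div, div_le_iff₀ (by linarith)]
    have := Real.exp_pos (-Real.exp (ℓ / 16))
    nlinarith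
  have hJ2 : J n = -c * Complex.exp E * (1 + η) := by
    rw [hJ, hexpE, hη]
    field_simp
  have hsmall : Real.exp (-Real.exp (ℓ / 16)) ≤ 1 / 2 := by
    have h1 : (1 : ℝ) ≤ Real.exp (ℓ / 16) := Real.one_le_exp (by linarith)
    calc Real.exp (-Real.exp (ℓ / 16)) ≤ Real.exp (-1) := by
          rw [Real.exp_le_exp]; linarith
      _ ≤ 1 / 2 := by
          rw [Real.exp_neg, one_div]
          apply inv_anti₀ (by norm_num)
          have := Real.exp_one_gt_d9
          linarith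
  have hcos := Phc_cos hc (by positivity) (Real.exp_pos (-√(n : ℝ))).le hηn (by linarith) hJ2 hnE
  obtain ⟨k, hk⟩ := near_half_pi E.im
  refine ⟨k, ?_⟩
  -- `ff` at a real point
  have hff : ff ℓ V (ζ : ℂ) = ((E.im / π - 1 / 2 : ℝ) : ℂ) := by
    unfold ff
    rw [Complex.conj_ofReal, ← hE, Complex.sub_conj]
    push_cast
    field_simp
  rw [hff]
  have h1 : ((E.im / π - 1 / 2 : ℝ) : ℂ) - k = ((E.im / π - 1 / 2 - k : ℝ) : ℂ) := by push_cast; ring
  rw [h1, Complex.norm_real, Real.norm_eq_abs]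
  have h2 : E.im / π - 1 / 2 - k = (E.im - π / 2 - k * π) / π := by field_simp
  rw [h2, abs_div, abs_of_pos hpi, div_le_iff₀ hpi]
  refine hk.trans ?_
  -- estimates
  have hsq : Real.exp (ℓ / 2) ≤ √(n : ℝ) := by
    apply Real.le_sqrt_of_sq_le
    rw [← Real.exp_nat_mul, ← Real.le_log_iff_exp_le hn0']
    push_cast
    linarith
  have hA : Real.exp (-√(n : ℝ)) ≤ Real.exp (-Real.exp (ℓ / 16)) := by
    rw [Real.exp_le_exp]
    have : Real.exp (ℓ / 16) ≤ Real.exp (ℓ / 2) := by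
      rw [Real.exp_le_exp]; linarith
    linarith
  have hB : 2 * Real.exp (-Real.exp (ℓ / 16)) ≤ Real.exp (-Real.exp (ℓ / 20)) := by
    have h3 : Real.exp (ℓ / 20) + 1 ≤ Real.exp (ℓ / 16) := by
      have h4 : Real.exp (ℓ / 16) = Real.exp (ℓ / 20) * Real.exp (ℓ / 80) := by
        rw [← Real.exp_add]; congr 1; ring
      have h5 := Real.add_one_le_exp (ℓ / 80)
      have h6 : (1 : ℝ) ≤ Real.exp (ℓ / 20) := Real.one_le_exp (by linarith)
      rw [h4]
      nlinarith
    have h7 : (2 : ℝ) ≤ Real.exp 1 := by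
      have := Real.exp_one_gt_d9
      linarith
    calc 2 * Real.exp (-Real.exp (ℓ / 16)) ≤ Real.exp 1 * Real.exp (-Real.exp (ℓ / 16)) := by
          gcongr
      _ = Real.exp (1 + -Real.exp (ℓ / 16)) := by rw [Real.exp_add]
      _ ≤ _ := by
          rw [Real.exp_le_exp]
          linarith
  calc π / 2 * |Real.cos E.im|
      ≤ π / 2 * (2 * Real.exp (-Real.exp (ℓ / 16)) + 2 * Real.exp (-√(n : ℝ))) := by gcongr
    _ ≤ π / 2 * (2 * Real.exp (-Real.exp (ℓ / 16)) + 2 * Real.exp (-Real.exp (ℓ / 16))) := by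
        gcongr
    _ = 2 * Real.exp (-Real.exp (ℓ / 16)) * π := by ring
    _ ≤ Real.exp (-Real.exp (ℓ / 20)) * π := by gcongr

end Pool.Agent.StL
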