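import Pool.Agent.StL.Main
import Pool.Agent.StL.Pha
import Pool.Agent.StL.Phb
import Pool.Agent.StL.Phc
import Pool.Agent.StL.LRe

open Complex Set Filter MeasureTheory Topology Metric
open scoped Real

namespace Pool.Agent.StL

open Pool.Agent.Stj

/-- the phase function satisfies everything needed -/
lemma exists_FOK : ∃ ℓ0 : ℝ, ∀ ℓ : ℝ, ℓ0 ≤ ℓ → ∃ f : ℂ → ℂ, FOK ℓ f ∧ ∀ n : ℕ,
    ℓ ≤ Real.log n → Real.log n ≤ (1 + 1 / 20) * ℓ → n ∈ ExS →
      ∃ m : ℤ, ‖f ((Real.log (n / (2 * π)) : ℝ) : ℂ) - m‖ ≤ Real.exp (-Real.exp (ℓ / 20)) := by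
  obtain ⟨ℓ1, h1⟩ := exists_V
  obtain ⟨ℓ2, h2⟩ := ff_diff
  obtain ⟨ℓ3, h3⟩ := ff_bound
  obtain ⟨ℓ4, h4⟩ := ff_sep
  obtain ⟨ℓ5, h5⟩ := near_int
  refine ⟨max ℓ1 (max ℓ2 (max ℓ3 (max ℓ4 ℓ5))), fun ℓ hℓ => ?_⟩
  simp only [max_le_iff] at hℓ
  obtain ⟨a1, a2, a3, a4, a5⟩ := hℓ
  obtain ⟨V, hV⟩ := h1 ℓ a1
  exact ⟨ff ℓ V, ⟨h2 ℓ a2 V hV, h3 ℓ a3 V hV, h4 ℓ a4 V hV⟩, h5 ℓ a5 V hV⟩

/-- number of exceptional integers in a long interval -/
lemma block : ∃ c : ℝ, 0 < c ∧ ∃ ℓ0 : ℝ, ∀ ℓ : ℝ, ℓ0 ≤ ℓ → ∀ S : Finset ℕ,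
    (∀ n ∈ S, n ∈ ExS ∧ ℓ ≤ Real.log n ∧ Real.log n ≤ (1 + c) * ℓ) → (S.card : ℝ) ≤ ℓ ^ 2 := by
  obtain ⟨c, hc0, hc1, ℓ1, h1⟩ := main_count
  obtain ⟨ℓ2, h2⟩ := exists_FOK
  refine ⟨c, hc0, max (max ℓ1 ℓ2) 0, fun ℓ hℓ S hS => ?_⟩
  have a1 : ℓ1 ≤ ℓ := ((le_max_left _ _).trans (le_max_left _ _)).trans hℓ
  have a2 : ℓ2 ≤ ℓ := ((le_max_right _ _).trans (le_max_left _ _)).trans hℓ
  have a3 : 0 ≤ ℓ := (le_max_right _ _).trans hℓ
  obtain ⟨f, hf, hf2⟩ := h2 ℓ a2
  apply h1 ℓ a1 f hf S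
  intro n hn
  obtain ⟨b1, b2, b3⟩ := hS n hn
  refine ⟨b2, b3, hf2 n b2 (b3.trans ?_) b1⟩
  gcongr

/-- counting function of the exceptional set -/
theorem ExS_count : ∃ C : ℝ, ∀ N : ℕ, 2 ≤ N →
    ({n : ℕ | n ∈ ExS ∧ n ≤ N}.ncard : ℝ) ≤ C * Real.log N ^ 2 := by
  obtain ⟨c, hc0, ℓ1, h1⟩ := block
  set L0 := max ℓ1 0 with hL0
  have hL00 : 0 ≤ L0 := le_max_right _ _
  set B : ℝ := Real.exp ((1 + c) * L0) + 1 with hB
  have hB0 : 0 < B := by positivity
  set C0 : ℝ := 1 / ((1 + c) ^ 2 - 1) with hC0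
  have hc2 : 0 < (1 + c) ^ 2 - 1 := by nlinarith
  have hC00 : 0 < C0 := by positivity
  have hfin : ∀ N : ℕ, {n : ℕ | n ∈ ExS ∧ n ≤ N}.Finite := fun N =>
    (Set.finite_Iic N).subset fun n hn => hn.2
  have key : ∀ N : ℕ, ({n : ℕ | n ∈ ExS ∧ n ≤ N}.ncard : ℝ) ≤ B + C0 * Real.log N ^ 2 := by
    intro N
    induction N using Nat.strong_induction_on with
    | _ N ih =>
      rcases le_or_gt (Real.log N) ((1 + c) * L0) with hsmall | hlarge
      · have h2 : ({n : ℕ | n ∈ ExS ∧ n ≤ N}.ncard : ℝ) ≤ N + 1 := by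
          have h3 : {n : ℕ | n ∈ ExS ∧ n ≤ N}.ncard ≤ (Set.Iic N).ncard :=
            Set.ncard_le_ncard (fun n hn => hn.2) (Set.finite_Iic N)
          have h4 : (Set.Iic N).ncard = N + 1 := by
            rw [Set.ncard_eq_toFinset_card']
            simp
          rw [h4] at h3
          exact_mod_cast h3
        have h5 : (N : ℝ) ≤ Real.exp ((1 + c) * L0) := by
          rcases Nat.eq_zero_or_pos N with h0 | h0
          · rw [h0, Nat.cast_zero]
            positivity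
          · have h0r : (0 : ℝ) < N := by exact_mod_cast h0
            rwa [Real.log_le_iff_le_exp h0r] at hsmall
        have h6 : 0 ≤ C0 * Real.log N ^ 2 := by positivity
        linarith
      · set ℓ : ℝ := Real.log N / (1 + c) with hℓ
        have hlogN : 0 < Real.log N := lt_of_le_of_lt (by positivity) hlarge
        have hNpos : (0 : ℝ) < N := by
          rcases Nat.eq_zero_or_pos N with h0 | h0
          · rw [h0] at hlogN
            simp at hlogN
          · exact_mod_cast h0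
        have hℓL : L0 ≤ ℓ := by
          rw [hℓ, le_div_iff₀ (by linarith)]
          linarith
        have hℓ1 : ℓ1 ≤ ℓ := (le_max_left _ _).trans hℓL
        have hℓ0 : 0 ≤ ℓ := hL00.trans hℓL
        have hℓlog : (1 + c) * ℓ = Real.log N := by
          rw [hℓ]
          field_simp
        have hℓlt : ℓ < Real.log N := by
          rw [← hℓlog]
          have : 0 < ℓ := by
            rw [hℓ]
            positivity
          nlinarith
        set N' : ℕ := ⌊Real.exp ℓ⌋₊ with hN'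
        have hN'le : (N' : ℝ) ≤ Real.exp ℓ := Nat.floor_le (Real.exp_pos _).le
        have hN'lt : N' < N := by
          have h2 : Real.exp ℓ < N := by
            rwa [Real.lt_log_iff_exp_lt hNpos] at hℓlt
          exact_mod_cast hN'le.trans_lt h2
        have hN'1 : 1 ≤ N' := by
          rw [hN', Nat.one_le_floor_iff]
          exact Real.one_le_exp hℓ0
        have hlogN' : Real.log N' ≤ ℓ := by
          rw [Real.log_le_iff_le_exp (by exact_mod_cast hN'1)]
          exact hN'le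
        have hlogN'0 : 0 ≤ Real.log N' := Real.log_natCast_nonneg _
        set T : Set ℕ := {n : ℕ | n ∈ ExS ∧ ℓ ≤ Real.log n ∧ n ≤ N} with hT
        have hTfin : T.Finite := (Set.finite_Iic N).subset fun n hn => hn.2.2
        have hsub : {n : ℕ | n ∈ ExS ∧ n ≤ N} ⊆ {n : ℕ | n ∈ ExS ∧ n ≤ N'} ∪ T := by
          intro n hn
          rcases le_or_gt ℓ (Real.log n) with h2 | h2
          · right
            exact ⟨hn.1, h2, hn.2⟩
          · left
            refine ⟨hn.1, ?_⟩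
            rcases Nat.eq_zero_or_pos n with h0 | h0
            · rw [h0]
              exact Nat.zero_le _
            · have h0r : (0 : ℝ) < n := by exact_mod_cast h0
              rw [Real.log_lt_iff_lt_exp h0r] at h2
              exact Nat.le_floor h2.le
        have h2 : ({n : ℕ | n ∈ ExS ∧ n ≤ N}.ncard : ℝ) ≤
            {n : ℕ | n ∈ ExS ∧ n ≤ N'}.ncard + T.ncard := by
          have h3 := (Set.ncard_le_ncard hsub ((hfin N').union hTfin)).trans
            (Set.ncard_union_le _ _)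
          exact_mod_cast h3
        have h3 := ih N' hN'lt
        have h4 : (T.ncard : ℝ) ≤ ℓ ^ 2 := by
          rw [Set.ncard_eq_toFinset_card T hTfin]
          apply h1 ℓ hℓ1
          intro n hn
          rw [Set.Finite.mem_toFinset] at hn
          refine ⟨hn.1, hn.2.1, ?_⟩
          rw [hℓlog]
          have h5 : 0 < n := by
            rcases Nat.eq_zero_or_pos n with h0 | h0
            · exfalso
              have h6 := hn.2.1
              rw [h0] at h6
              simp at h6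
              have h7 : ℓ = 0 := le_antisymm h6 hℓ0
              rw [h7] at hℓlog
              simp at hℓlog
              linarith
            · exact h0
          apply Real.log_le_log (by exact_mod_cast h5)
          exact_mod_cast hn.2.2
        have h5 : C0 * Real.log N' ^ 2 ≤ C0 * ℓ ^ 2 := by
          gcongr
        have h6 : B + C0 * ℓ ^ 2 + ℓ ^ 2 = B + C0 * Real.log N ^ 2 := by
          rw [← hℓlog, hC0]
          field_simp
          ring
        linarith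
  refine ⟨B / Real.log 2 ^ 2 + C0, fun N hN => ?_⟩
  have hlog2 : 0 < Real.log 2 := Real.log_pos (by norm_num)
  have h2 : Real.log 2 ≤ Real.log N := Real.log_le_log (by norm_num) (by exact_mod_cast hN)
  have h3 : B ≤ B / Real.log 2 ^ 2 * Real.log N ^ 2 := by
    rw [div_mul_eq_mul_div, le_div_iff₀ (by positivity)]
    gcongr
  have := key N
  rw [add_mul]
  linarith

theorem log_square : ∃ γ : ℕ → ℝ,
    (∀ n : ℕ, Tendsto (fun N : ℕ => (∑ k ∈ Finset.Icc 1 N, Real.log k ^ n / k) -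
      Real.log N ^ (n + 1) / (n + 1)) atTop (𝓝 (γ n))) ∧
    ∀ δ : ℝ, 0 < δ → ∃ C : ℝ, ∀ N : ℕ, 2 ≤ N →
      ({n : ℕ | n ≤ N ∧ |γ n| < Real.exp (n * (Real.log (Real.log n) - δ))}.ncard : ℝ) ≤
        C * Real.log N ^ 2 := by
  refine ⟨fun n => -(π / (n + 1)) * (J (n + 1)).re, tendsto_stieltjes, fun δ hδ => ?_⟩
  obtain ⟨C, hC⟩ := ExS_count
  obtain ⟨n0, hn0⟩ := large_of_re_sqrt δ hδ
  have hlog2 : 0 < Real.log 2 := Real.log_pos (by norm_num)
  refine ⟨n0 / Real.log 2 ^ 2 + 4 * C, fun N hN => ?_⟩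
  have hNr : (2 : ℝ) ≤ N := by exact_mod_cast hN
  have hlogN : Real.log 2 ≤ Real.log N := Real.log_le_log (by norm_num) hNr
  set A : Set ℕ := {n : ℕ | n ≤ N ∧ |-(π / (n + 1)) * (J (n + 1)).re| <
    Real.exp (n * (Real.log (Real.log n) - δ))} with hA
  set B : Set ℕ := {n : ℕ | n ∈ ExS ∧ n ≤ N + 1} with hB
  have hBfin : B.Finite := (Set.finite_Iic (N + 1)).subset fun n hn => hn.2
  have hsub : A ⊆ Set.Iio n0 ∪ (fun n => n - 1) '' B := by
    intro n hn
    by_cases hlt : n < n0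
    · left; exact hlt
    · right
      push Not at hlt
      refine ⟨n + 1, ⟨?_, by have := hn.1; omega⟩, by simp⟩
      by_contra hcon
      have h3 := hn0 n hlt hcon
      exact absurd hn.2 (not_lt.2 h3)
  have h1 : A.ncard ≤ n0 + B.ncard := by
    refine (Set.ncard_le_ncard hsub ((Set.finite_Iio _).union (hBfin.image _))).trans ?_
    refine (Set.ncard_union_le _ _).trans ?_
    apply Nat.add_le_add
    · rw [Set.ncard_eq_toFinset_card' (Set.Iio n0)]
      simp
    · exact Set.ncard_image_le hBfin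
  have h2 : (B.ncard : ℝ) ≤ C * Real.log ((N + 1 : ℕ) : ℝ) ^ 2 := hC (N + 1) (by omega)
  have hC0 : 0 ≤ C := by
    have h3 := hC 2 le_rfl
    have h4 : (0 : ℝ) ≤ ({n : ℕ | n ∈ ExS ∧ n ≤ 2}.ncard : ℝ) := Nat.cast_nonneg _
    by_contra hneg
    push Not at hneg
    have h5 : C * Real.log ((2 : ℕ) : ℝ) ^ 2 < 0 := by
      apply mul_neg_of_neg_of_pos hneg
      push_cast
      positivity
    linarith
  have h3 : Real.log ((N + 1 : ℕ) : ℝ) ≤ 2 * Real.log N := by
    rw [show 2 * Real.log N = Real.log ((N : ℝ) ^ 2) by rw [Real.log_pow]; push_cast; ring]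
    apply Real.log_le_log (by positivity)
    push_cast
    nlinarith
  have h4 : 0 ≤ Real.log ((N + 1 : ℕ) : ℝ) := Real.log_natCast_nonneg _
  have h5 : C * Real.log ((N + 1 : ℕ) : ℝ) ^ 2 ≤ 4 * C * Real.log N ^ 2 := by
    calc C * Real.log ((N + 1 : ℕ) : ℝ) ^ 2 ≤ C * (2 * Real.log N) ^ 2 := by gcongr
      _ = _ := by ring
  have h6 : (A.ncard : ℝ) ≤ n0 + B.ncard := by exact_mod_cast h1
  have h7 : (n0 : ℝ) ≤ n0 / Real.log 2 ^ 2 * Real.log N ^ 2 := by
    rw [div_mul_eq_mul_div, le_div_iff₀ (by positivity)]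
    gcongr
  rw [add_mul]
  linarith

end Pool.Agent.StL
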