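import Mathlib

open Complex Set Filter MeasureTheory Topology Metric
open scoped Real

namespace Pool.Agent.StL

private lemma Corr_log2pi : 0 ≤ Real.log (2 * π) ∧ Real.log (2 * π) ≤ 2 := by
  have h3 := Real.pi_gt_three
  have h4 := Real.pi_lt_d2
  refine ⟨Real.log_nonneg (by linarith), ?_⟩
  rw [Real.log_le_iff_le_exp (by positivity)]
  have h5 : Real.exp 2 = Real.exp 1 * Real.exp 1 := by rw [← Real.exp_add]; norm_num
  have h6 := Real.exp_one_gt_d9
  rw [h5]
  nlinarith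

private lemma Corr_sep_aux {a b : ℕ} (ha : 0 < a) (hab : a < b) :
    1 / (b : ℝ) ≤ Real.log b - Real.log a := by
  have ha' : (0 : ℝ) < a := by exact_mod_cast ha
  have hb' : (0 : ℝ) < b := by exact_mod_cast (ha.trans hab)
  have h1 : ((a : ℝ) + 1) ≤ b := by exact_mod_cast hab
  have h2 := Real.one_sub_inv_le_log_of_pos (show (0 : ℝ) < b / a by positivity)
  rw [Real.log_div hb'.ne' ha'.ne', inv_div] at h2
  refine le_trans ?_ h2
  rw [div_le_iff₀ hb', sub_mul, div_mul_cancel₀ _ hb'.ne']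
  linarith

private lemma Corr_sep {a b : ℕ} (ha : 0 < a) (hb : 0 < b) (hab : a ≠ b) {L : ℝ}
    (hLa : Real.log a ≤ L) (hLb : Real.log b ≤ L) :
    Real.exp (-L) ≤ |Real.log a - Real.log b| := by
  have ha' : (0 : ℝ) < a := by exact_mod_cast ha
  have hb' : (0 : ℝ) < b := by exact_mod_cast hb
  have key : ∀ c : ℕ, (0 : ℝ) < c → Real.log c ≤ L → Real.exp (-L) ≤ 1 / (c : ℝ) := by
    intro c hc hL
    rw [Real.exp_neg, one_div]
    apply inv_anti₀ hc
    rwa [← Real.log_le_iff_le_exp hc]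
  rcases lt_or_gt_of_ne hab with h | h
  · rw [abs_sub_comm]
    exact (key b hb' hLb).trans ((Corr_sep_aux ha h).trans (le_abs_self _))
  · exact (key a ha' hLa).trans ((Corr_sep_aux hb h).trans (le_abs_self _))

/-- small corrections by a polynomial -/
theorem exists_corr' : ∃ ℓ0 : ℝ, ∀ ℓ : ℝ, ℓ0 ≤ ℓ → ∀ K : ℕ, (K : ℝ) ≤ ℓ ^ 2 + 1 →
    ∀ n : Fin K → ℕ, Function.Injective n →
    (∀ i, ℓ ≤ Real.log (n i) ∧ Real.log (n i) ≤ 2 * ℓ) →
    ∀ ε : Fin K → ℂ, (∀ i, ‖ε i‖ ≤ Real.exp (-Real.exp (ℓ / 20))) →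
      ∃ P : Polynomial ℂ,
        (∀ i, P.eval ((Real.log ((n i : ℝ) / (2 * π)) : ℝ) : ℂ) = ε i) ∧
        ∀ ζ : ℂ, ‖ζ - ℓ‖ ≤ ℓ → ‖P.eval ζ‖ ≤ 1 / 4 := by
  refine ⟨10 ^ 8, fun ℓ hℓ K hK n hinj hn ε hε => ?_⟩
  have hℓ0 : 0 < ℓ := lt_of_lt_of_le (by norm_num) hℓ
  have hℓ1 : 1 ≤ ℓ := le_trans (by norm_num) hℓ
  have hpos : ∀ i, 0 < n i := by
    intro i
    rcases Nat.eq_zero_or_pos (n i) with h | h
    · exfalso
      have h1 := (hn i).1
      rw [h, Nat.cast_zero, Real.log_zero] at h1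
      linarith
    · exact h
  have hpos' : ∀ i, (0 : ℝ) < n i := fun i => by exact_mod_cast hpos i
  obtain ⟨hp0, hp2⟩ := Corr_log2pi
  set x : Fin K → ℝ := fun i => Real.log ((n i : ℝ) / (2 * π)) with hx
  have hx' : ∀ i, x i = Real.log (n i) - Real.log (2 * π) := by
    intro i
    simp only [hx]
    rw [Real.log_div (hpos' i).ne' (by positivity)]
  have hsep : ∀ i j, i ≠ j → Real.exp (-(2 * ℓ)) ≤ |x i - x j| := by
    intro i j hij
    have h1 := Corr_sep (hpos i) (hpos j) (fun h => hij (hinj h)) (hn i).2 (hn j).2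
    rw [hx' i, hx' j]
    refine h1.trans (le_of_eq ?_)
    congr 1
    ring
  have hne : ∀ i j, i ≠ j → ((x i : ℂ) - x j) ≠ 0 := by
    intro i j hij h0
    have h1 := hsep i j hij
    have h2 : x i - x j = 0 := by exact_mod_cast h0
    rw [h2, abs_zero] at h1
    have := Real.exp_pos (-(2 * ℓ))
    linarith
  have hinvn : ∀ i j, i ≠ j → ‖((x i : ℂ) - x j)⁻¹‖ ≤ Real.exp (2 * ℓ) := by
    intro i j hij
    rw [norm_inv, ← Complex.ofReal_sub, Complex.norm_real, Real.norm_eq_abs]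
    have h1 := hsep i j hij
    rw [Real.exp_neg] at h1
    rw [inv_le_comm₀ (lt_of_lt_of_le (by positivity) h1) (Real.exp_pos _)]
    exact h1
  refine ⟨∑ j, Polynomial.C (ε j) * ∏ i ∈ Finset.univ.erase j,
    Polynomial.C ((x j : ℂ) - x i)⁻¹ * (Polynomial.X - Polynomial.C (x i : ℂ)), ?_, ?_⟩
  · intro j
    change Polynomial.eval (x j : ℂ) _ = ε j
    rw [Polynomial.eval_finsetSum, Finset.sum_eq_single j]
    · rw [Polynomial.eval_mul, Polynomial.eval_C, Polynomial.eval_prod]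
      rw [Finset.prod_eq_one, mul_one]
      intro i hi
      have h1 := hne j i (Finset.ne_of_mem_erase hi).symm
      simp only [Polynomial.eval_mul, Polynomial.eval_C, Polynomial.eval_sub, Polynomial.eval_X]
      exact inv_mul_cancel₀ h1
    · intro j' _ hj'
      rw [Polynomial.eval_mul, Polynomial.eval_prod, Finset.prod_eq_zero (i := j), mul_zero]
      · exact Finset.mem_erase.2 ⟨hj'.symm, Finset.mem_univ _⟩
      · simp
    · intro h0
      exact absurd (Finset.mem_univ j) h0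
  · intro ζ hζ
    have hB1 : (1 : ℝ) ≤ Real.exp (4 * ℓ + 1) := Real.one_le_exp (by linarith)
    have hdist : ∀ i, ‖ζ - (x i : ℂ)‖ ≤ 2 * ℓ + 2 := by
      intro i
      have h1 : ζ - (x i : ℂ) = (ζ - ℓ) + ((ℓ - x i : ℝ) : ℂ) := by push_cast; ring
      rw [h1]
      refine (norm_add_le _ _).trans ?_
      rw [Complex.norm_real, Real.norm_eq_abs]
      have h2 : |ℓ - x i| ≤ ℓ + 2 := by
        rw [hx' i, abs_le]
        have := hn i
        constructor <;> linarith [this.1, this.2]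
      linarith
    have hfac : ∀ j, ∀ i ∈ Finset.univ.erase j, ‖((x j : ℂ) - x i)⁻¹ * (ζ - (x i : ℂ))‖ ≤
        Real.exp (4 * ℓ + 1) := by
      intro j i hi
      rw [norm_mul]
      have h1 := hinvn j i (Finset.ne_of_mem_erase hi).symm
      have h2 := hdist i
      have h3 : 2 * ℓ + 2 ≤ Real.exp (2 * ℓ + 1) := by
        have := Real.add_one_le_exp (2 * ℓ + 1)
        linarith
      calc _ ≤ Real.exp (2 * ℓ) * Real.exp (2 * ℓ + 1) := by
            gcongr
            exact h2.trans h3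
        _ = Real.exp (4 * ℓ + 1) := by rw [← Real.exp_add]; congr 1; ring
    have hterm : ∀ j, ‖Polynomial.eval ζ (Polynomial.C (ε j) * ∏ i ∈ Finset.univ.erase j,
        Polynomial.C ((x j : ℂ) - x i)⁻¹ * (Polynomial.X - Polynomial.C (x i : ℂ)))‖ ≤
        Real.exp (-Real.exp (ℓ / 20)) * Real.exp (4 * ℓ + 1) ^ K := by
      intro j
      rw [Polynomial.eval_mul, Polynomial.eval_C, Polynomial.eval_prod, norm_mul, norm_prod]
      have h1 : ∏ i ∈ Finset.univ.erase j, ‖Polynomial.eval ζ (Polynomial.C ((x j : ℂ) - x i)⁻¹ *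
          (Polynomial.X - Polynomial.C (x i : ℂ)))‖ ≤ Real.exp (4 * ℓ + 1) ^ K := by
        calc _ ≤ ∏ i ∈ Finset.univ.erase j, Real.exp (4 * ℓ + 1) := by
              apply Finset.prod_le_prod (fun i _ => norm_nonneg _)
              intro i hi
              simp only [Polynomial.eval_mul, Polynomial.eval_C, Polynomial.eval_sub,
                Polynomial.eval_X]
              exact hfac j i hi
          _ = Real.exp (4 * ℓ + 1) ^ (Finset.univ.erase j).card := by
              rw [Finset.prod_const]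
          _ ≤ _ := by
              apply pow_le_pow_right₀ hB1
              refine Finset.card_erase_le.trans ?_
              simp
      have h2 := hε j
      gcongr
    have hsum : ‖Polynomial.eval ζ (∑ j, Polynomial.C (ε j) * ∏ i ∈ Finset.univ.erase j,
        Polynomial.C ((x j : ℂ) - x i)⁻¹ * (Polynomial.X - Polynomial.C (x i : ℂ)))‖ ≤
        K * (Real.exp (-Real.exp (ℓ / 20)) * Real.exp (4 * ℓ + 1) ^ K) := by
      rw [Polynomial.eval_finsetSum]
      refine (norm_sum_le _ _).trans ?_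
      calc _ ≤ ∑ j : Fin K, (Real.exp (-Real.exp (ℓ / 20)) * Real.exp (4 * ℓ + 1) ^ K) :=
            Finset.sum_le_sum (fun j _ => hterm j)
        _ = _ := by rw [Finset.sum_const, nsmul_eq_mul, Finset.card_univ, Fintype.card_fin]
    refine hsum.trans ?_
    have hKe : (K : ℝ) ≤ Real.exp (ℓ ^ 2) := hK.trans (Real.add_one_le_exp _)
    have hpow : Real.exp (4 * ℓ + 1) ^ K ≤ Real.exp ((4 * ℓ + 1) * (ℓ ^ 2 + 1)) := by
      rw [← Real.exp_nat_mul, Real.exp_le_exp]
      rw [mul_comm]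
      gcongr
    have hbig : ℓ ^ 2 + (4 * ℓ + 1) * (ℓ ^ 2 + 1) + 2 ≤ Real.exp (ℓ / 20) := by
      have h1 := Real.pow_div_factorial_le_exp (ℓ / 20) (by positivity) 4
      have h2 : ((Nat.factorial 4 : ℕ) : ℝ) = 24 := by norm_num [Nat.factorial]
      rw [h2] at h1
      refine le_trans ?_ h1
      have e1 : (ℓ / 20) ^ 4 / 24 = ℓ * ℓ ^ 3 / 3840000 := by ring
      rw [e1]
      have h3 : 10 ^ 8 * ℓ ^ 3 ≤ ℓ * ℓ ^ 3 := by gcongr
      have h4 : ℓ ^ 2 ≤ ℓ ^ 3 := pow_le_pow_right₀ hℓ1 (by norm_num)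
      have h5 : ℓ ≤ ℓ ^ 3 := le_self_pow₀ hℓ1 (by norm_num)
      have h6 : 1 ≤ ℓ ^ 3 := one_le_pow₀ hℓ1
      nlinarith
    calc K * (Real.exp (-Real.exp (ℓ / 20)) * Real.exp (4 * ℓ + 1) ^ K)
        ≤ Real.exp (ℓ ^ 2) * (Real.exp (-Real.exp (ℓ / 20)) *
          Real.exp ((4 * ℓ + 1) * (ℓ ^ 2 + 1))) := by gcongr
      _ = Real.exp (ℓ ^ 2 + (-Real.exp (ℓ / 20) + (4 * ℓ + 1) * (ℓ ^ 2 + 1))) := by
          rw [Real.exp_add, Real.exp_add]
      _ ≤ Real.exp (-2) := by
          rw [Real.exp_le_exp]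
          linarith
      _ ≤ 1 / 4 := by
          rw [Real.exp_neg, one_div]
          apply inv_anti₀ (by norm_num)
          have h5 : Real.exp 2 = Real.exp 1 * Real.exp 1 := by rw [← Real.exp_add]; norm_num
          have h6 := Real.exp_one_gt_d9
          rw [h5]
          nlinarith

end Pool.Agent.StL
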