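import Mathlib
import Pool.Agent.Stj.Few

open Complex Set Filter MeasureTheory Topology Metric
open scoped Real

namespace Pool.Agent.StL

open Pool.Agent.Stj

/-- exponent of the local integral at the saddle point `u`, in the variable `y` -/
noncomputable def qe (u y : ℂ) : ℂ :=
  2 * π * I * Complex.exp u * (y - u * Complex.log (1 + Complex.log (1 + y) / u))

/-- scaled direction of integration: `gg ^ 2 = I * exp (-u) * u / ℓ` -/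
noncomputable def gg (ℓ : ℝ) (u : ℂ) : ℂ :=
  Complex.exp (I * π / 4 - u / 2 + Complex.log (u / ℓ) / 2)

/-- the truncated local integral -/
noncomputable def NN (ℓ : ℝ) (u : ℂ) : ℂ :=
  ∫ τ in (-Real.exp (ℓ / 8))..Real.exp (ℓ / 8), Complex.exp (qe u (τ * gg ℓ u))

/-- `V` is the inverse function of `u ↦ u + log u - I π / 2` on the ball of radius `ℓ / 8`. -/
structure VOK (ℓ : ℝ) (V : ℂ → ℂ) : Prop where
  near : ∀ ζ ∈ ball (ℓ : ℂ) (ℓ / 8), ‖V ζ - ℓ‖ < ℓ / 7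
  eq : ∀ ζ ∈ ball (ℓ : ℂ) (ℓ / 8), V ζ + Complex.log (V ζ) = ζ + I * π / 2
  der : ∀ ζ ∈ ball (ℓ : ℂ) (ℓ / 8), HasDerivAt V (V ζ / (V ζ + 1)) ζ
  uniq : ∀ ζ ∈ ball (ℓ : ℂ) (ℓ / 8), ∀ u : ℂ, 0 < u.re →
    u + Complex.log u = ζ + I * π / 2 → u = V ζ

/-- the logarithm of the main part of `J`, as a function of `ζ = log (n / 2π)` -/
noncomputable def EE (ℓ : ℝ) (V : ℂ → ℂ) (ζ : ℂ) : ℂ :=
  2 * π * Complex.exp ζ * (Complex.log (V ζ) - 1 / V ζ) + Complex.log (NN ℓ (V ζ))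

/-- `Im (EE) / π - 1 / 2`, continued analytically from the real axis -/
noncomputable def ff (ℓ : ℝ) (V : ℂ → ℂ) (ζ : ℂ) : ℂ :=
  (EE ℓ V ζ - (starRingEnd ℂ) (EE ℓ V ((starRingEnd ℂ) ζ))) / (2 * π * I) - 1 / 2

/-- what the counting argument needs of the function `f` -/
structure FOK (ℓ : ℝ) (f : ℂ → ℂ) : Prop where
  diff : DifferentiableOn ℂ f (ball (ℓ : ℂ) (ℓ / 8))
  bound : ∀ ζ ∈ ball (ℓ : ℂ) (ℓ / 8), ‖f ζ‖ ≤ Real.exp ζ.re / 2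
  sep : ∀ z ∈ ball (ℓ : ℂ) (ℓ / 8), ∀ w ∈ ball (ℓ : ℂ) (ℓ / 8), z.re = ℓ →
    ∀ k : ℤ, k ≠ 0 → w = z + 2 * π * I * k → Real.exp ℓ / ℓ ^ 2 ≤ ‖f w - f z‖

/-- the exceptional set -/
def ExS : Set ℕ := {n | |(J n).re| ≤ ‖J n‖ * Real.exp (-√(n : ℝ))}

end Pool.Agent.StL
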