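import Mathlib

open Complex Set Filter MeasureTheory Topology Metric
open scoped Real

namespace Pool.Agent.StL

/-- an analytic function with many zeros near the centre is small -/
theorem many_zeros (c : ℂ) (r R ρ ρ' : ℝ) (hr : 0 ≤ r) (hrρ : r < ρ) (hR : 0 ≤ R)
    (hRρ : R ≤ ρ) (hρ : ρ < ρ') (G : ℂ → ℂ) (hG : DifferentiableOn ℂ G (ball c ρ')) (M : ℝ)
    (hM : ∀ z, ‖z - c‖ = ρ → ‖G z‖ ≤ M) (S : Finset ℂ)
    (hS : ∀ a ∈ S, ‖a - c‖ ≤ r ∧ G a = 0) (z : ℂ) (hz : ‖z - c‖ ≤ R) :
    ‖G z‖ ≤ M * ((R + r) / (ρ - r)) ^ S.card := by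
  have hρ0 : 0 < ρ := lt_of_le_of_lt hr hrρ
  have hd : 0 < ρ - r := by linarith
  induction S using Finset.induction_on generalizing G M with
  | empty =>
    have hcl : DiffContOnCl ℂ G (ball c ρ) := by
      apply DifferentiableOn.diffContOnCl
      rw [closure_ball c hρ0.ne']
      exact hG.mono (closedBall_subset_ball hρ)
    have hz' : z ∈ closure (ball c ρ) := by
      rw [closure_ball c hρ0.ne']
      rw [mem_closedBall, dist_eq_norm]
      linarith
    have h := Complex.norm_le_of_forall_mem_frontier_norm_le (U := ball c ρ) isBounded_ball hcl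
      (C := M) (by
        intro w hw
        rw [frontier_ball c hρ0.ne'] at hw
        apply hM
        rw [mem_sphere, dist_eq_norm] at hw
        exact hw) hz'
    simpa using h
  | insert a S' ha ih =>
    have haS := hS a (Finset.mem_insert_self a S')
    have hab : a ∈ ball c ρ' := by
      rw [mem_ball, dist_eq_norm]
      linarith [haS.1]
    have hG1 : DifferentiableOn ℂ (dslope G a) (ball c ρ') :=
      (Complex.differentiableOn_dslope (isOpen_ball.mem_nhds hab)).2 hG
    have key : ∀ w, G w = (w - a) * dslope G a w := by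
      intro w
      have h := sub_smul_dslope G a w
      rw [haS.2, sub_zero, smul_eq_mul] at h
      exact h.symm
    have h1 := ih (dslope G a) hG1 (M / (ρ - r)) (by
        intro w hw
        have h2 : ρ - r ≤ ‖w - a‖ := by
          have h3 : ‖w - c‖ ≤ ‖w - a‖ + ‖a - c‖ := by
            have : w - c = (w - a) + (a - c) := by ring
            rw [this]
            exact norm_add_le _ _
          linarith [haS.1]
        rw [le_div_iff₀ hd]
        have h4 := hM w hw
        rw [key w, norm_mul] at h4
        calc ‖dslope G a w‖ * (ρ - r) ≤ ‖dslope G a w‖ * ‖w - a‖ :=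
              mul_le_mul_of_nonneg_left h2 (norm_nonneg _)
          _ = ‖w - a‖ * ‖dslope G a w‖ := mul_comm _ _
          _ ≤ M := h4) (by
        intro b hb
        have hbS := hS b (Finset.mem_insert_of_mem hb)
        refine ⟨hbS.1, ?_⟩
        have h5 := key b
        rw [hbS.2] at h5
        have hne : b - a ≠ 0 := by
          intro h6
          have : b = a := by linear_combination h6
          exact ha (this ▸ hb)
        rcases mul_eq_zero.1 h5.symm with h7 | h7
        · exact absurd h7 hne
        · exact h7)
    have h8 : ‖z - a‖ ≤ R + r := by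
      have : z - a = (z - c) - (a - c) := by ring
      rw [this]
      exact (norm_sub_le _ _).trans (add_le_add hz haS.1)
    rw [key z, norm_mul, Finset.card_insert_of_notMem ha, pow_succ]
    calc ‖z - a‖ * ‖dslope G a z‖
        ≤ (R + r) * (M / (ρ - r) * ((R + r) / (ρ - r)) ^ S'.card) :=
          mul_le_mul h8 h1 (norm_nonneg _) (by linarith)
      _ = M * (((R + r) / (ρ - r)) ^ S'.card * ((R + r) / (ρ - r))) := by
          field_simp

end Pool.Agent.StL
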