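import Mathlib
import Pool.Agent.StL.Zero

open Complex Set Filter MeasureTheory Topology Metric
open scoped Real

namespace Pool.Agent.StL

private lemma DetC_aux {ι : Type*} [Fintype ι] [DecidableEq ι] (c : ℂ) (r ρ ρ' : ℝ) (hr : 0 ≤ r)
    (hrρ : r < ρ) (hρ : ρ < ρ') (φ : ι → ℂ → ℂ)
    (hφ : ∀ j, DifferentiableOn ℂ (φ j) (ball c ρ')) (M : ℝ)
    (hM : ∀ j z, ‖z - c‖ ≤ ρ → ‖φ j z‖ ≤ M) :
    ∀ (s : Finset ι) (z : ι → ℂ), Set.InjOn z s → (∀ i ∈ s, ‖z i - c‖ ≤ r) →
      (∀ i, ‖z i - c‖ ≤ ρ) →
    ‖(Matrix.of fun i j => φ j (z i)).det‖ ≤ (Fintype.card ι).factorial * M ^ Fintype.card ι *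
      (2 * r / (ρ - r)) ^ (s.card * (s.card - 1) / 2) := by
  intro s
  induction s using Finset.induction_on with
  | empty =>
    intro z _ _ hzρ
    have h := Matrix.det_le (A := Matrix.of fun i j => φ j (z i))
      (abv := IsAbsoluteValue.toAbsoluteValue (norm : ℂ → ℝ)) (x := M)
      (fun i j => hM j (z i) (hzρ i))
    simpa [nsmul_eq_mul] using h
  | insert a t hat ih =>
    intro z hz hzr hzρ
    set G : ℂ → ℂ := fun ζ => (Matrix.of fun i j => φ j (Function.update z a ζ i)).det with hG
    have hGd : DifferentiableOn ℂ G (ball c ρ') := by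
      have h1 : G = fun ζ => ∑ σ : Equiv.Perm ι, ((Equiv.Perm.sign σ : ℤ) : ℂ) *
          ∏ i, φ i (Function.update z a ζ (σ i)) := by
        funext ζ
        simp only [hG]
        rw [Matrix.det_apply']
        simp [Matrix.of_apply]
      rw [h1]
      apply DifferentiableOn.fun_sum
      intro σ _
      apply DifferentiableOn.const_mul
      apply DifferentiableOn.fun_finsetProd
      intro i _
      by_cases h : σ i = a
      · have h2 : (fun ζ => φ i (Function.update z a ζ (σ i))) = φ i := by
          funext ζ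
          rw [h, Function.update_self]
        rw [h2]
        exact hφ i
      · have h2 : (fun ζ => φ i (Function.update z a ζ (σ i))) = fun _ => φ i (z (σ i)) := by
          funext ζ
          rw [Function.update_of_ne h]
        rw [h2]
        exact differentiableOn_const _
    have hzt : Set.InjOn z (t : Set ι) := hz.mono (by simp)
    have hsphere : ∀ ζ, ‖ζ - c‖ = ρ → ‖G ζ‖ ≤ (Fintype.card ι).factorial * M ^ Fintype.card ι *
        (2 * r / (ρ - r)) ^ (t.card * (t.card - 1) / 2) := by
      intro ζ hζ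
      apply ih
      · intro i hi j hj hij
        have hia : i ≠ a := fun h => hat (h ▸ hi)
        have hja : j ≠ a := fun h => hat (h ▸ hj)
        rw [Function.update_of_ne hia, Function.update_of_ne hja] at hij
        exact hzt hi hj hij
      · intro i hi
        have hia : i ≠ a := fun h => hat (h ▸ hi)
        rw [Function.update_of_ne hia]
        exact hzr i (Finset.mem_insert_of_mem hi)
      · intro i
        by_cases h : i = a
        · rw [h, Function.update_self, hζ]
        · rw [Function.update_of_ne h]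
          exact hzρ i
    have hzero : ∀ b ∈ t.image z, ‖b - c‖ ≤ r ∧ G b = 0 := by
      intro b hb
      obtain ⟨i, hi, rfl⟩ := Finset.mem_image.1 hb
      refine ⟨hzr i (Finset.mem_insert_of_mem hi), ?_⟩
      have hia : i ≠ a := fun h => hat (h ▸ hi)
      apply Matrix.det_zero_of_row_eq hia
      funext j
      simp [Matrix.of_apply, Function.update_of_ne hia]
    have hmain := many_zeros c r r ρ ρ' hr hrρ hr hrρ.le hρ G hGd _ hsphere (t.image z) hzero
      (z a) (hzr a (Finset.mem_insert_self _ _))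
    have hcard : (t.image z).card = t.card := Finset.card_image_of_injOn hzt
    rw [hcard] at hmain
    have hGa : G (z a) = (Matrix.of fun i j => φ j (z i)).det := by
      simp only [hG]
      rw [Function.update_eq_self]
    rw [hGa] at hmain
    refine hmain.trans (le_of_eq ?_)
    rw [Finset.card_insert_of_notMem hat, Nat.triangle_succ, pow_add, two_mul r]
    ring

/-- interpolation determinants are small -/
theorem det_bound_C {ι : Type*} [Fintype ι] [DecidableEq ι] (c : ℂ) (r ρ ρ' : ℝ) (hr : 0 ≤ r)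
    (hrρ : r < ρ) (hρ : ρ < ρ') (φ : ι → ℂ → ℂ)
    (hφ : ∀ j, DifferentiableOn ℂ (φ j) (ball c ρ')) (M : ℝ)
    (hM : ∀ j z, ‖z - c‖ ≤ ρ → ‖φ j z‖ ≤ M) (z : ι → ℂ) (hz : Function.Injective z)
    (hzr : ∀ i, ‖z i - c‖ ≤ r) :
    ‖(Matrix.of fun i j => φ j (z i)).det‖ ≤ (Fintype.card ι).factorial * M ^ Fintype.card ι *
      (2 * r / (ρ - r)) ^ (Fintype.card ι * (Fintype.card ι - 1) / 2) := by
  have h := DetC_aux c r ρ ρ' hr hrρ hρ φ hφ M hM Finset.univ z hz.injOn (fun i _ => hzr i)
    (fun i => (hzr i).trans hrρ.le)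
  rwa [Finset.card_univ] at h

end Pool.Agent.StL
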