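import Mathlib

open Complex Set Filter MeasureTheory Topology Metric
open scoped Real

namespace Pool.Agent.StL

/-- if all maximal minors vanish, the columns are dependent -/
theorem exists_kernel {ι : Type*} [Fintype ι] [DecidableEq ι] {K : ℕ} (M : Fin K → ι → ℝ)
    (h : ∀ e : ι → Fin K, Function.Injective e →
      (Matrix.of fun i j => M (e i) j).det = 0) :
    ∃ c : ι → ℝ, c ≠ 0 ∧ ∀ k, ∑ j, M k j * c j = 0 := by
  by_cases hs : Submodule.span ℝ (Set.range M) = ⊤
  · exfalso
    obtain ⟨κ, a, ha, hsp, hli⟩ := exists_linearIndependent' ℝ M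
    have hb : (⊤ : Submodule ℝ (ι → ℝ)) ≤ Submodule.span ℝ (Set.range (M ∘ a)) := by
      rw [hsp, hs]
    let b : Module.Basis κ ℝ (ι → ℝ) := Module.Basis.mk hli hb
    let q : ι ≃ κ := (Pi.basisFun ℝ ι).indexEquiv b
    have hinj : Function.Injective (fun i => a (q i)) := ha.comp q.injective
    have hdet := h (fun i => a (q i)) hinj
    have hli2 : LinearIndependent ℝ (fun i => M (a (q i))) := hli.comp q q.injective
    have hrow : LinearIndependent ℝ (Matrix.of fun i j => M (a (q i)) j).row := hli2
    rw [Matrix.linearIndependent_rows_iff_isUnit, Matrix.isUnit_iff_isUnit_det] at hrow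
    exact hrow.ne_zero hdet
  · obtain ⟨f, hf, hle⟩ := Submodule.exists_le_ker_of_lt_top _ (lt_top_iff_ne_top.mpr hs)
    refine ⟨fun j => f (Pi.single j 1), ?_, ?_⟩
    · intro hc
      apply hf
      apply LinearMap.pi_ext'
      intro j
      ext
      simpa using congrFun hc j
    · intro k
      have h1 : f (M k) = 0 := by
        have : M k ∈ Submodule.span ℝ (Set.range M) := Submodule.subset_span ⟨k, rfl⟩
        simpa using hle this
      have h2 : M k = ∑ j, M k j • (Pi.single j (1 : ℝ) : ι → ℝ) := by
        have := (Pi.basisFun ℝ ι).sum_repr (M k)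
        simpa using this.symm
      rw [h2] at h1
      rw [map_sum] at h1
      simpa [smul_eq_mul] using h1

end Pool.Agent.StL
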