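import Mathlib

open Complex Set Filter MeasureTheory Topology Metric
open scoped Real

namespace Pool.Agent.StL

open Polynomial in
private theorem Sheet_prod {ι : Type*} [DecidableEq ι] (s : Finset ι) (a v : ι → ℂ)
    (hv : ∀ k, ‖v k‖ ≤ 1) (b : ℕ) :
    ‖(∏ k ∈ s, (C (a k) * (X - C (v k)))).coeff b‖ ≤ ∏ k ∈ s, (2 * ‖a k‖) := by
  induction s using Finset.induction_on generalizing b with
  | empty =>
    rw [Finset.prod_empty, Finset.prod_empty, Polynomial.coeff_one]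
    split_ifs <;> simp
  | insert k s hk ih =>
    rw [Finset.prod_insert hk, Finset.prod_insert hk]
    set P : ℂ[X] := ∏ k ∈ s, (C (a k) * (X - C (v k))) with hP
    have hB : ∀ b, ‖P.coeff b‖ ≤ ∏ k ∈ s, (2 * ‖a k‖) := ih
    set B : ℝ := ∏ k ∈ s, (2 * ‖a k‖) with hBdef
    have hB0 : 0 ≤ B := Finset.prod_nonneg fun i _ => by positivity
    have e : C (a k) * (X - C (v k)) * P = C (a k) * (X * P - C (v k) * P) := by ring
    rw [e, Polynomial.coeff_C_mul, Polynomial.coeff_sub, Polynomial.coeff_C_mul]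
    have h1 : ‖(X * P).coeff b‖ ≤ B := by
      cases b with
      | zero => rw [Polynomial.coeff_X_mul_zero]; simpa using hB0
      | succ b => rw [Polynomial.coeff_X_mul]; exact hB b
    have h2 : ‖v k * P.coeff b‖ ≤ B := by
      rw [norm_mul]
      calc ‖v k‖ * ‖P.coeff b‖ ≤ 1 * B :=
            mul_le_mul (hv k) (hB b) (norm_nonneg _) zero_le_one
        _ = B := one_mul B
    rw [norm_mul]
    calc ‖a k‖ * ‖(X * P).coeff b - v k * P.coeff b‖ ≤ ‖a k‖ * (B + B) :=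
          mul_le_mul_of_nonneg_left (le_trans (norm_sub_le _ _) (add_le_add h1 h2))
            (norm_nonneg _)
      _ = 2 * ‖a k‖ * B := by ring

open Polynomial in
private theorem Sheet_lag (A : ℕ) (p : Fin (A + 1) → ℂ) (g σ : ℝ) (hσ : 0 < σ)
    (y : Fin (A + 1) → ℂ) (hy : ∀ j, ‖y j‖ ≤ 1)
    (hsep : ∀ i j, i ≠ j → σ ≤ ‖y i - y j‖)
    (hg : ∀ j, ‖∑ b : Fin (A + 1), p b * y j ^ (b : ℕ)‖ ≤ g) (b : Fin (A + 1)) :
    ‖p b‖ ≤ (A + 1) * (2 / σ) ^ A * g := by
  classical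
  set Q : ℂ[X] := ∑ b : Fin (A + 1), C (p b) * X ^ (b : ℕ) with hQ
  have hcoeff : Q.coeff (b : ℕ) = p b := by
    rw [hQ, Polynomial.finsetSum_coeff]
    rw [Finset.sum_eq_single b]
    · rw [Polynomial.coeff_C_mul, Polynomial.coeff_X_pow, if_pos rfl, mul_one]
    · intro c _ hc
      rw [Polynomial.coeff_C_mul, Polynomial.coeff_X_pow, if_neg, mul_zero]
      intro h
      exact hc (Fin.ext h.symm)
    · intro h; exact absurd (Finset.mem_univ b) h
  have hdeg : Q.degree < (Finset.univ : Finset (Fin (A + 1))).card := by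
    rw [Finset.card_univ, Fintype.card_fin, Polynomial.degree_lt_iff_coeff_zero]
    intro m hm
    rw [hQ, Polynomial.finsetSum_coeff]
    refine Finset.sum_eq_zero fun c _ => ?_
    rw [Polynomial.coeff_C_mul, Polynomial.coeff_X_pow, if_neg, mul_zero]
    intro h
    have := c.2
    omega
  have hinj : Set.InjOn y ((Finset.univ : Finset (Fin (A + 1))) : Set (Fin (A + 1))) := by
    intro i _ j _ hij
    by_contra hne
    have h1 := hsep i j hne
    rw [hij, sub_self, norm_zero] at h1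
    linarith
  have hint := Lagrange.eq_interpolate (f := Q) hinj hdeg
  have heval : ∀ j, Q.eval (y j) = ∑ b : Fin (A + 1), p b * y j ^ (b : ℕ) := by
    intro j
    rw [hQ, Polynomial.eval_finsetSum]
    refine Finset.sum_congr rfl fun c _ => ?_
    rw [Polynomial.eval_mul, Polynomial.eval_C, Polynomial.eval_pow, Polynomial.eval_X]
  have hp : p b = ∑ j : Fin (A + 1), Q.eval (y j) *
      (Lagrange.basis Finset.univ y j).coeff (b : ℕ) := by
    rw [← hcoeff]
    conv_lhs => rw [hint]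
    rw [Lagrange.interpolate_apply, Polynomial.finsetSum_coeff]
    refine Finset.sum_congr rfl fun j _ => ?_
    rw [Polynomial.coeff_C_mul]
  have hbasis : ∀ j, ‖(Lagrange.basis Finset.univ y j).coeff (b : ℕ)‖ ≤ (2 / σ) ^ A := by
    intro j
    have h1 : Lagrange.basis Finset.univ y j =
        ∏ k ∈ Finset.univ.erase j, (C ((y j - y k)⁻¹) * (X - C (y k))) := rfl
    rw [h1]
    refine le_trans (Sheet_prod _ (fun k => (y j - y k)⁻¹) y hy _) ?_
    have hcard : (Finset.univ.erase j).card = A := by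
      rw [Finset.card_erase_of_mem (Finset.mem_univ j), Finset.card_univ, Fintype.card_fin]
      omega
    have hle : ∏ k ∈ Finset.univ.erase j, (2 * ‖(y j - y k)⁻¹‖) ≤
        ∏ _k ∈ Finset.univ.erase j, (2 / σ) := by
      refine Finset.prod_le_prod (fun k _ => by positivity) ?_
      intro k hk
      have hjk : j ≠ k := fun h => (Finset.mem_erase.1 hk).1 h.symm
      have h2 := hsep j k hjk
      rw [norm_inv, div_eq_mul_inv]
      exact mul_le_mul_of_nonneg_left (inv_anti₀ hσ h2) (by norm_num)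
    rw [Finset.prod_const, hcard] at hle
    exact hle
  rw [hp]
  refine le_trans (norm_sum_le _ _) ?_
  have hterm : ∀ j ∈ (Finset.univ : Finset (Fin (A + 1))),
      ‖Q.eval (y j) * (Lagrange.basis Finset.univ y j).coeff (b : ℕ)‖ ≤ g * (2 / σ) ^ A := by
    intro j _
    rw [norm_mul, heval]
    exact mul_le_mul (hg j) (hbasis j) (norm_nonneg _)
      (le_trans (norm_nonneg _) (hg j))
  refine le_trans (Finset.sum_le_card_nsmul _ _ _ hterm) ?_
  rw [Finset.card_univ, Fintype.card_fin, nsmul_eq_mul]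
  push_cast
  linarith

private theorem Sheet_root (A : ℕ) (p : Fin (A + 1) → ℂ) (M : ℝ)
    (hM : ∀ t : ℂ, ‖t‖ = 1 → ‖∑ a : Fin (A + 1), p a * t ^ (a : ℕ)‖ ≤ M) (a : Fin (A + 1)) :
    ‖p a‖ ≤ M := by
  set ζ : ℂ := Complex.exp (2 * π * I / ((A + 1 : ℕ) : ℂ)) with hζ
  have hprim : IsPrimitiveRoot ζ (A + 1) := Complex.isPrimitiveRoot_exp (A + 1) (by omega)
  have hζ1 : ‖ζ‖ = 1 := hprim.norm'_eq_one (by omega)
  have hζ0 : ζ ≠ 0 := by
    intro h; rw [h, norm_zero] at hζ1; exact zero_ne_one hζ1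
  have hN : ((A + 1 : ℕ) : ℂ) ≠ 0 := by exact_mod_cast Nat.succ_ne_zero A
  have hsum : ∑ k ∈ Finset.range (A + 1), (ζ⁻¹ ^ (a : ℕ)) ^ k *
      (∑ c : Fin (A + 1), p c * (ζ ^ k) ^ (c : ℕ)) = ((A + 1 : ℕ) : ℂ) * p a := by
    have e1 : ∀ k ∈ Finset.range (A + 1), (ζ⁻¹ ^ (a : ℕ)) ^ k *
        (∑ c : Fin (A + 1), p c * (ζ ^ k) ^ (c : ℕ)) =
        ∑ c : Fin (A + 1), p c * (ζ⁻¹ ^ (a : ℕ) * ζ ^ (c : ℕ)) ^ k := by
      intro k _
      rw [Finset.mul_sum]
      refine Finset.sum_congr rfl fun c _ => ?_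
      rw [mul_pow, ← pow_mul, ← pow_mul, ← pow_mul, mul_comm (c : ℕ) k]
      ring
    rw [Finset.sum_congr rfl e1, Finset.sum_comm]
    rw [Finset.sum_eq_single a]
    · rw [← Finset.mul_sum]
      have h1 : ζ⁻¹ ^ (a : ℕ) * ζ ^ (a : ℕ) = 1 := by
        rw [← mul_pow, inv_mul_cancel₀ hζ0, one_pow]
      rw [h1]
      simp only [one_pow, Finset.sum_const, Finset.card_range, nsmul_eq_mul, mul_one]
      ring
    · intro c _ hc
      rw [← Finset.mul_sum]
      set ω : ℂ := ζ⁻¹ ^ (a : ℕ) * ζ ^ (c : ℕ) with hω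
      have hωN : ω ^ (A + 1) = 1 := by
        rw [hω, mul_pow, ← pow_mul, ← pow_mul, mul_comm (a : ℕ), mul_comm (c : ℕ), pow_mul,
          pow_mul, inv_pow, hprim.pow_eq_one]
        simp
      have hω1 : ω ≠ 1 := by
        intro h
        apply hc
        have h2 : ζ ^ (c : ℕ) = ζ ^ (a : ℕ) := by
          have h3 : ζ ^ (a : ℕ) * ω = ζ ^ (c : ℕ) := by
            rw [hω, ← mul_assoc, ← mul_pow, mul_inv_cancel₀ hζ0, one_pow, one_mul]
          rw [← h3, h, mul_one]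
        exact Fin.ext (hprim.pow_inj c.2 a.2 h2)
      have h4 : (∑ k ∈ Finset.range (A + 1), ω ^ k) = 0 := by
        have h5 := geom_sum_mul ω (A + 1)
        rw [hωN, sub_self] at h5
        rcases mul_eq_zero.1 h5 with h6 | h6
        · exact h6
        · exact absurd (sub_eq_zero.1 h6) hω1
      rw [h4, mul_zero]
    · intro h; exact absurd (Finset.mem_univ a) h
  have hbound : ‖((A + 1 : ℕ) : ℂ) * p a‖ ≤ ((A + 1 : ℕ) : ℝ) * M := by
    rw [← hsum]
    have h7 : ∀ k ∈ Finset.range (A + 1), ‖(ζ⁻¹ ^ (a : ℕ)) ^ k *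
        (∑ c : Fin (A + 1), p c * (ζ ^ k) ^ (c : ℕ))‖ ≤ M := by
      intro k _
      rw [norm_mul, norm_pow, norm_pow, norm_inv, hζ1, inv_one, one_pow, one_pow, one_mul]
      exact hM _ (by rw [norm_pow, hζ1, one_pow])
    refine le_trans (norm_sum_le _ _) (le_trans (Finset.sum_le_card_nsmul _ _ _ h7) ?_)
    rw [Finset.card_range, nsmul_eq_mul]
  rw [norm_mul, Complex.norm_natCast] at hbound
  exact le_of_mul_le_mul_left hbound (by positivity)

/-- the coefficients of a polynomial in two variables from its values at many points -/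
theorem sheets (A : ℕ) (c : Fin (A + 1) → Fin (A + 1) → ℂ) (g σ : ℝ) (hσ : 0 < σ)
    (hσ1 : σ ≤ 1) (Y : ℂ → Fin (A + 1) → ℂ) (hY : ∀ t, ‖t‖ = 1 → ∀ j, ‖Y t j‖ ≤ 1)
    (hsep : ∀ t, ‖t‖ = 1 → ∀ i j, i ≠ j → σ ≤ ‖Y t i - Y t j‖)
    (hg : ∀ t, ‖t‖ = 1 → ∀ j,
      ‖∑ a : Fin (A + 1), ∑ b : Fin (A + 1), c a b * t ^ (a : ℕ) * Y t j ^ (b : ℕ)‖ ≤ g) :
    ∀ a b, ‖c a b‖ ≤ (A + 1) * (2 / σ) ^ A * g := by
  intro a b
  refine Sheet_root A (fun a => c a b) _ ?_ a
  intro t ht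
  refine Sheet_lag A (fun b => ∑ a : Fin (A + 1), c a b * t ^ (a : ℕ)) g σ hσ (Y t) (hY t ht)
    (hsep t ht) ?_ b
  intro j
  have h := hg t ht j
  rw [Finset.sum_comm] at h
  simpa only [Finset.sum_mul] using h

end Pool.Agent.StL
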