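import Pool.Agent.StL.Defs
import Pool.Agent.StL.DetC
import Pool.Agent.StL.Lin
import Pool.Agent.StL.Sheet
import Pool.Agent.StL.Corr

open Complex Set Filter MeasureTheory Topology Metric
open scoped Real

namespace Pool.Agent.StL

open Pool.Agent.Stj

/-- the functions of the interpolation determinant -/
noncomputable def ph (A : ℕ) (ℓ : ℝ) (F : ℂ → ℂ) (j : Fin (A + 1) × Fin (A + 1)) (ζ : ℂ) : ℂ :=
  Complex.exp (ζ - ℓ) ^ (j.1 : ℕ) * (F ζ * Real.exp (-ℓ)) ^ (j.2 : ℕ)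

/-- the scaling factors -/
noncomputable def sc (A : ℕ) (ℓ : ℝ) (j : Fin (A + 1) × Fin (A + 1)) : ℝ :=
  (2 * π * Real.exp ℓ) ^ (j.1 : ℕ) * Real.exp ℓ ^ (j.2 : ℕ)

lemma sc_pos (A : ℕ) (ℓ : ℝ) (j : Fin (A + 1) × Fin (A + 1)) : 0 < sc A ℓ j := by
  unfold sc
  have := Real.pi_pos
  positivity

lemma sc_le (A : ℕ) {ℓ : ℝ} (hℓ : 0 ≤ ℓ) (j : Fin (A + 1) × Fin (A + 1)) :
    sc A ℓ j ≤ Real.exp (2 * A * (ℓ + 2)) := by
  have h1 : 2 * π * Real.exp ℓ ≤ Real.exp (ℓ + 2) := by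
    have h2 : 2 * π ≤ Real.exp 2 := by
      have h3 := Real.pi_lt_d2
      have h4 := Real.exp_one_gt_d9
      have h5 : Real.exp 2 = Real.exp 1 ^ 2 := by rw [← Real.exp_nat_mul]; norm_num
      rw [h5]
      nlinarith
    rw [Real.exp_add, mul_comm (Real.exp ℓ)]
    gcongr
  have h2 : Real.exp ℓ ≤ Real.exp (ℓ + 2) := Real.exp_le_exp.2 (by linarith)
  have h3 : 1 ≤ Real.exp (ℓ + 2) := Real.one_le_exp (by linarith)
  have hpi := Real.pi_pos
  have ha : (j.1 : ℕ) ≤ A := Nat.lt_succ_iff.1 j.1.2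
  have hb : (j.2 : ℕ) ≤ A := Nat.lt_succ_iff.1 j.2.2
  calc sc A ℓ j ≤ Real.exp (ℓ + 2) ^ (j.1 : ℕ) * Real.exp (ℓ + 2) ^ (j.2 : ℕ) := by
        unfold sc
        gcongr
    _ ≤ Real.exp (ℓ + 2) ^ A * Real.exp (ℓ + 2) ^ A := by
        gcongr
    _ = Real.exp (2 * A * (ℓ + 2)) := by
        rw [← Real.exp_nat_mul, ← Real.exp_add]
        congr 1
        ring

lemma ph_diff (A : ℕ) (ℓ : ℝ) {F : ℂ → ℂ} {s : Set ℂ} (hF : DifferentiableOn ℂ F s)
    (j : Fin (A + 1) × Fin (A + 1)) : DifferentiableOn ℂ (ph A ℓ F j) s := by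
  unfold ph
  apply DifferentiableOn.mul
  · apply DifferentiableOn.pow
    apply DifferentiableOn.cexp
    fun_prop
  · apply DifferentiableOn.pow
    exact hF.mul_const _

lemma ph_bound (A : ℕ) {ℓ ρ : ℝ} (hρ : 0 ≤ ρ) {F : ℂ → ℂ} {ζ : ℂ} (hζ : ‖ζ - ℓ‖ ≤ ρ)
    (hF : ‖F ζ‖ ≤ Real.exp ζ.re) (j : Fin (A + 1) × Fin (A + 1)) :
    ‖ph A ℓ F j ζ‖ ≤ Real.exp (2 * A * ρ) := by
  have hre : ζ.re - ℓ ≤ ρ := by
    have := Complex.re_le_norm (ζ - ℓ)
    rw [Complex.sub_re, Complex.ofReal_re] at this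
    linarith
  have h1 : ‖Complex.exp (ζ - ℓ)‖ ≤ Real.exp ρ := by
    rw [Complex.norm_exp, Real.exp_le_exp]
    simpa using hre
  have h2 : ‖F ζ * Real.exp (-ℓ)‖ ≤ Real.exp ρ := by
    rw [norm_mul, Complex.norm_real, Real.norm_of_nonneg (Real.exp_pos _).le]
    calc ‖F ζ‖ * Real.exp (-ℓ) ≤ Real.exp ζ.re * Real.exp (-ℓ) := by gcongr
      _ = Real.exp (ζ.re - ℓ) := by rw [← Real.exp_add]; congr 1
      _ ≤ Real.exp ρ := Real.exp_le_exp.2 hre
  have h3 : 1 ≤ Real.exp ρ := Real.one_le_exp hρ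
  have ha : (j.1 : ℕ) ≤ A := Nat.lt_succ_iff.1 j.1.2
  have hb : (j.2 : ℕ) ≤ A := Nat.lt_succ_iff.1 j.2.2
  unfold ph
  rw [norm_mul, norm_pow, norm_pow]
  calc ‖Complex.exp (ζ - ℓ)‖ ^ (j.1 : ℕ) * ‖F ζ * Real.exp (-ℓ)‖ ^ (j.2 : ℕ)
      ≤ Real.exp ρ ^ (j.1 : ℕ) * Real.exp ρ ^ (j.2 : ℕ) := by gcongr
    _ ≤ Real.exp ρ ^ A * Real.exp ρ ^ A := by gcongr
    _ = Real.exp (2 * A * ρ) := by
        rw [← Real.exp_nat_mul, ← Real.exp_add]
        congr 1
        ring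

/-- integer monomials in terms of `ph` -/
lemma mono_eq (A : ℕ) (ℓ : ℝ) (F : ℂ → ℂ) (n : ℕ) (hn : 1 ≤ n) (m : ℤ)
    (hF : F ((Real.log ((n : ℝ) / (2 * π)) : ℝ) : ℂ) = m) (j : Fin (A + 1) × Fin (A + 1)) :
    ((((n : ℤ) ^ (j.1 : ℕ) * m ^ (j.2 : ℕ) : ℤ) : ℝ) : ℂ) =
      (sc A ℓ j : ℂ) * ph A ℓ F j ((Real.log ((n : ℝ) / (2 * π)) : ℝ) : ℂ) := by
  have hpi := Real.pi_pos
  have hn0 : (0 : ℝ) < n := by exact_mod_cast hn
  unfold ph sc
  rw [hF]
  have h1 : Complex.exp (((Real.log ((n : ℝ) / (2 * π)) : ℝ) : ℂ) - ℓ) =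
      (((n : ℝ) / (2 * π) * Real.exp (-ℓ) : ℝ) : ℂ) := by
    rw [← Complex.ofReal_sub, ← Complex.ofReal_exp, sub_eq_add_neg, Real.exp_add,
      Real.exp_log (by positivity)]
  rw [h1]
  have h2 : Real.exp ℓ * Real.exp (-ℓ) = 1 := by rw [← Real.exp_add]; simp
  have h3 : (n : ℝ) = (2 * π * Real.exp ℓ) * ((n : ℝ) / (2 * π) * Real.exp (-ℓ)) := by
    have : (2 * π * Real.exp ℓ) * ((n : ℝ) / (2 * π) * Real.exp (-ℓ)) =
      n * (Real.exp ℓ * Real.exp (-ℓ)) := by field_simp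
    rw [this, h2, mul_one]
  have h4 : (m : ℝ) = Real.exp ℓ * (m * Real.exp (-ℓ)) := by
    have : Real.exp ℓ * (m * Real.exp (-ℓ)) = m * (Real.exp ℓ * Real.exp (-ℓ)) := by ring
    rw [this, h2, mul_one]
  have h5 : ((n : ℝ) ^ (j.1 : ℕ) * (m : ℝ) ^ (j.2 : ℕ)) =
      ((2 * π * Real.exp ℓ) ^ (j.1 : ℕ) * Real.exp ℓ ^ (j.2 : ℕ)) *
      (((n : ℝ) / (2 * π) * Real.exp (-ℓ)) ^ (j.1 : ℕ) * (m * Real.exp (-ℓ)) ^ (j.2 : ℕ)) := by
    conv_lhs => rw [h3, h4]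
    rw [mul_pow, mul_pow]
    ring
  have h6 := congrArg (fun x : ℝ => (x : ℂ)) h5
  push_cast at h6 ⊢
  exact h6

lemma card_idx' (A : ℕ) : Fintype.card (Fin (A + 1) × Fin (A + 1)) = (A + 1) ^ 2 := by
  rw [Fintype.card_prod, Fintype.card_fin, sq]

lemma ratio_bound {ℓ : ℝ} (hℓ : 0 < ℓ) :
    2 * (ℓ * Real.exp (-1500)) / (ℓ / 9 - ℓ * Real.exp (-1500)) ≤ Real.exp (-1450) := by
  have h1 : Real.exp (-1500) ≤ 1 / 100 := by
    have h2 : Real.exp (-1500) ≤ Real.exp (-5) := Real.exp_le_exp.2 (by norm_num)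
    have h3 : (100 : ℝ) ≤ Real.exp 5 := by
      have h4 : Real.exp 5 = Real.exp 1 ^ 5 := by rw [← Real.exp_nat_mul]; norm_num
      rw [h4]
      have := Real.exp_one_gt_d9
      calc (100 : ℝ) ≤ 2.7 ^ 5 := by norm_num
        _ ≤ _ := by gcongr; linarith
    rw [Real.exp_neg 5] at h2
    refine h2.trans ?_
    rw [one_div]
    exact inv_anti₀ (by norm_num) h3
  have h5 : 0 < ℓ / 9 - ℓ * Real.exp (-1500) := by nlinarith
  rw [div_le_iff₀ h5]
  have h6 : Real.exp (-1500) = Real.exp (-1450) * Real.exp (-50) := by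
    rw [← Real.exp_add]; norm_num
  have h7 : Real.exp (-50) ≤ 1 / 100 := by
    have h2 : Real.exp (-50) ≤ Real.exp (-5) := Real.exp_le_exp.2 (by norm_num)
    have h3 : (100 : ℝ) ≤ Real.exp 5 := by
      have h4 : Real.exp 5 = Real.exp 1 ^ 5 := by rw [← Real.exp_nat_mul]; norm_num
      rw [h4]
      have := Real.exp_one_gt_d9
      calc (100 : ℝ) ≤ 2.7 ^ 5 := by norm_num
        _ ≤ _ := by gcongr; linarith
    rw [Real.exp_neg 5] at h2
    refine h2.trans ?_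
    rw [one_div]
    exact inv_anti₀ (by norm_num) h3
  have h8 := Real.exp_pos (-1450)
  have h9 : ℓ / 9 - ℓ * Real.exp (-1500) ≥ ℓ / 10 := by nlinarith
  calc 2 * (ℓ * Real.exp (-1500)) = Real.exp (-1450) * (2 * ℓ * Real.exp (-50)) := by
        rw [h6]; ring
    _ ≤ Real.exp (-1450) * (ℓ / 10) := by
        gcongr
        nlinarith
    _ ≤ _ := by gcongr

lemma exponent_neg {ℓ : ℝ} (hℓ : 100 ≤ ℓ) (A : ℕ) (hA : ℓ / 300 ≤ A) (hA1 : 1 ≤ A) :
    Real.exp (2 * A * (ℓ + 2)) ^ ((A + 1) ^ 2) *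
      (((A + 1) ^ 2).factorial * Real.exp (2 * A * (ℓ / 9)) ^ ((A + 1) ^ 2) *
        Real.exp (-1450) ^ ((A + 1) ^ 2 * ((A + 1) ^ 2 - 1) / 2)) < 1 := by
  have hA1r : (1 : ℝ) ≤ A := by exact_mod_cast hA1
  set D : ℕ := (A + 1) ^ 2 with hD
  have hDr : (D : ℝ) = ((A : ℝ) + 1) ^ 2 := by rw [hD]; push_cast; ring
  have hfac : (D.factorial : ℝ) ≤ Real.exp (2 * A) ^ D := by
    have h1 : (D.factorial : ℝ) ≤ (D : ℝ) ^ D := by exact_mod_cast Nat.factorial_le_pow D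
    refine h1.trans ?_
    gcongr
    rw [hDr]
    have h2 := Real.add_one_le_exp (A : ℝ)
    calc ((A : ℝ) + 1) ^ 2 ≤ Real.exp A ^ 2 := by gcongr
      _ = Real.exp (2 * A) := by rw [← Real.exp_nat_mul]; norm_num
  have heven : 2 ∣ D * (D - 1) := by
    have := Nat.even_mul_pred_self D
    exact this.two_dvd
  have hhalf : ((D * (D - 1) / 2 : ℕ) : ℝ) = (D : ℝ) * ((D : ℝ) - 1) / 2 := by
    rw [Nat.cast_div heven (by norm_num), Nat.cast_mul,
      Nat.cast_sub (Nat.succ_le_of_lt (by rw [hD]; positivity))]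
    norm_num
  have h3 : Real.exp (-1450) ^ (D * (D - 1) / 2) =
      Real.exp (-(725 * ((D : ℝ) * ((D : ℝ) - 1)))) := by
    rw [← Real.exp_nat_mul, hhalf]
    congr 1
    ring
  have hD0 : (0 : ℝ) < D := by rw [hDr]; positivity
  calc Real.exp (2 * A * (ℓ + 2)) ^ D *
      (D.factorial * Real.exp (2 * A * (ℓ / 9)) ^ D * Real.exp (-1450) ^ (D * (D - 1) / 2))
      ≤ Real.exp (2 * A * (ℓ + 2)) ^ D *
      (Real.exp (2 * A) ^ D * Real.exp (2 * A * (ℓ / 9)) ^ D *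
        Real.exp (-1450) ^ (D * (D - 1) / 2)) := by gcongr
    _ = Real.exp (D * (2 * A * (ℓ + 2) + 2 * A + 2 * A * (ℓ / 9) - 725 * ((D : ℝ) - 1))) := by
        rw [h3, ← Real.exp_nat_mul, ← Real.exp_nat_mul, ← Real.exp_nat_mul, ← Real.exp_add,
          ← Real.exp_add, ← Real.exp_add]
        congr 1
        ring
    _ < 1 := by
        rw [Real.exp_lt_one_iff]
        apply mul_neg_of_pos_of_neg hD0
        rw [hDr]
        have h4 : 725 * (((A : ℝ) + 1) ^ 2 - 1) = A * (725 * (A + 2)) := by ring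
        have h5 : 725 * ((A : ℝ) + 2) ≥ 725 * (ℓ / 300) + 1450 := by linarith
        rw [h4]
        have h6 : 2 * (A : ℝ) * (ℓ + 2) + 2 * A + 2 * A * (ℓ / 9) =
            A * (2 * (ℓ + 2) + 2 + 2 * (ℓ / 9)) := by ring
        rw [h6]
        have h7 : 2 * (ℓ + 2) + 2 + 2 * (ℓ / 9) < 725 * ((A : ℝ) + 2) := by linarith
        nlinarith

lemma minor_zero {ℓ : ℝ} (hℓ : 100 ≤ ℓ) (A : ℕ) (hA : ℓ / 300 ≤ A) (hA1 : 1 ≤ A) (F : ℂ → ℂ)
    (hF : DifferentiableOn ℂ F (ball (ℓ : ℂ) (ℓ / 8)))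
    (hFb : ∀ ζ : ℂ, ‖ζ - ℓ‖ ≤ ℓ / 9 → ‖F ζ‖ ≤ Real.exp ζ.re)
    (n : Fin (A + 1) × Fin (A + 1) → ℕ) (m : Fin (A + 1) × Fin (A + 1) → ℤ)
    (hn : Function.Injective n) (hn1 : ∀ i, 1 ≤ n i)
    (hnr : ∀ i, ‖((Real.log ((n i : ℝ) / (2 * π)) : ℝ) : ℂ) - ℓ‖ ≤ ℓ * Real.exp (-1500))
    (hm : ∀ i, F ((Real.log ((n i : ℝ) / (2 * π)) : ℝ) : ℂ) = m i) :
    (Matrix.of fun i j : Fin (A + 1) × Fin (A + 1) =>
      ((n i : ℤ) ^ (j.1 : ℕ) * m i ^ (j.2 : ℕ))).det = 0 := by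
  have hℓ0 : 0 < ℓ := by linarith
  have hpi := Real.pi_pos
  set ζ : Fin (A + 1) × Fin (A + 1) → ℂ := fun i => ((Real.log ((n i : ℝ) / (2 * π)) : ℝ) : ℂ)
    with hζ
  have hζinj : Function.Injective ζ := by
    intro i j hij
    simp only [hζ] at hij
    have h1 : Real.log ((n i : ℝ) / (2 * π)) = Real.log ((n j : ℝ) / (2 * π)) := by
      exact_mod_cast hij
    have hi : (0 : ℝ) < n i := by exact_mod_cast hn1 i
    have hj : (0 : ℝ) < n j := by exact_mod_cast hn1 j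
    have h2 := Real.log_injOn_pos (Set.mem_Ioi.2 (by positivity))
      (Set.mem_Ioi.2 (by positivity)) h1
    apply hn
    have h3 : (n i : ℝ) = n j := by
      field_simp at h2
      exact h2
    exact_mod_cast h3
  set r : ℝ := ℓ * Real.exp (-1500) with hr
  have hr0 : 0 ≤ r := by positivity
  have hr9 : r < ℓ / 9 := by
    have h2 : Real.exp (-1500) < 1 / 9 := by
      have h2 : Real.exp (-1500) ≤ Real.exp (-3) := Real.exp_le_exp.2 (by norm_num)
      have h3 : (9 : ℝ) < Real.exp 3 := by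
        have h4 : Real.exp 3 = Real.exp 1 ^ 3 := by rw [← Real.exp_nat_mul]; norm_num
        rw [h4]
        have := Real.exp_one_gt_d9
        calc (9 : ℝ) < 2.7 ^ 3 := by norm_num
          _ ≤ _ := by gcongr; linarith
      rw [Real.exp_neg 3] at h2
      refine h2.trans_lt ?_
      rw [one_div]
      exact inv_strictAnti₀ (by norm_num) h3
    rw [hr]
    nlinarith
  have hdet := det_bound_C (ι := Fin (A + 1) × Fin (A + 1)) (ℓ : ℂ) r (ℓ / 9) (ℓ / 8) hr0 hr9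
    (by linarith) (ph A ℓ F) (fun j => ph_diff A ℓ hF j) (Real.exp (2 * A * (ℓ / 9)))
    (fun j z hz => ph_bound A (by positivity) hz (hFb z hz) j) ζ hζinj hnr
  rw [card_idx'] at hdet
  set MZ : Matrix (Fin (A + 1) × Fin (A + 1)) (Fin (A + 1) × Fin (A + 1)) ℤ :=
    Matrix.of fun i j => ((n i : ℤ) ^ (j.1 : ℕ) * m i ^ (j.2 : ℕ)) with hMZ
  have hcast : ((MZ.det : ℤ) : ℂ) = (∏ j, (sc A ℓ j : ℂ)) *
      (Matrix.of fun i j => ph A ℓ F j (ζ i)).det := by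
    rw [← Matrix.det_mul_row]
    have h1 : ((MZ.det : ℤ) : ℂ) = (Int.castRingHom ℂ) MZ.det := by simp
    rw [h1, RingHom.map_det]
    congr 1
    ext i j
    simp only [RingHom.mapMatrix_apply, Matrix.map_apply, Matrix.of_apply, hMZ,
      Int.coe_castRingHom]
    have := mono_eq A ℓ F (n i) (hn1 i) (m i) (hm i) j
    push_cast at this ⊢
    exact this
  have hlt : ‖((MZ.det : ℤ) : ℂ)‖ < 1 := by
    rw [hcast, norm_mul]
    have h1 : ‖∏ j, (sc A ℓ j : ℂ)‖ ≤ Real.exp (2 * A * (ℓ + 2)) ^ ((A + 1) ^ 2) := by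
      rw [norm_prod]
      calc ∏ j, ‖(sc A ℓ j : ℂ)‖ ≤ ∏ _j : Fin (A + 1) × Fin (A + 1), Real.exp (2 * A * (ℓ + 2)) := by
            apply Finset.prod_le_prod
            · intro j _; exact norm_nonneg _
            · intro j _
              rw [Complex.norm_real, Real.norm_of_nonneg (sc_pos A ℓ j).le]
              exact sc_le A hℓ0.le j
        _ = _ := by rw [Finset.prod_const, Finset.card_univ, card_idx']
    have h2 := exponent_neg hℓ A hA hA1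
    refine lt_of_le_of_lt ?_ h2
    have h3 := ratio_bound hℓ0
    have h4 : 0 ≤ 2 * r / (ℓ / 9 - r) := by
      have : 0 < ℓ / 9 - r := by linarith
      positivity
    apply mul_le_mul h1 _ (norm_nonneg _) (by positivity)
    refine hdet.trans ?_
    gcongr
  have h5 : |MZ.det| < 1 := by
    rw [Complex.norm_intCast] at hlt
    exact_mod_cast hlt
  exact Int.abs_lt_one_iff.1 h5

lemma final_ineq {ℓ : ℝ} (hℓ : 2000 ≤ ℓ) (A : ℕ) (hA2 : (A : ℝ) ≤ ℓ / 300 + 1)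
    (K : ℕ) (hK : ℓ ^ 2 ≤ K) :
    ((A : ℝ) + 1) * (2 / (1 / (2 * ℓ ^ 2))) ^ A *
      (((A : ℝ) + 1) ^ 2 * Real.exp (2 * A * (ℓ / 9)) * (1 / 2) ^ K) < 1 := by
  have hℓ0 : 0 < ℓ := by linarith
  have hA0 : (0 : ℝ) ≤ A := Nat.cast_nonneg _
  have h1 : 2 / (1 / (2 * ℓ ^ 2)) = (2 * ℓ) ^ 2 := by
    rw [div_div_eq_mul_div]
    ring
  have h2 : (2 * ℓ) ^ 2 ≤ Real.exp (4 * ℓ) := by
    have := Real.add_one_le_exp (2 * ℓ)
    calc (2 * ℓ) ^ 2 ≤ Real.exp (2 * ℓ) ^ 2 := by gcongr; linarith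
      _ = Real.exp (4 * ℓ) := by rw [← Real.exp_nat_mul]; congr 1; push_cast; ring
  have h3 : (A : ℝ) + 1 ≤ Real.exp A := Real.add_one_le_exp _
  have h4 : ((1 : ℝ) / 2) ^ K ≤ Real.exp (-(1 / 2 * ℓ ^ 2)) := by
    have h5 : (1 : ℝ) / 2 ≤ Real.exp (-(1 / 2)) := by
      have := Real.add_one_le_exp (-(1 / 2) : ℝ)
      linarith
    calc ((1 : ℝ) / 2) ^ K ≤ Real.exp (-(1 / 2)) ^ K := by gcongr
      _ = Real.exp (-(1 / 2 * K)) := by rw [← Real.exp_nat_mul]; congr 1; ring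
      _ ≤ _ := by
        rw [Real.exp_le_exp]
        linarith
  rw [h1]
  calc ((A : ℝ) + 1) * ((2 * ℓ) ^ 2) ^ A *
      (((A : ℝ) + 1) ^ 2 * Real.exp (2 * A * (ℓ / 9)) * (1 / 2) ^ K)
      ≤ Real.exp A * Real.exp (4 * ℓ) ^ A *
        (Real.exp A ^ 2 * Real.exp (2 * A * (ℓ / 9)) * Real.exp (-(1 / 2 * ℓ ^ 2))) := by
        gcongr
    _ = Real.exp (3 * A + 4 * ℓ * A + 2 * A * (ℓ / 9) - 1 / 2 * ℓ ^ 2) := by
        rw [← Real.exp_nat_mul, ← Real.exp_nat_mul, ← Real.exp_add, ← Real.exp_add,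
          ← Real.exp_add, ← Real.exp_add]
        congr 1
        push_cast
        ring
    _ < 1 := by
        rw [Real.exp_lt_one_iff]
        have h6 : (A : ℝ) ≤ ℓ / 200 := by linarith
        have h7 : 3 * (A : ℝ) + 4 * ℓ * A + 2 * A * (ℓ / 9) ≤ A * (5 * ℓ) := by nlinarith
        nlinarith

/-- the contradiction -/
lemma main_contra {ℓ : ℝ} (hℓ : 2000 ≤ ℓ) (A : ℕ) (hA : ℓ / 300 ≤ A) (hA1 : 1 ≤ A)
    (hA2 : (A : ℝ) ≤ ℓ / 300 + 1) (F : ℂ → ℂ)
    (hF : DifferentiableOn ℂ F (ball (ℓ : ℂ) (ℓ / 8)))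
    (hFb : ∀ ζ : ℂ, ‖ζ - ℓ‖ ≤ ℓ / 9 → ‖F ζ‖ ≤ Real.exp ζ.re)
    (hsep : ∀ z ∈ ball (ℓ : ℂ) (ℓ / 8), ∀ w ∈ ball (ℓ : ℂ) (ℓ / 8), z.re = ℓ →
      ∀ k : ℤ, k ≠ 0 → w = z + 2 * π * I * k → Real.exp ℓ / (2 * ℓ ^ 2) ≤ ‖F w - F z‖)
    (K : ℕ) (hK : ℓ ^ 2 ≤ K) (n : Fin K → ℕ) (m : Fin K → ℤ)
    (hn : Function.Injective n) (hn1 : ∀ i, 1 ≤ n i)
    (hnr : ∀ i, ‖((Real.log ((n i : ℝ) / (2 * π)) : ℝ) : ℂ) - ℓ‖ ≤ ℓ * Real.exp (-1500))
    (hm : ∀ i, F ((Real.log ((n i : ℝ) / (2 * π)) : ℝ) : ℂ) = m i) : False := by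
  have hℓ0 : 0 < ℓ := by linarith
  have hpi := Real.pi_pos
  have hpi4 := Real.pi_lt_d2
  set ι := Fin (A + 1) × Fin (A + 1) with hι
  -- the coefficients
  obtain ⟨c, hc0, hc⟩ := exists_kernel (ι := ι)
    (fun k j => (n k : ℝ) ^ (j.1 : ℕ) * (m k : ℝ) ^ (j.2 : ℕ)) (by
      intro e he
      have h := minor_zero (by linarith) A hA hA1 F hF hFb (fun i => n (e i)) (fun i => m (e i))
        (hn.comp he) (fun i => hn1 _) (fun i => hnr _) (fun i => hm _)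
      have h2 := congrArg (Int.castRingHom ℝ) h
      rw [RingHom.map_det, map_zero] at h2
      rw [← h2]
      congr 1
      ext i j
      simp)
  -- normalisation
  obtain ⟨j0, -, hj0⟩ := Finset.exists_max_image (Finset.univ : Finset ι)
    (fun j => |c j * sc A ℓ j|) ⟨(0, 0), Finset.mem_univ _⟩
  set μ := |c j0 * sc A ℓ j0| with hμ
  have hμ0 : 0 < μ := by
    by_contra hcon
    push Not at hcon
    apply hc0
    ext j
    have h1 := hj0 j (Finset.mem_univ _)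
    have h2 : |c j * sc A ℓ j| = 0 := le_antisymm (h1.trans hcon) (abs_nonneg _)
    rw [abs_eq_zero] at h2
    exact (mul_eq_zero.1 h2).resolve_right (sc_pos A ℓ j).ne'
  set c' : ι → ℝ := fun j => c j * sc A ℓ j / μ with hc'
  have hc'1 : ∀ j, |c' j| ≤ 1 := by
    intro j
    simp only [hc']
    rw [abs_div, abs_of_pos hμ0, div_le_one hμ0]
    exact hj0 j (Finset.mem_univ _)
  have hc'0 : |c' j0| = 1 := by
    simp only [hc']
    rw [abs_div, abs_of_pos hμ0, ← hμ, div_self hμ0.ne']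
  -- the auxiliary function
  set G : ℂ → ℂ := fun ζ => ∑ j : ι, (c' j : ℂ) * ph A ℓ F j ζ with hG
  have hGdiff : DifferentiableOn ℂ G (ball (ℓ : ℂ) (ℓ / 8)) := by
    simp only [hG]
    apply DifferentiableOn.fun_sum
    intro j _
    exact (ph_diff A ℓ hF j).const_mul _
  have hGb : ∀ ζ : ℂ, ‖ζ - ℓ‖ ≤ ℓ / 9 →
      ‖G ζ‖ ≤ ((A : ℝ) + 1) ^ 2 * Real.exp (2 * A * (ℓ / 9)) := by
    intro ζ hζ
    simp only [hG]
    refine (norm_sum_le _ _).trans ?_
    calc ∑ j : ι, ‖(c' j : ℂ) * ph A ℓ F j ζ‖ ≤ ∑ _j : ι, Real.exp (2 * A * (ℓ / 9)) := by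
          apply Finset.sum_le_sum
          intro j _
          rw [norm_mul, Complex.norm_real, Real.norm_eq_abs]
          have h1 := ph_bound A (by positivity) hζ (hFb ζ hζ) j
          calc |c' j| * ‖ph A ℓ F j ζ‖ ≤ 1 * Real.exp (2 * A * (ℓ / 9)) := by
                gcongr
                exact hc'1 j
            _ = _ := one_mul _
      _ = _ := by
          rw [Finset.sum_const, Finset.card_univ, card_idx', nsmul_eq_mul]
          push_cast
          ring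
  set ζ : Fin K → ℂ := fun i => ((Real.log ((n i : ℝ) / (2 * π)) : ℝ) : ℂ) with hζ
  have hζinj : Function.Injective ζ := by
    intro i j hij
    simp only [hζ] at hij
    have h1 : Real.log ((n i : ℝ) / (2 * π)) = Real.log ((n j : ℝ) / (2 * π)) := by
      exact_mod_cast hij
    have hi : (0 : ℝ) < n i := by exact_mod_cast hn1 i
    have hj : (0 : ℝ) < n j := by exact_mod_cast hn1 j
    have h2 := Real.log_injOn_pos (Set.mem_Ioi.2 (by positivity))
      (Set.mem_Ioi.2 (by positivity)) h1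
    apply hn
    have h3 : (n i : ℝ) = n j := by
      field_simp at h2
      exact h2
    exact_mod_cast h3
  have hGz : ∀ k, G (ζ k) = 0 := by
    intro k
    simp only [hG]
    have h1 := hc k
    have h2 : ∀ j : ι, (c' j : ℂ) * ph A ℓ F j (ζ k) =
        (((n k : ℝ) ^ (j.1 : ℕ) * (m k : ℝ) ^ (j.2 : ℕ) * c j : ℝ) : ℂ) / μ := by
      intro j
      have h3 := mono_eq A ℓ F (n k) (hn1 k) (m k) (hm k) j
      simp only [hc', hζ]
      push_cast at h3 ⊢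
      rw [h3]
      ring
    simp_rw [h2]
    rw [← Finset.sum_div]
    rw [← Complex.ofReal_sum, h1]
    simp
  set r : ℝ := ℓ * Real.exp (-1500) with hr
  have hexp : Real.exp (-1500) ≤ 1 / 1000 := by
    have h2 : Real.exp (-1500) ≤ Real.exp (-7) := Real.exp_le_exp.2 (by norm_num)
    have h3 : (1000 : ℝ) ≤ Real.exp 7 := by
      have h4 : Real.exp 7 = Real.exp 1 ^ 7 := by rw [← Real.exp_nat_mul]; norm_num
      rw [h4]
      have := Real.exp_one_gt_d9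
      calc (1000 : ℝ) ≤ 2.7 ^ 7 := by norm_num
        _ ≤ _ := by gcongr; linarith
    rw [Real.exp_neg 7] at h2
    refine h2.trans ?_
    rw [one_div]
    exact inv_anti₀ (by norm_num) h3
  have hr0 : 0 ≤ r := by positivity
  have hr1 : r ≤ ℓ / 1000 := by rw [hr]; nlinarith
  set R1 : ℝ := 2 * π * (A + 1) with hR1
  have hR1b : R1 ≤ ℓ / 40 + 13 := by
    rw [hR1]
    nlinarith
  have hR10 : 0 ≤ R1 := by positivity
  have hratio : (R1 + r) / (ℓ / 9 - r) ≤ 1 / 2 := by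
    rw [div_le_iff₀ (by linarith)]
    linarith
  have hratio0 : 0 ≤ (R1 + r) / (ℓ / 9 - r) := by
    apply div_nonneg (by linarith) (by linarith)
  have hGsmall : ∀ z : ℂ, ‖z - ℓ‖ ≤ R1 → ‖G z‖ ≤
      ((A : ℝ) + 1) ^ 2 * Real.exp (2 * A * (ℓ / 9)) * (1 / 2) ^ K := by
    intro z hz
    have h1 := many_zeros (ℓ : ℂ) r R1 (ℓ / 9) (ℓ / 8) hr0 (by linarith) hR10 (by linarith)
      (by linarith) G hGdiff _ (fun z hz => hGb z hz.le) (Finset.univ.image ζ) (by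
        intro a ha
        obtain ⟨i, -, rfl⟩ := Finset.mem_image.1 ha
        exact ⟨hnr i, hGz i⟩) z hz
    rw [Finset.card_image_of_injective _ hζinj, Finset.card_univ, Fintype.card_fin] at h1
    refine h1.trans ?_
    gcongr
  -- the sheets
  set pt : ℂ → Fin (A + 1) → ℂ := fun t j => (ℓ : ℂ) + Complex.arg t * I + 2 * π * I * (j : ℕ)
    with hpt
  have hpt1 : ∀ t j, ‖pt t j - ℓ‖ ≤ R1 := by
    intro t j
    have h1 : pt t j - ℓ = ((Complex.arg t + 2 * π * (j : ℕ) : ℝ) : ℂ) * I := by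
      simp only [hpt]
      push_cast
      ring
    rw [h1, norm_mul, Complex.norm_I, mul_one, Complex.norm_real, Real.norm_eq_abs]
    have h2 := Complex.abs_arg_le_pi t
    have h3 : ((j : ℕ) : ℝ) ≤ A := by exact_mod_cast Nat.lt_succ_iff.1 j.2
    calc |Complex.arg t + 2 * π * (j : ℕ)| ≤ |Complex.arg t| + |2 * π * ((j : ℕ) : ℝ)| :=
          abs_add_le _ _
      _ ≤ π + 2 * π * A := by
          rw [abs_of_nonneg (a := 2 * π * ((j : ℕ) : ℝ)) (by positivity)]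
          gcongr
      _ ≤ R1 := by rw [hR1]; nlinarith
  have hptre : ∀ t j, (pt t j).re = ℓ := by
    intro t j
    simp [hpt]
  have hptball : ∀ t j, pt t j ∈ ball (ℓ : ℂ) (ℓ / 8) := by
    intro t j
    rw [mem_ball, dist_eq_norm]
    have := hpt1 t j
    linarith
  have hptexp : ∀ t, ‖t‖ = 1 → ∀ j, Complex.exp (pt t j - ℓ) = t := by
    intro t ht j
    have h1 : pt t j - ℓ = Complex.arg t * I + ((j : ℕ) : ℤ) * (2 * π * I) := by
      simp only [hpt]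
      push_cast
      ring
    rw [h1, Complex.exp_add, Complex.exp_int_mul_two_pi_mul_I, mul_one]
    have := Complex.norm_mul_exp_arg_mul_I t
    rw [ht] at this
    simpa using this
  have hs := sheets A (fun a b => ((c' (a, b) : ℝ) : ℂ))
    (((A : ℝ) + 1) ^ 2 * Real.exp (2 * A * (ℓ / 9)) * (1 / 2) ^ K) (1 / (2 * ℓ ^ 2))
    (by positivity) (by
      rw [div_le_one (by positivity)]
      nlinarith)
    (fun t j => F (pt t j) * Real.exp (-ℓ))
    (by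
      intro t ht j
      rw [norm_mul, Complex.norm_real, Real.norm_of_nonneg (Real.exp_pos _).le]
      have h1 := hFb (pt t j) ((hpt1 t j).trans (by linarith))
      rw [hptre] at h1
      calc ‖F (pt t j)‖ * Real.exp (-ℓ) ≤ Real.exp ℓ * Real.exp (-ℓ) := by gcongr
        _ = 1 := by rw [← Real.exp_add]; simp)
    (by
      intro t ht i j hij
      have h1 := hsep (pt t j) (hptball t j) (pt t i) (hptball t i) (hptre t j)
        ((i : ℕ) - (j : ℕ) : ℤ) (by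
          intro h
          apply hij
          apply Fin.ext
          omega) (by
          simp only [hpt]
          push_cast
          ring)
      rw [← sub_mul, norm_mul, Complex.norm_real, Real.norm_of_nonneg (Real.exp_pos _).le]
      calc 1 / (2 * ℓ ^ 2) = Real.exp ℓ / (2 * ℓ ^ 2) * Real.exp (-ℓ) := by
            rw [div_mul_eq_mul_div, ← Real.exp_add]
            simp
        _ ≤ ‖F (pt t i) - F (pt t j)‖ * Real.exp (-ℓ) := by gcongr)
    (by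
      intro t ht j
      have h1 := hGsmall (pt t j) (hpt1 t j)
      have h2 : G (pt t j) = ∑ a : Fin (A + 1), ∑ b : Fin (A + 1),
          ((c' (a, b) : ℝ) : ℂ) * t ^ (a : ℕ) * (F (pt t j) * Real.exp (-ℓ)) ^ (b : ℕ) := by
        simp only [hG]
        rw [Fintype.sum_prod_type]
        apply Finset.sum_congr rfl
        intro a _
        apply Finset.sum_congr rfl
        intro b _
        unfold ph
        rw [hptexp t ht j]
        ring
      rw [← h2]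
      exact h1)
    j0.1 j0.2
  rw [Complex.norm_real, Real.norm_eq_abs] at hs
  have h9 : (j0.1, j0.2) = j0 := rfl
  rw [h9, hc'0] at hs
  have h10 := final_ineq hℓ A hA2 K hK
  exact absurd (lt_of_le_of_lt hs h10) (lt_irrefl _)

/-- there are few integer points near the graph of `f` -/
theorem main_count : ∃ c : ℝ, 0 < c ∧ c ≤ 1 / 20 ∧ ∃ ℓ0 : ℝ, ∀ ℓ : ℝ, ℓ0 ≤ ℓ →
    ∀ f : ℂ → ℂ, FOK ℓ f → ∀ S : Finset ℕ,
    (∀ n ∈ S, ℓ ≤ Real.log n ∧ Real.log n ≤ (1 + c) * ℓ ∧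
      ∃ m : ℤ, ‖f ((Real.log ((n : ℝ) / (2 * π)) : ℝ) : ℂ) - m‖ ≤
        Real.exp (-Real.exp (ℓ / 20))) →
      (S.card : ℝ) ≤ ℓ ^ 2 := by
  obtain ⟨ℓ1, hcorr⟩ := exists_corr'
  have hE0 : 0 < Real.exp (-1500) := Real.exp_pos _
  have hE1 : Real.exp (-1500) ≤ 1 / 1000 := by
    have h2 : Real.exp (-1500) ≤ Real.exp (-7) := Real.exp_le_exp.2 (by norm_num)
    have h3 : (1000 : ℝ) ≤ Real.exp 7 := by
      have h4 : Real.exp 7 = Real.exp 1 ^ 7 := by rw [← Real.exp_nat_mul]; norm_num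
      rw [h4]
      have := Real.exp_one_gt_d9
      calc (1000 : ℝ) ≤ 2.7 ^ 7 := by norm_num
        _ ≤ _ := by gcongr; linarith
    rw [Real.exp_neg 7] at h2
    refine h2.trans ?_
    rw [one_div]
    exact inv_anti₀ (by norm_num) h3
  refine ⟨Real.exp (-1500), hE0, by linarith, max ℓ1 (max 2000 (2 / Real.exp (-1500))), ?_⟩
  intro ℓ hℓ f hf S hS
  have hℓ1 : ℓ1 ≤ ℓ := (le_max_left _ _).trans hℓ
  have hℓ2 : 2000 ≤ ℓ := ((le_max_left _ _).trans (le_max_right _ _)).trans hℓ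
  have hℓ3 : 2 / Real.exp (-1500) ≤ ℓ := ((le_max_right _ _).trans (le_max_right _ _)).trans hℓ
  have hℓ0 : 0 < ℓ := by linarith
  have hpi := Real.pi_pos
  by_contra hcon
  push Not at hcon
  set K : ℕ := ⌊ℓ ^ 2⌋₊ + 1 with hK
  have hKle : (K : ℝ) ≤ ℓ ^ 2 + 1 := by
    rw [hK]
    push_cast
    have := Nat.floor_le (a := ℓ ^ 2) (by positivity)
    linarith
  have hKge : ℓ ^ 2 ≤ K := by
    rw [hK]
    push_cast
    exact (Nat.lt_floor_add_one _).le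
  have hKS : K ≤ S.card := by
    rw [hK]
    have h1 : ⌊ℓ ^ 2⌋₊ < S.card := by
      rw [Nat.floor_lt (by positivity)]
      exact hcon
    omega
  obtain ⟨S', hS'S, hS'K⟩ := Finset.exists_subset_card_eq hKS
  set n : Fin K → ℕ := fun i => S'.orderEmbOfFin hS'K i with hn
  have hninj : Function.Injective n := (S'.orderEmbOfFin hS'K).injective
  have hnS : ∀ i, n i ∈ S := fun i => hS'S (Finset.orderEmbOfFin_mem S' hS'K i)
  choose m hm using fun i => (hS (n i) (hnS i)).2.2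
  have hn1 : ∀ i, 1 ≤ n i := by
    intro i
    by_contra h
    push Not at h
    have h0 : n i = 0 := by omega
    have h1 := (hS (n i) (hnS i)).1
    rw [h0] at h1
    simp at h1
    linarith
  have hn1r : ∀ i, (0 : ℝ) < n i := fun i => by exact_mod_cast hn1 i
  obtain ⟨P, hP1, hP2⟩ := hcorr ℓ hℓ1 K hKle n hninj (by
      intro i
      obtain ⟨h1, h2, -⟩ := hS (n i) (hnS i)
      refine ⟨h1, h2.trans ?_⟩
      nlinarith)
    (fun i => m i - f ((Real.log ((n i : ℝ) / (2 * π)) : ℝ) : ℂ)) (by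
      intro i
      rw [norm_sub_rev]
      exact hm i)
  have hlog2pi : 0 ≤ Real.log (2 * π) ∧ Real.log (2 * π) ≤ 2 := by
    have h3 := Real.pi_gt_three
    constructor
    · apply Real.log_nonneg
      linarith
    · rw [Real.log_le_iff_le_exp (by positivity)]
      have h3 := Real.pi_lt_d2
      have h4 := Real.exp_one_gt_d9
      have h5 : Real.exp 2 = Real.exp 1 ^ 2 := by rw [← Real.exp_nat_mul]; norm_num
      rw [h5]
      nlinarith
  have hnr : ∀ i, ‖((Real.log ((n i : ℝ) / (2 * π)) : ℝ) : ℂ) - ℓ‖ ≤ ℓ * Real.exp (-1500) := by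
    intro i
    obtain ⟨h1, h2, -⟩ := hS (n i) (hnS i)
    rw [← Complex.ofReal_sub, Complex.norm_real, Real.norm_eq_abs,
      Real.log_div (hn1r i).ne' (by positivity)]
    rw [div_le_iff₀ hE0] at hℓ3
    rw [abs_le]
    constructor
    · linarith [hlog2pi.1, hlog2pi.2]
    · have : (1 + Real.exp (-1500)) * ℓ = ℓ + ℓ * Real.exp (-1500) := by ring
      rw [this] at h2
      linarith [hlog2pi.1, hlog2pi.2]
  set A : ℕ := ⌈ℓ / 300⌉₊ with hA
  have hA1 : ℓ / 300 ≤ A := Nat.le_ceil _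
  have hA2 : (A : ℝ) ≤ ℓ / 300 + 1 := (Nat.ceil_lt_add_one (by positivity)).le
  have hA3 : 1 ≤ A := by
    rw [hA, Nat.one_le_ceil_iff]
    positivity
  refine main_contra hℓ2 A hA1 hA3 hA2 (fun ζ => f ζ + P.eval ζ) ?_ ?_ ?_ K hKge n m hninj hn1
    hnr ?_
  · exact hf.diff.add P.differentiable.differentiableOn
  · intro ζ hζ
    have hmem : ζ ∈ ball (ℓ : ℂ) (ℓ / 8) := by
      rw [mem_ball, dist_eq_norm]
      linarith
    have h1 := hf.bound ζ hmem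
    have h2 := hP2 ζ (by linarith)
    have h3 : 1 ≤ Real.exp ζ.re := by
      apply Real.one_le_exp
      have h4 := Complex.abs_re_le_norm (ζ - ℓ)
      rw [Complex.sub_re, Complex.ofReal_re] at h4
      have h5 := neg_abs_le (ζ.re - ℓ)
      linarith
    calc ‖f ζ + P.eval ζ‖ ≤ ‖f ζ‖ + ‖P.eval ζ‖ := norm_add_le _ _
      _ ≤ Real.exp ζ.re / 2 + 1 / 4 := by gcongr
      _ ≤ Real.exp ζ.re := by linarith
  · intro z hz w hw hzre k hk hwz
    have h1 := hf.sep z hz w hw hzre k hk hwz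
    rw [mem_ball, dist_eq_norm] at hz hw
    have h2 := hP2 z (by linarith)
    have h3 := hP2 w (by linarith)
    have h4 : f w + P.eval w - (f z + P.eval z) = (f w - f z) - (P.eval z - P.eval w) := by ring
    have h5 : ‖f w - f z‖ - ‖P.eval z - P.eval w‖ ≤ ‖(f w - f z) - (P.eval z - P.eval w)‖ :=
      norm_sub_norm_le _ _
    have h6 : ‖P.eval z - P.eval w‖ ≤ 1 / 2 := by
      refine (norm_sub_le _ _).trans ?_
      linarith
    have h7 : 1 / 2 ≤ Real.exp ℓ / (2 * ℓ ^ 2) := by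
      rw [le_div_iff₀ (by positivity)]
      have h8 : ℓ ^ 2 ≤ Real.exp ℓ := by
        have := Real.pow_div_factorial_le_exp ℓ hℓ0.le 3
        have h9 : ℓ ^ 2 ≤ ℓ ^ 3 / (3).factorial := by
          rw [le_div_iff₀ (by positivity)]
          norm_num [Nat.factorial]
          nlinarith [sq_nonneg ℓ]
        linarith
      linarith
    have h8 : Real.exp ℓ / ℓ ^ 2 = 2 * (Real.exp ℓ / (2 * ℓ ^ 2)) := by
      field_simp
    change Real.exp ℓ / (2 * ℓ ^ 2) ≤ ‖f w + P.eval w - (f z + P.eval z)‖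
    rw [h4]
    linarith
  · intro i
    have h1 := hP1 i
    change f _ + P.eval _ = _
    rw [h1]
    ring

end Pool.Agent.StL
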