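import Pool.Agent.StL.Defs

open Complex Set Filter MeasureTheory Topology Metric
open scoped Real

namespace Pool.Agent.StL

open Pool.Agent.Stj

lemma QE_aux1 {u y : ℂ} (hU : 10000 ≤ ‖u‖) (hy : ‖y‖ ≤ 1 / 4) :
    ‖(y - u * Complex.log (1 + Complex.log (1 + y) / u)) - y ^ 2 / 2 * (1 + 1 / u)‖ ≤
      ‖y‖ ^ 3 := by
  have hU0 : 0 < ‖u‖ := by linarith
  have hu : u ≠ 0 := norm_pos_iff.1 hU0
  have hy0 := norm_nonneg y
  have h1 : ‖Complex.log (1 + y)‖ ≤ 3 / 2 * ‖y‖ :=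
    Complex.norm_log_one_add_half_le_self (by linarith)
  have h2 : ‖Complex.log (1 + y) - y‖ ≤ ‖y‖ ^ 2 := log_bound2 (by linarith)
  have h3 := log_bound3 hy
  set ll := Complex.log (1 + y) with hll
  have hr : ‖ll / u‖ ≤ 3 / 2 * ‖y‖ / ‖u‖ := by
    rw [norm_div]
    gcongr
  have hr' : ‖ll / u‖ ≤ 1 / 4 := by
    refine hr.trans ?_
    rw [div_le_iff₀ hU0]
    nlinarith
  have h4 := log_bound3 hr'
  have key : (y - u * Complex.log (1 + ll / u)) - y ^ 2 / 2 * (1 + 1 / u) =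
      -(u * (Complex.log (1 + ll / u) - (ll / u - (ll / u) ^ 2 / 2))) -
      (ll - (y - y ^ 2 / 2)) + (ll - y) * (ll + y) / (2 * u) := by
    field_simp
    ring
  rw [key]
  have b1 : ‖u * (Complex.log (1 + ll / u) - (ll / u - (ll / u) ^ 2 / 2))‖ ≤
      1 / 4 * ‖y‖ ^ 3 := by
    rw [norm_mul]
    calc ‖u‖ * ‖Complex.log (1 + ll / u) - (ll / u - (ll / u) ^ 2 / 2)‖
        ≤ ‖u‖ * (4 / 9 * (3 / 2 * ‖y‖ / ‖u‖) ^ 3) := by
          gcongr
          refine h4.trans ?_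
          gcongr
      _ = (3 / 2 / ‖u‖ ^ 2) * ‖y‖ ^ 3 := by
          field_simp
          ring
      _ ≤ 1 / 4 * ‖y‖ ^ 3 := by
          apply mul_le_mul_of_nonneg_right _ (by positivity)
          rw [div_le_iff₀ (by positivity)]
          nlinarith
  have b3 : ‖(ll - y) * (ll + y) / (2 * u)‖ ≤ 1 / 4 * ‖y‖ ^ 3 := by
    have h5 : ‖ll + y‖ ≤ 5 / 2 * ‖y‖ := by
      refine (norm_add_le _ _).trans ?_
      linarith
    rw [norm_div, norm_mul, norm_mul, Complex.norm_ofNat, div_le_iff₀ (by positivity)]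
    calc ‖ll - y‖ * ‖ll + y‖ ≤ ‖y‖ ^ 2 * (5 / 2 * ‖y‖) := by gcongr
      _ = 5 / 2 * ‖y‖ ^ 3 := by ring
      _ ≤ 1 / 4 * ‖y‖ ^ 3 * (2 * ‖u‖) := by
          have : 0 ≤ ‖y‖ ^ 3 := by positivity
          nlinarith
  calc _ ≤ ‖u * (Complex.log (1 + ll / u) - (ll / u - (ll / u) ^ 2 / 2))‖ +
        ‖ll - (y - y ^ 2 / 2)‖ + ‖(ll - y) * (ll + y) / (2 * u)‖ := by
          refine (norm_add_le _ _).trans ?_
          gcongr
          refine (norm_sub_le _ _).trans ?_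
          rw [norm_neg]
    _ ≤ 1 / 4 * ‖y‖ ^ 3 + 4 / 9 * ‖y‖ ^ 3 + 1 / 4 * ‖y‖ ^ 3 := by gcongr
    _ ≤ ‖y‖ ^ 3 := by
        have : 0 ≤ ‖y‖ ^ 3 := by positivity
        linarith

lemma QE_gg_sq {ℓ : ℝ} (hℓ : ℓ ≠ 0) {u : ℂ} (hu : u ≠ 0) :
    gg ℓ u ^ 2 = I * Complex.exp (-u) * u / ℓ := by
  have hq : u / (ℓ : ℂ) ≠ 0 := div_ne_zero hu (by exact_mod_cast hℓ)
  unfold gg
  rw [← Complex.exp_nat_mul]
  have e1 : ((2 : ℕ) : ℂ) * (I * π / 4 - u / 2 + Complex.log (u / ℓ) / 2) =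
      (π / 2 : ℝ) * I + -u + Complex.log (u / ℓ) := by
    push_cast
    ring
  rw [e1, Complex.exp_add, Complex.exp_add, Complex.exp_log hq]
  have e2 : Complex.exp ((π / 2 : ℝ) * I) = I := by
    rw [Complex.exp_mul_I, ← Complex.ofReal_cos, ← Complex.ofReal_sin, Real.cos_pi_div_two,
      Real.sin_pi_div_two]
    simp
  rw [e2]
  ring

lemma QE_gg_norm {ℓ : ℝ} (hℓ : 0 < ℓ) {u : ℂ} (h : ‖u - ℓ‖ ≤ ℓ / 7) :
    ‖gg ℓ u‖ ≤ Real.exp (-u.re / 2 + 1 / 14) := by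
  have hu1 : ‖u‖ ≤ 8 / 7 * ℓ := by
    have := norm_add_le (u - ℓ) (ℓ : ℂ)
    rw [sub_add_cancel, Complex.norm_real, Real.norm_eq_abs, abs_of_pos hℓ] at this
    linarith
  have hu2 : 6 / 7 * ℓ ≤ ‖u‖ := by
    have := norm_sub_norm_le (ℓ : ℂ) u
    rw [norm_sub_rev, Complex.norm_real, Real.norm_eq_abs, abs_of_pos hℓ] at this
    linarith
  unfold gg
  rw [Complex.norm_exp]
  apply Real.exp_le_exp.2
  have e1 : (I * π / 4 - u / 2 + Complex.log (u / ℓ) / 2).re =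
      -u.re / 2 + Real.log ‖u / ℓ‖ / 2 := by
    have a1 : (I * π / 4 : ℂ).re = 0 := by
      have : (I * π / 4 : ℂ) = ((π / 4 : ℝ) : ℂ) * I := by push_cast; ring
      rw [this]; simp
    have a2 : (u / 2 : ℂ).re = u.re / 2 := by
      rw [show (u / 2 : ℂ) = u / ((2 : ℝ) : ℂ) by push_cast; rfl, Complex.div_ofReal_re]
    have a3 : (Complex.log (u / ℓ) / 2 : ℂ).re = Real.log ‖u / ℓ‖ / 2 := by
      rw [show (Complex.log (u / ℓ) / 2 : ℂ) = Complex.log (u / ℓ) / ((2 : ℝ) : ℂ) by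
        push_cast; rfl, Complex.div_ofReal_re, Complex.log_re]
    rw [Complex.add_re, Complex.sub_re, a1, a2, a3]
    ring
  rw [e1]
  have hn : ‖u / (ℓ : ℂ)‖ = ‖u‖ / ℓ := by
    rw [norm_div, Complex.norm_real, Real.norm_eq_abs, abs_of_pos hℓ]
  have hpos : 0 < ‖u‖ / ℓ := by
    apply div_pos _ hℓ
    nlinarith
  have hle : ‖u‖ / ℓ ≤ 8 / 7 := by
    rw [div_le_iff₀ hℓ]; linarith
  have := Real.log_le_sub_one_of_pos hpos
  rw [hn]
  linarith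

theorem qe_near : ∃ ℓ0 : ℝ, ∀ ℓ : ℝ, ℓ0 ≤ ℓ → ∀ u : ℂ, ‖u - ℓ‖ ≤ ℓ / 7 →
    ∀ τ : ℝ, |τ| ≤ Real.exp (ℓ / 8) →
      ‖(τ : ℂ) * gg ℓ u‖ ≤ 1 / 4 ∧
      ‖qe u (τ * gg ℓ u) + π * τ ^ 2 * (u + 1) / ℓ‖ ≤
        8 * |τ| ^ 3 * Real.exp (-(3 / 7) * ℓ) := by
  refine ⟨20000, fun ℓ hℓ u hu τ hτ => ?_⟩
  have hℓ0 : 0 < ℓ := by linarith
  have hu2 : 6 / 7 * ℓ ≤ ‖u‖ := by
    have := norm_sub_norm_le (ℓ : ℂ) u
    rw [norm_sub_rev, Complex.norm_real, Real.norm_eq_abs, abs_of_pos hℓ0] at this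
    linarith
  have hU : 10000 ≤ ‖u‖ := by linarith
  have hu0 : u ≠ 0 := norm_pos_iff.1 (by linarith)
  have hre : 6 / 7 * ℓ ≤ u.re := by
    have h1 := Complex.abs_re_le_norm (u - ℓ)
    rw [Complex.sub_re, Complex.ofReal_re] at h1
    have h2 := (abs_le.1 (h1.trans hu)).1
    linarith
  have hg := QE_gg_norm hℓ0 hu
  have hy : ‖(τ : ℂ) * gg ℓ u‖ = |τ| * ‖gg ℓ u‖ := by
    rw [norm_mul, Complex.norm_real, Real.norm_eq_abs]
  have hy4 : ‖(τ : ℂ) * gg ℓ u‖ ≤ 1 / 4 := by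
    rw [hy]
    calc |τ| * ‖gg ℓ u‖ ≤ Real.exp (ℓ / 8) * Real.exp (-u.re / 2 + 1 / 14) := by gcongr
      _ = Real.exp (ℓ / 8 + (-u.re / 2 + 1 / 14)) := (Real.exp_add _ _).symm
      _ ≤ Real.exp (-3) := by
          apply Real.exp_le_exp.2
          linarith
      _ ≤ 1 / 4 := by
          rw [Real.exp_neg, one_div]
          apply inv_anti₀ (by norm_num)
          have := Real.add_one_le_exp (3 : ℝ)
          linarith
  refine ⟨hy4, ?_⟩
  have haux := QE_aux1 hU hy4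
  set y : ℂ := (τ : ℂ) * gg ℓ u with hydef
  have hℓc : (ℓ : ℂ) ≠ 0 := by exact_mod_cast hℓ0.ne'
  have hysq : y ^ 2 = (τ : ℂ) ^ 2 * (I * Complex.exp (-u) * u / ℓ) := by
    rw [hydef, mul_pow, QE_gg_sq hℓ0.ne' hu0]
  have hkey : qe u y + π * τ ^ 2 * (u + 1) / ℓ =
      2 * π * I * Complex.exp u *
        ((y - u * Complex.log (1 + Complex.log (1 + y) / u)) - y ^ 2 / 2 * (1 + 1 / u)) := by
    have hmain : 2 * π * I * Complex.exp u * (y ^ 2 / 2 * (1 + 1 / u)) =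
        -(π * τ ^ 2 * (u + 1) / ℓ) := by
      rw [hysq, Complex.exp_neg]
      have he := Complex.exp_ne_zero u
      field_simp
      rw [show I ^ 2 = -1 from Complex.I_sq]
      ring
    unfold qe
    rw [mul_sub _ (y - u * Complex.log (1 + Complex.log (1 + y) / u)), hmain]
    ring
  rw [hkey, norm_mul]
  have hn1 : ‖2 * π * I * Complex.exp u‖ = 2 * π * Real.exp u.re := by
    rw [norm_mul, norm_mul, norm_mul, Complex.norm_I, Complex.norm_exp, Complex.norm_ofNat,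
      Complex.norm_real, Real.norm_eq_abs, abs_of_pos Real.pi_pos, mul_one]
  rw [hn1]
  have hy3 : ‖y‖ ^ 3 ≤ |τ| ^ 3 * Real.exp (-(3 / 2) * u.re + 3 / 14) := by
    rw [hy, mul_pow]
    gcongr
    calc ‖gg ℓ u‖ ^ 3 ≤ Real.exp (-u.re / 2 + 1 / 14) ^ 3 := by gcongr
      _ = Real.exp (-(3 / 2) * u.re + 3 / 14) := by
          rw [← Real.exp_nat_mul]
          congr 1
          push_cast
          ring
  have hexp : Real.exp (3 / 14) ≤ 14 / 11 := by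
    have h1 := Real.add_one_le_exp (-(3 / 14) : ℝ)
    rw [Real.exp_neg] at h1
    have h2 : (11 / 14 : ℝ) ≤ (Real.exp (3 / 14))⁻¹ := by linarith
    have h3 := (le_inv_comm₀ (by norm_num) (Real.exp_pos _)).1 h2
    refine h3.trans (by norm_num)
  have hpi : 2 * π * Real.exp (3 / 14) ≤ 8 := by
    have := Real.pi_lt_d4
    have h0 := Real.pi_pos
    calc 2 * π * Real.exp (3 / 14) ≤ 2 * 3.1416 * (14 / 11) := by gcongr
      _ ≤ 8 := by norm_num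
  calc 2 * π * Real.exp u.re *
        ‖(y - u * Complex.log (1 + Complex.log (1 + y) / u)) - y ^ 2 / 2 * (1 + 1 / u)‖
      ≤ 2 * π * Real.exp u.re * (|τ| ^ 3 * Real.exp (-(3 / 2) * u.re + 3 / 14)) := by
        gcongr
        exact haux.trans hy3
    _ = (2 * π * Real.exp (3 / 14)) * |τ| ^ 3 * Real.exp (-(1 / 2) * u.re) := by
        have : Real.exp (-(1 / 2) * u.re) * Real.exp (3 / 14) =
            Real.exp u.re * Real.exp (-(3 / 2) * u.re + 3 / 14) := by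
          rw [← Real.exp_add, ← Real.exp_add]
          congr 1
          ring
        linear_combination (-(2 * π * |τ| ^ 3)) * this
    _ ≤ 8 * |τ| ^ 3 * Real.exp (-(3 / 7) * ℓ) := by
        have hE : Real.exp (-(1 / 2) * u.re) ≤ Real.exp (-(3 / 7) * ℓ) :=
          Real.exp_le_exp.2 (by linarith)
        have h3 : 0 ≤ |τ| ^ 3 := by positivity
        exact mul_le_mul (mul_le_mul_of_nonneg_right hpi h3) hE (Real.exp_pos _).le
          (by positivity)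

end Pool.Agent.StL
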